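import Mathlib
import Pool.Agent.Helper58K9.QT.ThC

/-!
# Lower semicontinuity of minimal log discrepancies of toric quotient pairs: definitions
-/

set_option autoImplicit false

namespace Pool.Agent.Helper58K9.LQ

open Pool.Agent.H436R3.Fol Pool.Agent.H436R3.KT Pool.Agent.W497.Mld Pool.Agent.TH165.ACC
  Pool.Agent.Helper58K9.QT MvPolynomial

section

variable {L K : Type} [Field L] [Algebra ℂ L] [Field K] [Algebra ℂ K] [Algebra L K]

/-- The affine variety `X` is the quotient of the affine variety `T = Spec R` by a finite group `G`: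
`T` has the function field `K`, which is a Galois extension of the function field `L` of `X`, with
group `G`; the action of `G` on `K` preserves `R`; and the coordinate ring of `X` is the ring of
invariants of `R`. -/
structure IsQuot (X : AffVar L) (R : Subalgebra ℂ K) : Prop where
  fin : FiniteDimensional L K
  gal : IsGalois L K
  inv : ∀ γ : K ≃ₐ[L] K, ∀ f ∈ R, γ f ∈ R
  quot : ∀ f : L, f ∈ X.R ↔ algebraMap L K f ∈ R

/-- In suitable coordinates `x_1, ..., x_n` of the function field `K`, `T = Spec R` is an affine toric
variety of dimension `n` (with a fixed point), the automorphism `γ` maps Laurent monomials to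
constant multiples of Laurent monomials (it normalises the torus), and the boundary `B_T` of `T`
which is defined by `K_T + B_T = π^* (K_X + B)`, where `π : T → X` is the quotient map, is effective
and torus invariant: for every prime divisor `w` of `T` over the prime divisor `v` of `X` with
ramification index `e`, the multiplicity `1 - e (1 - B.mult v)` of `B_T` at `w` is zero, or `w` is
torus invariant and the multiplicity is not negative. -/
def ToricFor (n : ℕ) {X : AffVar L} (B : EffDiv X) (R : Subalgebra ℂ K) (γ : K ≃ₐ[L] K) : Prop :=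
  ∃ (_ : Algebra (MvPolynomial (Fin n) ℂ) K) (_ : IsFractionRing (MvPolynomial (Fin n) ℂ) K)
    (_ : IsScalarTower ℂ (MvPolynomial (Fin n) ℂ) K) (g : ToricGerm n K),
    g.X.R = R ∧
    (∀ m : Fin n → ℤ, ∃ (c : ℂ) (m' : Fin n → ℤ),
      γ (ym K m) = algebraMap ℂ K c * ym K m') ∧
    ∀ (w : DVal K) (v : DVal L) (e : ℤ), IsLocalRing' R w → Over w v e →
      1 - e * (1 - B.mult v) = 0 ∨ (IsMonomial n w ∧ 0 ≤ 1 - e * (1 - B.mult v))

end

/-- The pair `(X, B)` is a toric quotient pair: it is the quotient of a toric pair `(T, B_T)` by a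
finite group `G` which acts on the affine toric variety `T`. For every `γ ∈ G` there is a torus,
normalised by `γ`, which makes `T` an affine toric variety (with a fixed point) and leaves `B_T`
invariant; `B_T`, defined by `K_T + B_T = π^* (K_X + B)`, is effective. The torus may depend on
`γ`. -/
def IsToricQuotientPair (n : ℕ) {L : Type} [Field L] [Algebra ℂ L] (X : AffVar L)
    (B : EffDiv X) : Prop :=
  ∃ (K : Type) (_ : Field K) (_ : Algebra ℂ K) (_ : Algebra L K) (_ : IsScalarTower ℂ L K)
    (R : Subalgebra ℂ K), IsQuot X R ∧ ∀ γ : K ≃ₐ[L] K, ToricFor n B R γ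

open Classical in
/-- The minimal log discrepancy `mld_x (X, B)` at the closed point `x`: the infimum of the log
discrepancies of the prime divisors over `X` with centre `x` if none of them is negative, and `-∞`
otherwise. -/
noncomputable def mld {L : Type} [Field L] [Algebra ℂ L] {X : AffVar L} {B : EffDiv X} {x : Pt X}
    (e : LocEq B x) : EReal :=
  if ∃ v a, IsOverGerm x v ∧ IsLogDisc e v a ∧ a < 0 then ⊥
  else sInf {a : EReal | ∃ v r, IsOverGerm x v ∧ IsLogDisc e v r ∧ a = (r : EReal)}

/-! ### Auxiliary definitions -/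

section

variable {L K : Type} [Field L] [Algebra ℂ L] [Field K] [Algebra ℂ K] [Algebra L K]

/-- the closed point `t` of `Y` lies over the closed point `x` of `X` -/
def OverPt {X : AffVar L} {Y : AffVar K} (x : Pt X) (t : Pt Y) : Prop :=
  ∀ (f : X.R) (f' : Y.R), (f' : K) = algebraMap L K f → t f' = x f

end

/-- an integral vector as a rational vector -/
def castQ {n : ℕ} (m : Fin n → ℤ) : Fin n → ℚ := fun i => (m i : ℚ)

/-- the rank of the group generated by the orbit sums of the elements of `F` -/
noncomputable def rk {n : ℕ} (r : ℕ) (A : Matrix (Fin n) (Fin n) ℤ) (F : Set (Fin n → ℤ)) : ℕ :=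
  Module.finrank ℚ (Submodule.span ℚ ((fun m => castQ (ThC.NA r A m)) '' F))

/-- A diagonalisation of the integral matrix `A` which is adapted to the set `F` of integral vectors:
`P * Q = 1`, and the rows of `Q` are left eigenvectors of `A` with the eigenvalues `η`. The rows
which are not enumerated by `κ` are those which vanish on `F` and on the image of `A - 1` (see `N`,
a multiple of a projection with this kernel); the columns of `P` enumerated by `κ` are combinations
of vectors in `F` and in the image of `A - 1`. -/
structure IsDiag2 {n s : ℕ} (r : ℕ) (A N : Matrix (Fin n) (Fin n) ℤ) (D : ℤ)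
    (P Q : Matrix (Fin n) (Fin n) ℂ) (η : Fin n → ℂ) (κ : Fin s → Fin n)
    (F : Set (Fin n → ℤ)) : Prop where
  pos : 0 < r
  pow : A ^ r = 1
  PQ : P * Q = 1
  left : Q * A.map (Int.cast : ℤ → ℂ) = Matrix.diagonal η * Q
  inj : Function.Injective κ
  dne : D ≠ 0
  NA : N * A = N
  NF : ∀ m ∈ F, N.mulVec m = 0
  row : ∀ k, (∀ i, κ i ≠ k) → η k = 1 ∧ ∀ m, ThC.qd Q k (N.mulVec m) = D * ThC.qd Q k m
  col : ∀ i, ∃ (q : ℕ) (e : Fin q → Fin n → ℤ) (α : Fin q → ℂ),
    (∀ a, e a ∈ F ∨ ∃ m, e a = A.mulVec m - m) ∧
    ∀ k, ∑ a, α a * ThC.qd Q k (e a) = if k = κ i then 1 else 0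

end Pool.Agent.Helper58K9.LQ
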