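import Mathlib
import Pool.Agent.Helper58K9.LQ.Defs
import Pool.Agent.Helper58K9.QT.ThD
import Pool.Agent.Helper58K9.QT.ThE

/-!
# [TH2, part A] The eigenvectors, with a general leading monomial
-/

set_option autoImplicit false
set_option linter.unusedSectionVars false

namespace Pool.Agent.Helper58K9.LQ

open Pool.Agent.H436R3.Fol Pool.Agent.H436R3.KT Pool.Agent.W497.Mld Pool.Agent.TH165.ACC
  Pool.Agent.Helper58K9.QT MvPolynomial

namespace T2

open ThA ThB HahnSeries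
open ThC (qd qd_add qd_sub qd_sum bb EP EP_const EP_add append_add pr_A cw_single cw_prod cw_order rot_single rot_ps
  charZ)
open ThD (D_bb_x D_bb_b Der std lg lam lg_EP)

section

variable {n s r : ℕ} {A N : Matrix (Fin n) (Fin n) ℤ} {D : ℤ} {P Q : Matrix (Fin n) (Fin n) ℂ}
  {η : Fin n → ℂ} {κ : Fin s → Fin n} {F : Set (Fin n → ℤ)}

theorem qd_A (hd : IsDiag2 r A N D P Q η κ F) (l : Fin n) (m : Fin n → ℤ) :
    qd Q l (A.mulVec m) = η l * qd Q l m := by
  have h := congrFun (congrArg Matrix.mulVec hd.left) (fun i => (m i : ℂ))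
  have h1 := congrFun h l
  rw [← Matrix.mulVec_mulVec, ← Matrix.mulVec_mulVec, Matrix.mulVec_diagonal] at h1
  have h2 : (A.map (Int.cast : ℤ → ℂ)).mulVec (fun i => (m i : ℂ)) =
      fun i => ((A.mulVec m i : ℤ) : ℂ) := by
    funext i
    simp [Matrix.mulVec, dotProduct]
  rw [h2] at h1
  exact h1

theorem N_A (hd : IsDiag2 r A N D P Q η κ F) (m : Fin n → ℤ) :
    N.mulVec (A.mulVec m) = N.mulVec m := by
  rw [Matrix.mulVec_mulVec, hd.NA]

end

section

variable {n s : ℕ} (Ω : Type) [Field Ω] [Algebra ℂ Ω]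
  [Algebra (MvPolynomial (Fin (n + s)) ℂ) Ω] [IsFractionRing (MvPolynomial (Fin (n + s)) ℂ) Ω]
  [IsScalarTower ℂ (MvPolynomial (Fin (n + s)) ℂ) Ω]

/-- the leading monomial -/
noncomputable def base (N : Matrix (Fin n) (Fin n) ℤ) (m : Fin n → ℤ) : Ω :=
  ym Ω (Fin.append (N.mulVec m) (0 : Fin s → ℤ))

/-- the eigenvectors -/
noncomputable def Phi (N : Matrix (Fin n) (Fin n) ℤ) (Q : Matrix (Fin n) (Fin n) ℂ)
    (κ : Fin s → Fin n) (W : Fin n → ℤ) (V : Fin s → ℤ) (z : ℂ) (h : Fin s → ℂ)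
    (m : Fin n → ℤ) : LaurentSeries Ω :=
  single (pr m W) (algebraMap ℂ Ω z * base (s := s) Ω N m) *
    ofPowerSeries ℤ Ω (EP Ω Q κ V h m)

variable {Ω}
variable {r : ℕ} {A N : Matrix (Fin n) (Fin n) ℤ} {D : ℤ} {P Q : Matrix (Fin n) (Fin n) ℂ}
  {η : Fin n → ℂ} {κ : Fin s → Fin n} {F : Set (Fin n → ℤ)} {W : Fin n → ℤ} {V : Fin s → ℤ}

theorem base_add (m m' : Fin n → ℤ) : base (s := s) Ω N (m + m') =
    base (s := s) Ω N m * base (s := s) Ω N m' := by
  rw [base, base, base, ← ym_add, ← append_add, Matrix.mulVec_add, add_zero]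

theorem base_ne (m : Fin n → ℤ) : base (s := s) Ω N m ≠ 0 := ym_ne _

theorem base_zero {m : Fin n → ℤ} (h : N.mulVec m = 0) : base (s := s) Ω N m = 1 := by
  rw [base, h]
  have : Fin.append (0 : Fin n → ℤ) (0 : Fin s → ℤ) = 0 := by
    funext i
    refine Fin.addCases (fun i => ?_) (fun i => ?_) i
    · simp [Fin.append_left]
    · simp [Fin.append_right]
  rw [this, ym_zero]

theorem Phi_add (hV : ∀ i, 0 < V i) (z z' : ℂ) (h : Fin s → ℂ) (m m' : Fin n → ℤ) :
    Phi Ω N Q κ W V (z * z') h (m + m') =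
      Phi Ω N Q κ W V z h m * Phi Ω N Q κ W V z' h m' := by
  rw [Phi, Phi, Phi, EP_add hV, base_add, pr_add, map_mul (algebraMap ℂ Ω),
    map_mul (ofPowerSeries ℤ Ω)]
  have : (single (pr m W + pr m' W) (algebraMap ℂ Ω z * algebraMap ℂ Ω z' *
      (base (s := s) Ω N m * base (s := s) Ω N m')) : LaurentSeries Ω) =
      single (pr m W) (algebraMap ℂ Ω z * base (s := s) Ω N m) *
        single (pr m' W) (algebraMap ℂ Ω z' * base (s := s) Ω N m') := by
    rw [single_mul_single]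
    congr 1
    ring
  rw [this]
  ring

theorem Phi_lead (hV : ∀ i, 0 < V i) (z : ℂ) (h : Fin s → ℂ) (m : Fin n → ℤ) :
    Lead (Phi Ω N Q κ W V z h m) (pr m W) (algebraMap ℂ Ω z * base (s := s) Ω N m) := by
  have := (lead_single (pr m W) (algebraMap ℂ Ω z * base (s := s) Ω N m)).mul
    (lead_ps (EP Ω Q κ V h m))
  rwa [add_zero, EP_const hV, mul_one] at this

theorem lc_ne {z : ℂ} (hz : z ≠ 0) (m : Fin n → ℤ) :
    algebraMap ℂ Ω z * base (s := s) Ω N m ≠ 0 :=
  mul_ne_zero ((map_ne_zero _).mpr hz) (base_ne m)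

theorem Phi_ne (hV : ∀ i, 0 < V i) {z : ℂ} (hz : z ≠ 0) (h : Fin s → ℂ) (m : Fin n → ℤ) :
    Phi Ω N Q κ W V z h m ≠ 0 := (Phi_lead hV z h m).ne_zero (lc_ne hz m)

theorem Phi_z (z z' : ℂ) (h : Fin s → ℂ) (m : Fin n → ℤ) :
    Phi Ω N Q κ W V (z * z') h m =
      algebraMap ℂ (LaurentSeries Ω) z * Phi Ω N Q κ W V z' h m := by
  rw [Phi, Phi, HahnSeries.algebraMap_apply', PowerSeries.algebraMap_apply, ofPowerSeries_C,
    HahnSeries.C_apply, ← mul_assoc, single_mul_single, zero_add, map_mul (algebraMap ℂ Ω),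
    mul_assoc (algebraMap ℂ Ω z)]

/-- the rotation -/
theorem Phi_rot (hV : ∀ i, 0 < V i) {ζ : ℂ} {S : LaurentSeries Ω →+* LaurentSeries Ω}
    (hS : ∀ (F : LaurentSeries Ω) (n : ℤ), (S F).coeff n = (algebraMap ℂ Ω ζ) ^ n * F.coeff n)
    (z : ℂ) (h : Fin s → ℂ) (m : Fin n → ℤ) :
    S (Phi Ω N Q κ W V z h m) =
      Phi Ω N Q κ W V (ζ ^ pr m W * z) (fun i => ζ ^ V i * h i) m := by
  have : CharZero Ω := charZ (Ω := Ω)
  rw [Phi, map_mul, rot_single hS, rot_ps hS, Phi]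
  congr 1
  · congr 1
    rw [map_mul, map_zpow₀, mul_assoc]
  · congr 1
    rw [EP, EP, map_prod]
    refine Finset.prod_congr rfl fun i _ => ?_
    rw [EE_rescale (by have := hV i; omega)]
    congr 1
    have : ζ ^ V i = ζ ^ (V i).toNat := by
      rw [← zpow_natCast, Int.toNat_of_nonneg (hV i).le]
    rw [this]
    simp only [map_mul, map_pow]
    ring

/-- a coefficientwise derivation applied to an eigenvector -/
theorem cw_Phi (hV : ∀ i, 0 < V i) {D : Derivation ℂ Ω Ω}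
    {D' : Derivation ℂ (LaurentSeries Ω) (LaurentSeries Ω)}
    (h : ∀ (F : LaurentSeries Ω) (n : ℤ), (D' F).coeff n = D (F.coeff n)) (m : Fin n → ℤ)
    {β : ℂ} (hβ : D (base (s := s) Ω N m) = algebraMap ℂ Ω β * base (s := s) Ω N m)
    {g : Fin s → ℂ} (hg : ∀ i, D (bb n Ω i) = algebraMap ℂ Ω (g i)) (z : ℂ) :
    D' (Phi Ω N Q κ W V z (fun _ => 1) m) =
      (algebraMap ℂ (LaurentSeries Ω) β +
        ∑ i, single (V i) (algebraMap ℂ Ω (g i * qd Q (κ i) m))) *
        Phi Ω N Q κ W V z (fun _ => 1) m := by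
  have : CharZero Ω := charZ (Ω := Ω)
  have h1 : D (algebraMap ℂ Ω z * base (s := s) Ω N m) =
      algebraMap ℂ Ω β * (algebraMap ℂ Ω z * base (s := s) Ω N m) := by
    rw [D.leibniz, Derivation.map_algebraMap, hβ, smul_zero, add_zero, smul_eq_mul]
    ring
  have h2 : (single (pr m W) (algebraMap ℂ Ω β * (algebraMap ℂ Ω z * base (s := s) Ω N m)) :
      LaurentSeries Ω) = algebraMap ℂ (LaurentSeries Ω) β *
        single (pr m W) (algebraMap ℂ Ω z * base (s := s) Ω N m) := by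
    rw [HahnSeries.algebraMap_apply', PowerSeries.algebraMap_apply, ofPowerSeries_C,
      HahnSeries.C_apply, single_mul_single, zero_add]
  have h3 : D' (ofPowerSeries ℤ Ω (EP Ω Q κ V (fun _ => 1) m)) =
      (∑ i, single (V i) (algebraMap ℂ Ω (g i * qd Q (κ i) m))) *
        ofPowerSeries ℤ Ω (EP Ω Q κ V (fun _ => 1) m) := by
    rw [EP, map_prod, cw_prod h _ (fun i => by have := hV i; omega)]
    congr 1
    refine Finset.sum_congr rfl fun i _ => ?_
    rw [Int.toNat_of_nonneg (hV i).le, D.leibniz, Derivation.map_algebraMap, hg, smul_zero,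
      add_zero, smul_eq_mul, one_mul, ← map_mul, mul_comm]
  rw [Phi, D'.leibniz, cw_single h, h1, h2, h3]
  simp only [smul_eq_mul]
  ring

theorem D_base_x (l : Fin n) (m : Fin n → ℤ) (ρ : ℂ) :
    (∑ i, algebraMap ℂ Ω (ρ * Q l i) • tor Ω (Fin.castAdd s i) : Derivation ℂ Ω Ω)
      (base (s := s) Ω N m) =
      algebraMap ℂ Ω (ρ * qd Q l (N.mulVec m)) * base (s := s) Ω N m := by
  rw [der_sum_apply]
  simp only [base, tor_ym, Fin.append_left]
  rw [qd, Finset.mul_sum, map_sum, Finset.sum_mul]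
  refine Finset.sum_congr rfl fun i _ => ?_
  simp only [map_mul, map_intCast]
  ring

theorem D_base_b (i : Fin s) (m : Fin n → ℤ) :
    pd Ω (Fin.natAdd n i) (base (s := s) Ω N m) =
      algebraMap ℂ Ω 0 * base (s := s) Ω N m := by
  have h1 : tor Ω (Fin.natAdd n i) (base (s := s) Ω N m) = 0 := by
    rw [base, tor_ym, Fin.append_right]
    simp
  rw [tor, Derivation.smul_apply, smul_eq_mul] at h1
  rw [map_zero, zero_mul]
  exact (mul_eq_zero.mp h1).resolve_left (cv_ne _)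

/-- the derivation of the Laurent series which belongs to the row `l` of `Q` -/
theorem exists_E (hd : IsDiag2 r A N D P Q η κ F) (hV : ∀ i, 0 < V i) (l : Fin n) :
    ∃ E : Der (LaurentSeries Ω),
      (∀ z m, E (Phi Ω N Q κ W V z (fun _ => 1) m) =
        algebraMap ℂ (LaurentSeries Ω) (qd Q l m) * Phi Ω N Q κ W V z (fun _ => 1) m) ∧
      ((∀ i, κ i ≠ l) → ∀ F : LaurentSeries Ω, E F ≠ 0 → F.order ≤ (E F).order) ∧
      (∀ i, κ i = l → ∀ F : LaurentSeries Ω, E F ≠ 0 → F.order ≤ (E F).order + V i) := by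
  by_cases hl : ∀ i, κ i ≠ l
  · obtain ⟨E', hE⟩ := exists_cw
      (∑ i, algebraMap ℂ Ω ((D : ℂ)⁻¹ * Q l i) • tor Ω (Fin.castAdd s i) : Derivation ℂ Ω Ω)
    obtain ⟨E, hE'⟩ := std E' 1
    simp only [one_mul] at hE'
    refine ⟨E, fun z m => ?_, fun _ F h0 => ?_, fun i hi => ?_⟩
    · rw [hE', cw_Phi hV hE m (D_base_x l m _) (D_bb_x l _) z]
      congr 1
      have hr : (D : ℂ) ≠ 0 := Int.cast_ne_zero.mpr hd.dne
      rw [(hd.row l hl).2, ← mul_assoc, inv_mul_cancel₀ hr, one_mul]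
      simp
    · rw [hE'] at h0 ⊢
      exact cw_order hE h0
    · exact absurd hi (hl i)
  · push Not at hl
    obtain ⟨i, hi⟩ := hl
    obtain ⟨E', hE⟩ := exists_cw (pd Ω (Fin.natAdd n i) : Derivation ℂ Ω Ω)
    obtain ⟨E, hE'⟩ := std E' (single (-V i) (1 : Ω))
    refine ⟨E, fun z m => ?_, fun h => absurd hi (h i), fun i' hi' F h0 => ?_⟩
    · rw [hE', cw_Phi hV hE m (D_base_b i m) (D_bb_b i) z]
      rw [← mul_assoc]
      congr 1
      rw [map_zero, zero_add, Finset.sum_eq_single i]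
      · rw [if_pos rfl, one_mul, single_mul_single, neg_add_cancel, one_mul,
          HahnSeries.algebraMap_apply', PowerSeries.algebraMap_apply, ofPowerSeries_C,
          HahnSeries.C_apply, hi]
      · intro j _ hj
        rw [if_neg hj.symm, zero_mul, map_zero, map_zero]
      · intro h; exact absurd (Finset.mem_univ i) h
    · have : i' = i := hd.inj (hi'.trans hi.symm)
      subst this
      rw [hE'] at h0 ⊢
      have h1 : E' F ≠ 0 := right_ne_zero_of_mul h0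
      have h2 := cw_order hE h1
      have h3 : (single (-V i') (1 : Ω) * E' F).order = -V i' + (E' F).order := by
        rw [order_mul (left_ne_zero_of_mul h0) h1, order_single one_ne_zero]
      rw [h3]
      omega

/-! ### the rotation, the logarithms -/

theorem base_A (hd : IsDiag2 r A N D P Q η κ F) (m : Fin n → ℤ) :
    base (s := s) Ω N (A.mulVec m) = base (s := s) Ω N m := by
  rw [base, base, N_A hd]

theorem Phi_A (hd : IsDiag2 r A N D P Q η κ F) (hW : Matrix.vecMul W A = W) (z : ℂ)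
    (h : Fin s → ℂ) (m : Fin n → ℤ) : Phi Ω N Q κ W V z h (A.mulVec m) =
      Phi Ω N Q κ W V z (fun i => h i * η (κ i)) m := by
  rw [Phi, Phi, base_A hd, pr_A hW, EP, EP]
  congr 2
  refine Finset.prod_congr rfl fun i _ => ?_
  rw [qd_A hd, mul_assoc (h i)]

theorem Phi_one (h : Fin s → ℂ) {m : Fin n → ℤ} (hm : N.mulVec m = 0) (hW : pr m W = 0) :
    Phi Ω N Q κ W V 1 h m = ofPowerSeries ℤ Ω (EP Ω Q κ V h m) := by
  rw [Phi, base_zero hm, hW, map_one, one_mul, s01, one_mul]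

theorem base_mul (m : Fin n → ℤ) (l : Fin s → ℤ) :
    base (s := s) Ω N m * ∏ i, bb n Ω i ^ l i =
      ym Ω (Fin.append (N.mulVec m) l) := by
  rw [base, ym, ym, Fin.prod_univ_add, Fin.prod_univ_add]
  simp only [Fin.append_left, Fin.append_right, Pi.zero_apply, zpow_zero,
    Finset.prod_const_one, mul_one]
  rfl

variable {K : Type} [Field K] [Algebra ℂ K]
  [Algebra (MvPolynomial (Fin n) ℂ) K] [IsFractionRing (MvPolynomial (Fin n) ℂ) K]
  [IsScalarTower ℂ (MvPolynomial (Fin n) ℂ) K]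

/-- the rotation is the automorphism -/
theorem rot_eq (hd : IsDiag2 r A N D P Q η κ F) (hW : Matrix.vecMul W A = W)
    (hV : ∀ i, 0 < V i) {c : (Fin n → ℤ) → ℂ} {γ : K ≃ₐ[ℂ] K}
    (hγ : ∀ m, γ (ym K m) = algebraMap ℂ K (c m) * ym K (A.mulVec m)) {ζ : ℂ}
    {τ : (Fin n → ℤ) → ℂ} (hτ : ∀ m, c m * τ (A.mulVec m) = τ m * ζ ^ pr m W)
    {Θ : K →ₐ[ℂ] LaurentSeries Ω}
    (hΘ : ∀ m, Θ (ym K m) = Phi Ω N Q κ W V (τ m) (fun _ => 1) m)
    (h2 : ∀ i, ζ ^ V i = η (κ i))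
    {S : LaurentSeries Ω →+* LaurentSeries Ω}
    (hS : ∀ (F : LaurentSeries Ω) (n : ℤ), (S F).coeff n = (algebraMap ℂ Ω ζ) ^ n * F.coeff n)
    (a : K) : S (Θ a) = Θ (γ a) := by
  have h3 : S.comp Θ.toRingHom = Θ.toRingHom.comp ((γ : K ≃ₐ[ℂ] K) : K →+* K) := by
    apply hom_ext (n := n)
    · intro z
      change S (Θ (algebraMap ℂ K z)) = Θ (γ (algebraMap ℂ K z))
      rw [AlgHom.commutes, AlgEquiv.commutes, AlgHom.commutes, ThE.rot_const hS]
    · intro i
      change S (Θ (cv K i)) = Θ (γ (cv K i))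
      rw [cv_eq_ym, hΘ, Phi_rot hV hS, hγ, map_mul, AlgHom.commutes, hΘ, ← Phi_z,
        Phi_A hd hW]
      congr 1
      · rw [hτ, mul_comm]
      · funext i
        rw [h2, mul_one, one_mul]
  exact congrFun (congrArg DFunLike.coe h3) a

theorem lam_sum {q : ℕ} (c : Fin q → ℂ) (g : Fin q → Fin s → ℂ) :
    ∑ m, PowerSeries.C (algebraMap ℂ Ω (c m)) * lam n Ω V (g m) =
      lam n Ω V (fun i => ∑ m, c m * g m i) := by
  simp only [lam, Finset.mul_sum]
  rw [Finset.sum_comm]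
  refine Finset.sum_congr rfl fun i _ => ?_
  rw [map_sum, Finset.sum_mul, map_sum, Finset.sum_mul]
  refine Finset.sum_congr rfl fun m _ => ?_
  simp only [map_mul]
  ring

/-- elements with the leading terms `b_i t ^ (V i)` -/
theorem exists_f (hd : IsDiag2 r A N D P Q η κ F) (hW : Matrix.vecMul W A = W)
    (hFW : ∀ m ∈ F, pr m W = 0) (hV : ∀ i, 0 < V i) {τ : (Fin n → ℤ) → ℂ}
    (hτ0 : ∀ m, τ m ≠ 0) {Θ : K →ₐ[ℂ] LaurentSeries Ω}
    (hΘ : ∀ m, Θ (ym K m) = Phi Ω N Q κ W V (τ m) (fun _ => 1) m) (i : Fin s) :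
    ∃ f : K, Lead (Θ f) (V i) (bb n Ω i) := by
  classical
  obtain ⟨q, e, α, he, hα⟩ := hd.col i
  have heN : ∀ a, N.mulVec (e a) = 0 := by
    intro a
    rcases he a with h | ⟨m, h⟩
    · exact hd.NF _ h
    · rw [h, Matrix.mulVec_sub, N_A hd, sub_self]
  have heW : ∀ a, pr (e a) W = 0 := by
    intro a
    rcases he a with h | ⟨m, h⟩
    · exact hFW _ h
    · rw [h, pr_sub, pr_A hW, sub_self]
  let y : Fin q → K := fun a => algebraMap ℂ K (τ (e a))⁻¹ * ym K (e a)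
  have hy : ∀ a, Θ (y a) = ofPowerSeries ℤ Ω (EP Ω Q κ V (fun _ => 1) (e a)) := by
    intro a
    rw [map_mul, AlgHom.commutes, hΘ, ← Phi_z, inv_mul_cancel₀ (hτ0 _), Phi_one _ (heN a) (heW a)]
  set M := (V i).toNat with hM
  let f : K := ∑ a, algebraMap ℂ K (α a) * lg M (y a)
  let Gs : Fin q → PowerSeries Ω := fun a =>
    ∑ i ∈ Finset.range M, PowerSeries.C ((-1) ^ i / ((i : Ω) + 1)) *
      (EP Ω Q κ V (fun _ => 1) (e a) - 1) ^ (i + 1)
  have hf : Θ f = ofPowerSeries ℤ Ω (∑ a, PowerSeries.C (algebraMap ℂ Ω (α a)) * Gs a) := by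
    rw [map_sum, map_sum]
    refine Finset.sum_congr rfl fun m _ => ?_
    rw [map_mul, AlgHom.commutes, ThE.Th_lg (hy m), map_mul, HahnSeries.algebraMap_apply',
      PowerSeries.algebraMap_apply]
  have hdvd : (PowerSeries.X : PowerSeries Ω) ^ (M + 1) ∣
      (∑ a, PowerSeries.C (algebraMap ℂ Ω (α a)) * Gs a) -
        PowerSeries.C (bb n Ω i) * PowerSeries.X ^ M := by
    have h1 : PowerSeries.C (bb n Ω i) * PowerSeries.X ^ M =
        ∑ a, PowerSeries.C (algebraMap ℂ Ω (α a)) *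
          lam n Ω V (fun i' => 1 * qd Q (κ i') (e a)) := by
      rw [lam_sum, ← ThE.lam_ite]
      congr 1
      funext i'
      simp only [one_mul]
      rw [hα (κ i')]
      by_cases h : i' = i
      · rw [if_pos h, if_pos (by rw [h])]
      · rw [if_neg h, if_neg fun h' => h (hd.inj h')]
    rw [h1, ← Finset.sum_sub_distrib]
    refine Finset.dvd_sum fun m _ => ?_
    rw [← mul_sub]
    exact Dvd.dvd.mul_left (lg_EP hV _ _ M) _
  obtain ⟨R, hR⟩ := hdvd
  refine ⟨f, PowerSeries.C (bb n Ω i) + PowerSeries.X * R, ?_, ?_⟩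
  · rw [map_add, map_mul, PowerSeries.constantCoeff_X, zero_mul, add_zero,
      PowerSeries.constantCoeff_C]
  · rw [hf]
    have h1 : ∑ a, PowerSeries.C (algebraMap ℂ Ω (α a)) * Gs a =
        PowerSeries.X ^ M * (PowerSeries.C (bb n Ω i) + PowerSeries.X * R) := by
      linear_combination hR
    rw [h1, map_mul, ofPowerSeries_X_pow, hM, Int.toNat_of_nonneg (hV i).le]

end

end T2

end Pool.Agent.Helper58K9.LQ
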