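import Mathlib
import Pool.Agent.Helper58K9.LQ.Defs
import Pool.Agent.Helper58K9.QT.Rank

/-!
# [TH2, part B] Ranks
-/

set_option autoImplicit false

namespace Pool.Agent.Helper58K9.LQ

open Pool.Agent.TH165.ACC Pool.Agent.Helper58K9.QT

namespace T2

theorem ker_rank {n s r : ℕ} {A N : Matrix (Fin n) (Fin n) ℤ} {D : ℤ}
    {P Q : Matrix (Fin n) (Fin n) ℂ} {η : Fin n → ℂ} {κ : Fin s → Fin n} {Fs : Set (Fin n → ℤ)}
    (hd : IsDiag2 r A N D P Q η κ Fs) :
    Module.finrank ℤ (LinearMap.ker N.mulVecLin) ≤ s := by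
  classical
  let b := Module.finBasis ℤ (LinearMap.ker N.mulVecLin)
  set t := Module.finrank ℤ (LinearMap.ker N.mulVecLin) with ht
  have hb : LinearIndependent ℤ fun i => ((b i : LinearMap.ker N.mulVecLin) : Fin n → ℤ) :=
    b.linearIndependent.map' (LinearMap.ker N.mulVecLin).subtype (Submodule.ker_subtype _)
  have hb' := linInd_complex hb
  -- the coordinates
  let F : (Fin n → ℂ) →ₗ[ℂ] (Fin s → ℂ) := LinearMap.funLeft ℂ ℂ κ ∘ₗ Q.mulVecLin
  have hF : LinearIndependent ℂ fun i => F (fun j => (((b i : LinearMap.ker N.mulVecLin)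
      : Fin n → ℤ) j : ℂ)) := by
    rw [Fintype.linearIndependent_iff] at hb' ⊢
    intro c hc i
    refine hb' c ?_ i
    set v : Fin n → ℂ := ∑ i, c i • fun j => (((b i : LinearMap.ker N.mulVecLin)
      : Fin n → ℤ) j : ℂ) with hv
    have h1 : F v = 0 := by
      rw [hv, map_sum, ← hc]
      exact Finset.sum_congr rfl fun i _ => map_smul _ _ _
    have h3 : Q.mulVec v = 0 := by
      funext k
      by_cases hk : ∀ i, κ i ≠ k
      · have h4 : ∀ i, Q.mulVec (fun j => (((b i : LinearMap.ker N.mulVecLin)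
            : Fin n → ℤ) j : ℂ)) k = 0 := by
          intro i
          have h5 := (hd.row k hk).2 ((b i : LinearMap.ker N.mulVecLin) : Fin n → ℤ)
          have h6 : N.mulVec ((b i : LinearMap.ker N.mulVecLin) : Fin n → ℤ) = 0 := (b i).2
          have h7 : ThC.qd Q k (0 : Fin n → ℤ) = 0 := by simp [ThC.qd]
          rw [h6, h7] at h5
          exact (mul_eq_zero.1 h5.symm).resolve_left (Int.cast_ne_zero.2 hd.dne)
        rw [hv, Matrix.mulVec_sum, Finset.sum_apply, Pi.zero_apply]
        refine Finset.sum_eq_zero fun i _ => ?_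
        rw [Matrix.mulVec_smul, Pi.smul_apply, h4, smul_zero]
      · push Not at hk
        obtain ⟨i, hi⟩ := hk
        rw [← hi]
        exact congrFun h1 i
    have h4 := congrArg (P.mulVec) h3
    rw [Matrix.mulVec_mulVec, hd.PQ, Matrix.one_mulVec, Matrix.mulVec_zero] at h4
    exact h4
  have := hF.fintype_card_le_finrank
  rwa [Fintype.card_fin, Module.finrank_fin_fun] at this

theorem exists_rank {k s r : ℕ} {A N : Matrix (Fin (k + 1)) (Fin (k + 1)) ℤ} {D : ℤ}
    {P Q : Matrix (Fin (k + 1)) (Fin (k + 1)) ℂ} {η : Fin (k + 1) → ℂ} {κ : Fin s → Fin (k + 1)}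
    {Fs : Set (Fin (k + 1) → ℤ)} (hd : IsDiag2 r A N D P Q η κ Fs) (W : Fin (k + 1) → ℤ)
    (V : Fin s → ℤ) :
    ∃ (μ : Fin k → Fin (k + 1) → ℤ) (l : Fin k → Fin s → ℤ),
      (∀ i, pr (μ i) W + pr (l i) V = 0) ∧
      LinearIndependent ℤ fun i => (Fin.append (N.mulVec (μ i)) (l i) :
        Fin (k + 1 + s) → ℤ) := by
  classical
  let Φ : ((Fin (k + 1) → ℤ) × (Fin s → ℤ)) →ₗ[ℤ] (Fin (k + 1 + s) → ℤ) :=
    { toFun := fun p => Fin.append (N.mulVec p.1) p.2
      map_add' := by
        intro p q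
        funext i
        refine Fin.addCases (fun i => ?_) (fun i => ?_) i
        · simp [Matrix.mulVec_add]
        · simp
      map_smul' := by
        intro c p
        funext i
        refine Fin.addCases (fun i => ?_) (fun i => ?_) i
        · change (Fin.append (N.mulVec (c • p.1)) (c • p.2) : Fin (k + 1 + s) → ℤ) _
            = c * (Fin.append (N.mulVec p.1) p.2 : Fin (k + 1 + s) → ℤ) _
          rw [Fin.append_left, Fin.append_left, Matrix.mulVec_smul, Pi.smul_apply, smul_eq_mul]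
        · simp }
  have hΦ : ∀ p, Φ p = Fin.append (N.mulVec p.1) p.2 := fun p => rfl
  let lam : ((Fin (k + 1) → ℤ) × (Fin s → ℤ)) →ₗ[ℤ] ℤ :=
    { toFun := fun p => pr p.1 W + pr p.2 V
      map_add' := by
        intro p q
        rw [Prod.fst_add, Prod.snd_add, pr_add, pr_add]
        ring
      map_smul' := by
        intro c p
        rw [Prod.smul_fst, Prod.smul_snd, pr_smul, pr_smul, RingHom.id_apply, smul_eq_mul]
        ring }
  have hlam : ∀ p, lam p = pr p.1 W + pr p.2 V := fun p => rfl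
  let U := LinearMap.ker lam
  let Ψ : U →ₗ[ℤ] (Fin (k + 1 + s) → ℤ) := Φ.domRestrict U
  have h1 := rank_nullity lam
  have h2 := rank_nullity Ψ
  have h3 : Module.finrank ℤ (LinearMap.range lam) ≤ 1 := by
    have := Submodule.finrank_le (LinearMap.range lam)
    rwa [Module.finrank_self] at this
  have h4 : Module.finrank ℤ ((Fin (k + 1) → ℤ) × (Fin s → ℤ)) = k + 1 + s := by
    rw [Module.finrank_prod, Module.finrank_fin_fun, Module.finrank_fin_fun]
  have h5 : Module.finrank ℤ (LinearMap.ker Ψ) ≤ s := by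
    refine le_trans ?_ (ker_rank hd)
    have hmem : ∀ z : LinearMap.ker Ψ, ((z : U) : (Fin (k + 1) → ℤ) × (Fin s → ℤ)).1 ∈
        LinearMap.ker N.mulVecLin ∧ ((z : U) : (Fin (k + 1) → ℤ) × (Fin s → ℤ)).2 = 0 := by
      intro z
      have hz : Φ ((z : U) : (Fin (k + 1) → ℤ) × (Fin s → ℤ)) = 0 := z.2
      rw [hΦ] at hz
      constructor
      · rw [LinearMap.mem_ker, Matrix.mulVecLin_apply]
        funext i
        have := congrFun hz (Fin.castAdd s i)
        rwa [Fin.append_left] at this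
      · funext i
        have := congrFun hz (Fin.natAdd (k + 1) i)
        rwa [Fin.append_right] at this
    let G : LinearMap.ker Ψ →ₗ[ℤ] LinearMap.ker N.mulVecLin :=
      LinearMap.codRestrict (LinearMap.ker N.mulVecLin)
        (LinearMap.fst ℤ _ _ ∘ₗ U.subtype ∘ₗ (LinearMap.ker Ψ).subtype) (fun z => (hmem z).1)
    have hG : Function.Injective G := by
      intro z z' hzz
      have h6 := congrArg (fun y : LinearMap.ker N.mulVecLin => (y : Fin (k + 1) → ℤ)) hzz
      apply Subtype.ext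
      apply Subtype.ext
      apply Prod.ext
      · exact h6
      · rw [(hmem z).2, (hmem z').2]
    exact LinearMap.finrank_le_finrank_of_injective hG
  have h6 : k ≤ Module.finrank ℤ (LinearMap.range Ψ) := by
    have : Module.finrank ℤ U = Module.finrank ℤ (LinearMap.ker lam) := rfl
    omega
  let b := Module.finBasis ℤ (LinearMap.range Ψ)
  have hpre : ∀ i : Fin k, ∃ u : U, Ψ u = b (Fin.castLE h6 i) := fun i => (b (Fin.castLE h6 i)).2
  choose u hu using hpre
  refine ⟨fun i => ((u i : U) : (Fin (k + 1) → ℤ) × (Fin s → ℤ)).1,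
    fun i => ((u i : U) : (Fin (k + 1) → ℤ) × (Fin s → ℤ)).2, fun i => ?_, ?_⟩
  · have := (u i).2
    exact this
  · have h7 : (fun i => (Fin.append (N.mulVec
        ((u i : U) : (Fin (k + 1) → ℤ) × (Fin s → ℤ)).1)
        ((u i : U) : (Fin (k + 1) → ℤ) × (Fin s → ℤ)).2 : Fin (k + 1 + s) → ℤ))
        = fun i => ((b (Fin.castLE h6 i) : LinearMap.range Ψ) : Fin (k + 1 + s) → ℤ) := by
      funext i
      rw [← hu i]
      rfl
    rw [h7]
    have h8 : LinearIndependent ℤ fun i => ((b i : LinearMap.range Ψ) : Fin (k + 1 + s) → ℤ) :=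
      b.linearIndependent.map' (LinearMap.range Ψ).subtype (Submodule.ker_subtype _)
    exact h8.comp (Fin.castLE h6) (Fin.castLE_injective h6)

end T2

end Pool.Agent.Helper58K9.LQ
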