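import Mathlib
import Pool.Agent.Helper58K9.LQ.Th2a
import Pool.Agent.Helper58K9.LQ.Th2b
import Pool.Agent.Helper58K9.QT.TorRes

/-!
# [TH2] Valuations adapted to an automorphism of finite order and a closed point
-/

set_option autoImplicit false

namespace Pool.Agent.Helper58K9.LQ

open Pool.Agent.H436R3.Fol Pool.Agent.H436R3.KT Pool.Agent.W497.Mld Pool.Agent.TH165.ACC
  Pool.Agent.Helper58K9.QT MvPolynomial

variable {k s r : ℕ} {K : Type} [Field K] [Algebra ℂ K]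
  [Algebra (MvPolynomial (Fin (k + 1)) ℂ) K] [IsFractionRing (MvPolynomial (Fin (k + 1)) ℂ) K]
  [IsScalarTower ℂ (MvPolynomial (Fin (k + 1)) ℂ) K]

/-- Proof. See `QT.exists_theta`. `Ω = FractionRing (MvPolynomial (Fin (k + 1 + s)) ℂ)`, with
coordinates `x_1, ..., b_1, ...`; `Θ : K → Ω((t))` maps the monomial `x^m` to
`τ m * ym Ω (N m, 0) * t^(W m) * ∏_i EE (V i) (Q_(κ i) m * b_i)`. -/
theorem exists_theta2 {A N : Matrix (Fin (k + 1)) (Fin (k + 1)) ℤ} {D : ℤ}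
    {P Q : Matrix (Fin (k + 1)) (Fin (k + 1)) ℂ} {η : Fin (k + 1) → ℂ} {κ : Fin s → Fin (k + 1)}
    {Fs : Set (Fin (k + 1) → ℤ)}
    (hd : IsDiag2 r A N D P Q η κ Fs) {c : (Fin (k + 1) → ℤ) → ℂ} {γ : K ≃ₐ[ℂ] K}
    (hγ : ∀ m, γ (ym K m) = algebraMap ℂ K (c m) * ym K (A.mulVec m)) {ζ : ℂ}
    (hζ : IsPrimitiveRoot ζ r) {W : Fin (k + 1) → ℤ} (hW : Matrix.vecMul W A = W)
    (hFW : ∀ m ∈ Fs, pr m W = 0) {τ : (Fin (k + 1) → ℤ) → ℂ} (hτ0 : ∀ m, τ m ≠ 0)
    (hτa : ∀ m m', τ (m + m') = τ m * τ m')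
    (hττ : ∀ m, c m * τ (A.mulVec m) = τ m * ζ ^ pr m W)
    {V : Fin s → ℤ} (hV : ∀ i, 0 < V i) (hVη : ∀ i, ζ ^ V i = η (κ i)) :
    ∃ (o : K → ℤ) (f : Fin s → K),
      (∀ a b, a ≠ 0 → b ≠ 0 → o (a * b) = o a + o b) ∧
      (∀ a b, a ≠ 0 → b ≠ 0 → a + b ≠ 0 → min (o a) (o b) ≤ o (a + b)) ∧
      (∀ a : ℂ, a ≠ 0 → o (algebraMap ℂ K a) = 0) ∧
      (∀ m, o (ym K m) = pr m W) ∧
      (∀ i, f i ≠ 0 ∧ o (f i) = V i) ∧
      (∀ a, a ≠ 0 → γ a = a → (r : ℤ) ∣ o a) ∧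
      (∀ l, (∀ i, κ i ≠ l) → ∀ a, a ≠ 0 →
        (∑ m, algebraMap ℂ K (Q l m) • tor K m : Derivation ℂ K K) a ≠ 0 →
        o a ≤ o ((∑ m, algebraMap ℂ K (Q l m) • tor K m : Derivation ℂ K K) a)) ∧
      (∀ i, ∀ a, a ≠ 0 →
        (∑ m, algebraMap ℂ K (Q (κ i) m) • tor K m : Derivation ℂ K K) a ≠ 0 →
        o a ≤ o ((∑ m, algebraMap ℂ K (Q (κ i) m) • tor K m : Derivation ℂ K K) a) + V i) ∧
      (∀ m ∈ Fs, ym K m - algebraMap ℂ K (τ m) = 0 ∨
        0 < o (ym K m - algebraMap ℂ K (τ m))) ∧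
      ∃ y : Fin k → K, ∀ p : MvPolynomial (Fin k) ℂ, p ≠ 0 →
        aeval y p ≠ 0 ∧ o (aeval y p) = 0 := by
  classical
  have hζ0 : ζ ≠ 0 := hζ.ne_zero hd.pos.ne'
  let Ω : Type := FractionRing (MvPolynomial (Fin (k + 1 + s)) ℂ)
  let Φ : (Fin (k + 1) → ℤ) → LaurentSeries Ω := fun m =>
    T2.Phi Ω N Q κ W V (τ m) (fun _ => 1) m
  have hΦ : ∀ m m', Φ (m + m') = Φ m * Φ m' := by
    intro m m'
    change T2.Phi Ω N Q κ W V (τ (m + m')) (fun _ => 1) (m + m') = _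
    rw [hτa]
    exact T2.Phi_add hV _ _ _ _ _
  have hΦ0 : ∀ m, Φ m ≠ 0 := fun m => T2.Phi_ne hV (hτ0 m) _ m
  have hE := fun l => T2.exists_E (Ω := Ω) (W := W) hd hV l
  choose E hE1 hE2 hE3 using hE
  obtain ⟨Θ, hΘ, hΘD⟩ := ThA.exists_Th (K := K) hΦ hΦ0 hd.PQ (E := E) (fun l m => hE1 l _ m)
  have hinj : ∀ a, a ≠ 0 → Θ a ≠ 0 := fun a ha =>
    (map_ne_zero_iff _ Θ.toRingHom.injective).mpr ha
  have hf := fun i => T2.exists_f hd hW hFW hV hτ0 hΘ i
  choose f hf using hf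
  have hbb : ∀ i : Fin s, ThC.bb (k + 1) Ω i ≠ 0 := fun i => cv_ne _
  refine ⟨fun a => (Θ a).order, f, ?_, ?_, ?_, ?_, ?_, ?_, ?_, ?_, ?_, ?_⟩
  · intro a b ha hb
    change (Θ (a * b)).order = (Θ a).order + (Θ b).order
    rw [map_mul, HahnSeries.order_mul (hinj a ha) (hinj b hb)]
  · intro a b ha hb hab
    change min (Θ a).order (Θ b).order ≤ (Θ (a + b)).order
    rw [map_add]
    apply HahnSeries.min_order_le_order_add
    rw [← map_add]
    exact hinj _ hab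
  · intro a ha
    change (Θ (algebraMap ℂ K a)).order = 0
    rw [AlgHom.commutes, HahnSeries.algebraMap_apply', PowerSeries.algebraMap_apply,
      HahnSeries.ofPowerSeries_C, HahnSeries.C_apply, HahnSeries.order_single]
    exact (map_ne_zero _).mpr ha
  · intro m
    change (Θ (ym K m)).order = pr m W
    rw [hΘ]
    exact (T2.Phi_lead hV (τ m) _ m).order (T2.lc_ne (hτ0 m) m)
  · intro i
    refine ⟨?_, (hf i).order (hbb i)⟩
    intro h0
    have := (hf i).ne_zero (hbb i)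
    rw [h0, map_zero] at this
    exact this rfl
  · intro a ha hγa
    change (r : ℤ) ∣ (Θ a).order
    obtain ⟨S, hS⟩ := exists_rot (Ω := Ω) (ζ := algebraMap ℂ Ω ζ) ((map_ne_zero _).mpr hζ0)
    have h2 := T2.rot_eq hd hW hV hγ hττ hΘ hVη hS a
    rw [hγa] at h2
    have h3 : (Θ a).coeff (Θ a).order ≠ 0 := mt HahnSeries.coeff_order_eq_zero.mp (hinj a ha)
    have h4 : (algebraMap ℂ Ω ζ) ^ (Θ a).order * (Θ a).coeff (Θ a).order =
        (Θ a).coeff (Θ a).order := by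
      rw [← hS, h2]
    have h5 : (algebraMap ℂ Ω ζ) ^ (Θ a).order = 1 := by
      apply mul_right_cancel₀ h3
      rw [h4, one_mul]
    rw [← map_zpow₀] at h5
    have h6 : ζ ^ (Θ a).order = 1 := (algebraMap ℂ Ω).injective (by rw [h5, map_one])
    exact (hζ.zpow_eq_one_iff_dvd _).mp h6
  · intro l hl a ha h0
    change (Θ a).order ≤ (Θ _).order
    rw [hΘD]
    apply hE2 l hl
    rw [← hΘD]
    exact hinj _ h0
  · intro i a ha h0
    change (Θ a).order ≤ (Θ _).order + V i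
    rw [hΘD]
    apply hE3 (κ i) i rfl
    rw [← hΘD]
    exact hinj _ h0
  · intro m hm
    by_cases h0 : ym K m - algebraMap ℂ K (τ m) = 0
    · exact Or.inl h0
    right
    change 0 < (Θ (ym K m - algebraMap ℂ K (τ m))).order
    have h1 := T2.Phi_lead (Ω := Ω) (N := N) (Q := Q) (κ := κ) (W := W) hV (τ m)
      (fun _ => 1) m
    rw [T2.base_zero (hd.NF m hm), mul_one, hFW m hm, ← hΘ] at h1
    have h2 : ∀ i ≤ (0 : ℤ), (Θ (ym K m - algebraMap ℂ K (τ m))).coeff i = 0 := by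
      intro i hi
      rw [map_sub, AlgHom.commutes, HahnSeries.algebraMap_apply', PowerSeries.algebraMap_apply,
        HahnSeries.ofPowerSeries_C, HahnSeries.C_apply, HahnSeries.coeff_sub]
      rcases hi.lt_or_eq with h | h
      · rw [h1.coeff_lt h, HahnSeries.coeff_single_of_ne h.ne, sub_zero]
      · rw [h, h1.coeff, HahnSeries.coeff_single_same, sub_self]
    by_contra hc
    push Not at hc
    exact mt HahnSeries.coeff_order_eq_zero.mp (hinj _ h0) (h2 _ hc)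
  · obtain ⟨μ, l, hμ1, hμ2⟩ := T2.exists_rank hd W V
    have hΘf : ∀ i, f i ≠ 0 := by
      intro i h0
      have := (hf i).ne_zero (hbb i)
      rw [h0, map_zero] at this
      exact this rfl
    refine ⟨fun a => ym K (μ a) * ∏ i, f i ^ l a i, fun p hp => ?_⟩
    have hL : ∀ a, ThB.Lead (Θ (ym K (μ a) * ∏ i, f i ^ l a i)) 0
        (algebraMap ℂ Ω (τ (μ a)) *
          ym Ω (Fin.append (N.mulVec (μ a)) (l a))) := by
      intro a
      rw [map_mul, map_prod, hΘ]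
      have h1 := (T2.Phi_lead (Ω := Ω) (N := N) (Q := Q) (κ := κ) (W := W) hV
        (τ (μ a)) (fun _ => 1) (μ a)).mul
        (ThB.Lead.prod Finset.univ (F := fun i => Θ (f i ^ l a i))
          (v := fun i => l a i * V i) (u := fun i => ThC.bb (k + 1) Ω i ^ l a i) (fun i _ => by
            change ThB.Lead (Θ (f i ^ l a i)) _ _
            rw [map_zpow₀]
            exact (hf i).zpow (hbb i) _))
      have h2 : pr (μ a) W + ∑ i, l a i * V i = 0 := hμ1 a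
      rw [h2] at h1
      convert h1 using 1
      rw [mul_assoc, T2.base_mul]
    have hA := ThB.Lead.aeval hL p
    have hne := ym_ind (K := Ω) hμ2 (fun a => hτ0 (μ a)) hp
    have h3 : Θ (aeval (fun a => ym K (μ a) * ∏ i, f i ^ l a i) p) =
        aeval (fun a => Θ (ym K (μ a) * ∏ i, f i ^ l a i)) p := by
      rw [← AlgHom.comp_apply, comp_aeval]
    rw [← h3] at hA
    refine ⟨?_, hA.order hne⟩
    intro h0
    have := hA.ne_zero hne
    rw [h0, map_zero] at this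
    exact this rfl

end Pool.Agent.Helper58K9.LQ
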