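import Mathlib
import Pool.Agent.Helper58K9.LQ.Th2
import Pool.Agent.Helper58K9.QT.Upper
import Pool.Agent.Helper58K9.QT.Lower

/-!
# [UP2] Upper bounds of the minimal log discrepancy at a closed point
-/

set_option autoImplicit false
set_option linter.unusedSectionVars false

namespace Pool.Agent.Helper58K9.LQ

open Pool.Agent.H436R3.Fol Pool.Agent.H436R3.KT Pool.Agent.W497.Mld Pool.Agent.TH165.ACC
  Pool.Agent.Helper58K9.QT MvPolynomial

section main

variable {k s r : ℕ} {L K : Type} [Field L] [Algebra ℂ L] [Field K] [Algebra ℂ K] [Algebra L K]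
  [IsScalarTower ℂ L K] [Algebra (MvPolynomial (Fin (k + 1)) ℂ) K]
  [IsFractionRing (MvPolynomial (Fin (k + 1)) ℂ) K]
  [IsScalarTower ℂ (MvPolynomial (Fin (k + 1)) ℂ) K]

/-- the centre of a valuation which is positive at `y^m - t (y^m)` for all regular monomials -/
theorem center_of {n : ℕ} {K : Type} [Field K] [Algebra ℂ K] [Algebra (MvPolynomial (Fin n) ℂ) K]
    [IsFractionRing (MvPolynomial (Fin n) ℂ) K] [IsScalarTower ℂ (MvPolynomial (Fin n) ℂ) K]
    {g : ToricGerm n K} {t : Pt g.X} {w : DVal K}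
    (h : ∀ m ∈ Cn g.E, ∀ f : g.X.R, (f : K) = ym K m → w.Pos ((f : K) - algebraMap ℂ K (t f)))
    (f : g.X.R) : w.Pos (f : K) ↔ t f = 0 := by
  have key : ∀ x : K, x ∈ Submodule.span ℂ (ym K '' Cn g.E) → ∀ hx : x ∈ g.X.R,
      w.Pos (x - algebraMap ℂ K (t ⟨x, hx⟩)) := by
    intro x hx
    have hmem : ∀ y, y ∈ Submodule.span ℂ (ym K '' Cn g.E) → y ∈ g.X.R := by
      intro y hy
      rw [← g.span_eq] at hy
      exact hy
    induction hx using Submodule.span_induction with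
    | mem x hx =>
      intro hx'
      obtain ⟨m, hm, rfl⟩ := hx
      exact h m hm ⟨_, hx'⟩ rfl
    | zero =>
      intro hx'
      have h0 : (⟨0, hx'⟩ : g.X.R) = 0 := rfl
      rw [h0, map_zero, map_zero, sub_zero]
      exact Or.inl rfl
    | add x y hx hy ihx ihy =>
      intro hxy
      have h1 := w.pos_add (ihx (hmem x hx)) (ihy (hmem y hy))
      have h2 : (⟨x + y, hxy⟩ : g.X.R) = ⟨x, hmem x hx⟩ + ⟨y, hmem y hy⟩ := rfl
      rw [h2, map_add, map_add]
      convert h1 using 1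
      ring
    | smul a x hx ih =>
      intro hax
      have h1 := w.pos_mul_left (w.reg_const a) (ih (hmem x hx))
      have h2 : (⟨a • x, hax⟩ : g.X.R) = a • ⟨x, hmem x hx⟩ := rfl
      rw [h2, map_smul, smul_eq_mul, map_mul, Algebra.smul_def]
      convert h1 using 1
      ring
  have h1 := key f (by rw [← g.span_eq]; exact f.2) f.2
  have h2 : (⟨(f : K), f.2⟩ : g.X.R) = f := rfl
  rw [h2] at h1
  constructor
  · intro h3
    have h4 := w.pos_add h3 (Low.pos_neg h1)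
    have h5 : w.Pos (algebraMap ℂ K (t f)) := by
      convert h4 using 1
      ring
    exact Low.pos_const h5
  · intro h3
    rw [h3, map_zero, sub_zero] at h1
    exact h1

theorem upper2 [FiniteDimensional L K] {X : AffVar L} {B : EffDiv X}
    {g : ToricGerm (k + 1) K} (hq : IsQuot X g.X.R) {P : Pt X} {tp : Pt g.X} (hxt : OverPt P tp)
    (e : LocEq B P) {C : Matrix (Fin (k + 1)) (Fin (k + 1)) K} (hC : C.det ≠ 0)
    (ε : Fin X.d ≃ Fin (k + 1)) (hCT : ∀ (i : Fin X.d) (f : L),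
      algebraMap L K (X.T.D i f) = ∑ j, C (ε i) j * tor K j (algebraMap L K f))
    {b : Fin g.N → ℝ}
    (hlam : ∀ w : DVal K, IsOverGerm tp w → ∀ c : Fin g.N → ℝ, (∀ i, 0 ≤ c i) →
        Coord g.E c (tv w) →
        -(w.ord C.det : ℝ) - ∑ i, e.ρ i * (w.ord (algebraMap L K (e.g i)) : ℝ) =
          ∑ i, c i * (1 - b i))
    {m : ℝ} (hm0 : 0 ≤ m) (hm : ∀ v a, IsOverGerm P v → IsLogDisc e v a → m ≤ a)
    {A N0 : Matrix (Fin (k + 1)) (Fin (k + 1)) ℤ} {D0 : ℤ}
    {PP Q : Matrix (Fin (k + 1)) (Fin (k + 1)) ℂ} {η : Fin (k + 1) → ℂ} {κ : Fin s → Fin (k + 1)}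
    {Fs : Set (Fin (k + 1) → ℤ)} (hd : IsDiag2 r A N0 D0 PP Q η κ Fs)
    (hQP : Q * PP = 1)
    {c : (Fin (k + 1) → ℤ) → ℂ} {γ : K ≃ₐ[ℂ] K}
    (hγL : ∀ f : L, γ (algebraMap L K f) = algebraMap L K f)
    (hγ : ∀ m, γ (ym K m) = algebraMap ℂ K (c m) * ym K (A.mulVec m)) {ζ : ℂ}
    (hζ : IsPrimitiveRoot ζ r) {W : Fin (k + 1) → ℤ} (hW : Matrix.vecMul W A = W)
    (hFW : ∀ m ∈ Cn g.E, pr m W = 0 ↔ m ∈ Fs) (hFC : Fs ⊆ Cn g.E)
    {τ : (Fin (k + 1) → ℤ) → ℂ} (hτ0 : ∀ m, τ m ≠ 0)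
    (hτa : ∀ m m', τ (m + m') = τ m * τ m')
    (hττ : ∀ m, c m * τ (A.mulVec m) = τ m * ζ ^ pr m W)
    (hτt : ∀ m ∈ Fs, ∀ f : g.X.R, (f : K) = ym K m → tp f = τ m)
    (hFt : ∀ m ∈ Cn g.E, m ∉ Fs → ∀ f : g.X.R, (f : K) = ym K m → tp f = 0)
    {V : Fin s → ℤ} (hV : ∀ i, 0 < V i) (hVη : ∀ i, ζ ^ V i = η (κ i))
    {cc : Fin g.N → ℝ} (hcc : ∀ i, 0 ≤ cc i) (hco : Coord g.E cc W) :
    r * m ≤ ∑ i, cc i * (1 - b i) + ∑ i, (V i : ℝ) := by
  classical
  have hr : 0 < r := hd.pos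
  obtain ⟨o, f, ho1, ho2, ho3, ho4, ho5, ho6, ho7, ho8, ho9, y, hy⟩ :=
    exists_theta2 hd hγ hζ hW (fun m hm => (hFW m (hFC hm)).2 hm) hτ0 hτa hττ hV hVη
  -- there is an element of nonzero order
  have hne : ∃ a : K, a ≠ 0 ∧ o a ≠ 0 := by
    by_cases hW0 : W = 0
    · -- then `s > 0`
      have hs : 0 < s := by
        by_contra hs0
        have h1 := T2.ker_rank hd
        have h2 : Module.finrank ℤ (LinearMap.ker N0.mulVecLin) = 0 := by omega
        have h3 : LinearMap.ker N0.mulVecLin = ⊥ := by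
          rwa [Submodule.finrank_eq_zero] at h2
        obtain ⟨q, hqE⟩ := g.pointed
        have hqC : q ∈ Cn g.E := fun i => (hqE i).le
        have h4 : q ∈ LinearMap.ker N0.mulVecLin := by
          rw [LinearMap.mem_ker, Matrix.mulVecLin_apply]
          exact hd.NF q ((hFW q hqC).1 (by rw [hW0]; simp [pr]))
        rw [h3, Submodule.mem_bot] at h4
        have h5 : ∀ i : Fin g.N, False := by
          intro i
          have h6 := hqE i
          rw [h4, pr_zero] at h6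
          exact lt_irrefl _ h6
        have h6 := g.full (Pi.single 0 1) (fun i => (h5 i).elim)
        have h7 := congrFun h6 0
        rw [Pi.single_eq_same] at h7
        exact one_ne_zero h7
      refine ⟨f ⟨0, hs⟩, (ho5 _).1, ?_⟩
      rw [(ho5 _).2]
      exact (hV _).ne'
    · obtain ⟨i0, hi0⟩ : ∃ i, W i ≠ 0 := by
        by_contra h
        push Not at h
        exact hW0 (funext h)
      exact ⟨ym K (Pi.single i0 1 : Fin (k + 1) → ℤ), ym_ne _, by
        rw [ho4, pr_single]; exact hi0⟩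
  -- the valuation `w`
  obtain ⟨w, k', hk', hw⟩ := exists_normalize o ho1 ho2 ho3 hne
  obtain ⟨v, ev, hov⟩ := exists_restrict (L := L) w
  have hk'r : (0 : ℝ) < k' := by exact_mod_cast hk'
  have hev := hov.1
  have hevr : (0 : ℝ) < ev := by exact_mod_cast hev
  have htv : W = k' • (tv w : Fin (k + 1) → ℤ) := by
    funext i
    have h1 := hw (cv K i) (cv_ne i)
    rw [← ym_single, ho4, pr_single] at h1
    rw [h1, ym_single]
    rfl
  have hpos : ∀ a : K, (a = 0 ∨ 0 < o a) → w.Pos a := by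
    intro a ha
    by_cases ha0 : a = 0
    · exact Or.inl ha0
    · right
      have h1 := ha.resolve_left ha0
      rw [hw a ha0] at h1
      exact pos_of_mul_pos_right h1 hk'.le
  -- the inequality `r ≤ k' ev`
  have hrk : (r : ℤ) ≤ k' * ev := by
    obtain ⟨f0, hf0, h1⟩ := v.surj
    have h2 : algebraMap L K f0 ≠ 0 := (map_ne_zero _).2 hf0
    have h3 := ho6 _ h2 (hγL f0)
    rw [hw _ h2, hov.2 _ hf0, h1, mul_one] at h3
    exact Int.le_of_dvd (mul_pos hk' hev) h3
  -- centres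
  have hcw : ∀ f : g.X.R, w.Pos (f : K) ↔ tp f = 0 := by
    refine center_of fun m hm f hf => ?_
    by_cases hmF : m ∈ Fs
    · rw [hτt m hmF f hf, hf]
      exact hpos _ (ho9 m hmF)
    · rw [hFt m hm hmF f hf, map_zero, sub_zero, hf]
      apply hpos
      right
      rw [ho4]
      have h1 : 0 ≤ pr m W := by
        have h2 := coord_pr hco m
        have h3 : (0 : ℝ) ≤ ∑ i, cc i * (pr m (g.E i) : ℝ) :=
          Finset.sum_nonneg fun i _ => mul_nonneg (hcc i) (by exact_mod_cast hm i)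
        rw [← h2] at h3
        exact_mod_cast h3
      exact lt_of_le_of_ne h1 fun h => hmF ((hFW m hm).1 h.symm)
  have hcv : ∀ f : X.R, v.Pos (f : L) ↔ P f = 0 := by
    intro f
    have h1 : algebraMap L K f ∈ g.X.R := (hq.quot _).1 f.2
    rw [← hov.pos_iff, ← hxt f ⟨_, h1⟩ rfl, ← hcw ⟨_, h1⟩]
  -- residues
  have hyw : ResInd w y := by
    intro p hp
    obtain ⟨h1, h2⟩ := hy p hp
    refine ⟨h1, ?_⟩
    rw [hw _ h1] at h2
    exact (mul_eq_zero.1 h2).resolve_left hk'.ne'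
  obtain ⟨y', hy'⟩ := resInd_descend hov hyw
  obtain ⟨t, ht0, ht⟩ := v.surj
  have hKF : FF k K := FF_of_toric
  have hLF : FF k L := FF_descend hKF ⟨X.R, X.fg, X.frac⟩
  have hovP : IsOverGerm P v :=
    ⟨div_of_resInd hLF ht0 (by rw [ht]; norm_num) hy' X.R X.fg
      fun f hf => reg_of_center hcv hf, hcv⟩
  have ht0' : algebraMap L K t ≠ 0 := (map_ne_zero _).2 ht0
  have htw : w.ord (algebraMap L K t) = ev := by rw [hov.2 _ ht0, ht, mul_one]
  have hovg : IsOverGerm tp w :=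
    ⟨div_of_resInd hKF ht0' (by rw [htw]; exact hev) hyw g.X.R g.X.fg
      fun f hf => reg_of_center hcw hf, hcw⟩
  -- the canonical order at `v`
  obtain ⟨hM0, hcan⟩ := canOrd_of_resInd hLF ht0 ht hy' X.T X.top ε
  set M : Matrix (Fin (k + 1)) (Fin (k + 1)) L := Matrix.of fun i j : Fin (k + 1) =>
      X.T.D (ε.symm i) ((Fin.cons t y' : Fin (k + 1) → L) j) with hMd
  have hmv : m ≤ 1 + ((-v.ord M.det : ℤ) : ℝ) - ∑ i, e.ρ i * (v.ord (e.g i) : ℝ) :=
    hm v _ hovP ⟨_, hcan, rfl⟩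
  -- the logarithmic family
  let N : Matrix (Fin (k + 1)) (Fin (k + 1)) K :=
    Matrix.diagonal (famF κ f) * Q.map (algebraMap ℂ K)
  have hf0 : ∀ i, f i ≠ 0 := fun i => (ho5 i).1
  have hQdet : Q.det ≠ 0 := by
    have h1 := congrArg Matrix.det hQP
    rw [Matrix.det_mul, Matrix.det_one] at h1
    exact left_ne_zero_of_mul_eq_one h1
  have hNdet : N.det = (∏ l, famF κ f l) * algebraMap ℂ K Q.det := by
    change (Matrix.diagonal (famF κ f) * Q.map (algebraMap ℂ K)).det = _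
    rw [Matrix.det_mul, Matrix.det_diagonal]
    congr 1
    exact (RingHom.map_det (algebraMap ℂ K) Q).symm
  have hF0 : (∏ l, famF κ f l) ≠ 0 := Finset.prod_ne_zero_iff.2 fun l _ => famF_ne hf0 l
  have hQ0 : algebraMap ℂ K Q.det ≠ 0 := (map_ne_zero _).2 hQdet
  have hN0 : N.det ≠ 0 := by rw [hNdet]; exact mul_ne_zero hF0 hQ0
  have hNord : w.ord N.det = ∑ i, w.ord (f i) := by
    rw [hNdet, w.map_mul _ _ hF0 hQ0, w.const _ hQdet, add_zero, famF_ord hd.inj hf0]
  have hNrow : ∀ l, (∑ j, N l j • tor K j : Derivation ℂ K K) =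
      famF κ f l • (∑ j, algebraMap ℂ K (Q l j) • tor K j : Derivation ℂ K K) := by
    intro l
    rw [Finset.smul_sum]
    refine Finset.sum_congr rfl fun j _ => ?_
    change (Matrix.diagonal (famF κ f) * Q.map (algebraMap ℂ K)) l j • _ = _
    rw [Matrix.diagonal_mul, smul_smul]
    rfl
  have hNlog : ∀ l, LogAt w (∑ j, N l j • tor K j) := by
    intro l a ha
    rw [hNrow, Derivation.smul_apply, smul_eq_mul]
    by_cases hz : (∑ j, algebraMap ℂ K (Q l j) • tor K j : Derivation ℂ K K) a = 0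
    · rw [hz, mul_zero, zero_div]
      exact w.reg_zero
    right
    rw [w.ord_div (mul_ne_zero (famF_ne hf0 l) hz) ha, w.map_mul _ _ (famF_ne hf0 l) hz]
    by_cases hl : ∃ i, κ i = l
    · obtain ⟨i, rfl⟩ := hl
      have h1 := ho8 i a ha hz
      rw [famF_spec hd.inj]
      have h2 := (ho5 i).2
      rw [hw _ (hf0 i)] at h2
      rw [hw _ ha, hw _ hz, ← h2] at h1
      by_contra h3
      push Not at h3
      nlinarith
    · rw [famF_not f hl, w.ord_one]
      have hl' : ∀ i, κ i ≠ l := fun i hi => hl ⟨i, hi⟩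
      have h1 := ho7 l hl' a ha hz
      rw [hw _ ha, hw _ hz] at h1
      have h2 := le_of_mul_le_mul_left h1 hk'
      omega
  -- the determinants
  set U : Matrix (Fin (k + 1)) (Fin (k + 1)) K := Matrix.of fun i j : Fin (k + 1) =>
      tor K i ((Fin.cons (algebraMap L K t) fun i => algebraMap L K (y' i) :
        Fin (k + 1) → K) j) with hUd
  have hMU : algebraMap L K M.det = C.det * U.det := map_det_eq hCT t y'
  have hU0 : U.det ≠ 0 := by
    intro h0
    rw [h0, mul_zero] at hMU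
    exact (map_ne_zero _).2 hM0 hMU
  have hlog := log_det (w := w) (fun i => tor K i) hN0 hNlog (t := algebraMap L K t)
    (y := fun i => algebraMap L K (y' i)) ht0' (by
      intro i
      have h1 := resInd_map hov hy' (MvPolynomial.X i) (X_ne_zero i)
      rw [aeval_X] at h1
      exact h1) hU0
  have hdet : ev * v.ord M.det = w.ord C.det + w.ord U.det := by
    rw [← hov.2 _ hM0, hMU, w.map_mul _ _ hC hU0]
  have hlog' : ev ≤ w.ord N.det + w.ord U.det := by
    rw [htw] at hlog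
    exact hlog
  -- the sum of the `V`
  have hsum : (∑ i, (V i : ℝ)) = k' * (w.ord N.det : ℝ) := by
    rw [hNord]
    push_cast
    rw [Finset.mul_sum]
    refine Finset.sum_congr rfl fun i _ => ?_
    have h2 := (ho5 i).2
    rw [hw _ (hf0 i)] at h2
    have h3 : ((V i : ℤ) : ℝ) = ((k' * w.ord (f i) : ℤ) : ℝ) := by rw [h2]
    push_cast at h3
    linarith
  -- the linear function
  have hlin := hlam w hovg (fun i => (k' : ℝ)⁻¹ * cc i)
    (fun i => mul_nonneg (inv_nonneg.2 hk'r.le) (hcc i)) (by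
      intro l
      have h1 := hco l
      rw [htv] at h1
      simp only [Pi.smul_apply, smul_eq_mul, Int.cast_mul] at h1
      simp only [mul_assoc]
      rw [← Finset.mul_sum, h1, ← mul_assoc, inv_mul_cancel₀ hk'r.ne', one_mul])
  have hlin' : k' * (-(w.ord C.det : ℝ) -
      ∑ i, e.ρ i * (w.ord (algebraMap L K (e.g i)) : ℝ)) = ∑ i, cc i * (1 - b i) := by
    rw [hlin, Finset.mul_sum]
    refine Finset.sum_congr rfl fun i _ => ?_
    field_simp
  have hg : ∑ i, e.ρ i * (w.ord (algebraMap L K (e.g i)) : ℝ) =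
      ev * ∑ i, e.ρ i * (v.ord (e.g i) : ℝ) := by
    rw [Finset.mul_sum]
    refine Finset.sum_congr rfl fun i _ => ?_
    rw [hov.2 _ (e.ne i)]
    push_cast
    ring
  rw [← hlin', hsum]
  have h1 : (r : ℝ) * m ≤ (k' * ev : ℝ) * m := by
    apply mul_le_mul_of_nonneg_right _ hm0
    exact_mod_cast hrk
  have h2 : (k' * ev : ℝ) * m ≤
      (k' * ev : ℝ) * (1 + ((-v.ord M.det : ℤ) : ℝ) - ∑ i, e.ρ i * (v.ord (e.g i) : ℝ)) :=
    mul_le_mul_of_nonneg_left hmv (mul_pos hk'r hevr).le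
  have h3 : (ev : ℝ) * (v.ord M.det : ℝ) = w.ord C.det + w.ord U.det := by exact_mod_cast hdet
  have h4 : (ev : ℝ) ≤ w.ord N.det + w.ord U.det := by exact_mod_cast hlog'
  have h5 : (k' : ℝ) * ev ≤ k' * (w.ord N.det + w.ord U.det) :=
    mul_le_mul_of_nonneg_left h4 hk'r.le
  have h6 : (k' * ev : ℝ) * (1 + ((-v.ord M.det : ℤ) : ℝ) - ∑ i, e.ρ i * (v.ord (e.g i) : ℝ)) =
      k' * ev - k' * (ev * v.ord M.det) - k' * (ev * ∑ i, e.ρ i * (v.ord (e.g i) : ℝ)) := by
    push_cast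
    ring
  rw [h3, ← hg] at h6
  rw [h6] at h2
  nlinarith

end main

end Pool.Agent.Helper58K9.LQ
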