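import Pool.Agent.Helper58K9.LQ.Stm

/-!
# [FACE] Faces of polyhedral monoids
-/

set_option autoImplicit false

namespace Pool.Agent.Helper58K9.LQ

open Pool.Agent.TH165.ACC

namespace FaceL

theorem sum_mem {n N : ℕ} {F : Set (Fin n → ℤ)} (h0 : (0 : Fin n → ℤ) ∈ F)
    (hadd : ∀ m ∈ F, ∀ m' ∈ F, m + m' ∈ F) (a : Fin N → Fin n → ℤ) (ha : ∀ i, a i ∈ F)
    (S : Finset (Fin N)) : ∑ i ∈ S, a i ∈ F := by
  classical
  induction S using Finset.induction_on with
  | empty => simpa using h0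
  | insert i S hi ih => rw [Finset.sum_insert hi]; exact hadd _ (ha i) _ ih

theorem nsmul_mem {n : ℕ} {F : Set (Fin n → ℤ)} (h0 : (0 : Fin n → ℤ) ∈ F)
    (hadd : ∀ m ∈ F, ∀ m' ∈ F, m + m' ∈ F) {a : Fin n → ℤ} (ha : a ∈ F) (k : ℕ) :
    (k : ℤ) • a ∈ F := by
  induction k with
  | zero => simpa using h0
  | succ k ih =>
    have : ((k + 1 : ℕ) : ℤ) • a = (k : ℤ) • a + a := by
      push_cast
      rw [add_smul, one_smul]
    rw [this]
    exact hadd _ ih _ ha

theorem pr_sum {n N : ℕ} (a : Fin N → Fin n → ℤ) (u : Fin n → ℤ) (S : Finset (Fin N)) :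
    pr (∑ i ∈ S, a i) u = ∑ i ∈ S, pr (a i) u := by
  classical
  induction S using Finset.induction_on with
  | empty => simp [pr]
  | insert i S hi ih => rw [Finset.sum_insert hi, Finset.sum_insert hi, pr_add, ih]

end FaceL

open FaceL in
/-- [FACE] -/
theorem face : S_FACE := by
  classical
  intro n N E F hFE h0 hadd hface m hm hI
  have hch : ∀ i, ∃ a ∈ F, (¬ ∀ b ∈ F, pr b (E i) = 0) → 0 < pr a (E i) := by
    intro i
    by_cases h : ∀ b ∈ F, pr b (E i) = 0
    · exact ⟨0, h0, fun h' => absurd h h'⟩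
    · obtain ⟨b, hb, hb'⟩ : ∃ b ∈ F, pr b (E i) ≠ 0 := by
        by_contra hc
        push Not at hc
        exact h hc
      exact ⟨b, hb, fun _ => lt_of_le_of_ne (hFE hb i) (Ne.symm hb')⟩
  choose a haF hapos using hch
  set s : Fin n → ℤ := ∑ i, a i with hs
  have hsF : s ∈ F := sum_mem h0 hadd a haF _
  have hspos : ∀ i, (¬ ∀ b ∈ F, pr b (E i) = 0) → 0 < pr s (E i) := by
    intro i hi
    rw [hs, pr_sum]
    refine Finset.sum_pos' (fun j _ => hFE (haF j) i) ⟨i, Finset.mem_univ i, hapos i hi⟩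
  set k : ℕ := ∑ i, (pr m (E i)).toNat with hk
  have hkF : (k : ℤ) • s ∈ F := nsmul_mem h0 hadd hsF k
  have hdiff : (k : ℤ) • s - m ∈ Cn E := by
    intro i
    rw [pr_sub, pr_smul]
    by_cases h : ∀ b ∈ F, pr b (E i) = 0
    · rw [hI i h, h s hsF]; simp
    · have h1 := hspos i h
      have h2 : pr m (E i) ≤ k := by
        have h3 : (pr m (E i)).toNat ≤ k :=
          Finset.single_le_sum (f := fun i => (pr m (E i)).toNat) (fun _ _ => Nat.zero_le _)
            (Finset.mem_univ i)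
        have h4 : pr m (E i) ≤ ((pr m (E i)).toNat : ℤ) := Int.self_le_toNat _
        exact h4.trans (by exact_mod_cast h3)
      have h3 : (0 : ℤ) ≤ k := Int.natCast_nonneg k
      nlinarith
  refine hface m hm _ hdiff ?_
  rw [add_sub_cancel]
  exact hkF

end Pool.Agent.Helper58K9.LQ
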