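import Mathlib
import Pool.Agent.Helper58K9.LQ.Defs
import Pool.Agent.Helper58K9.QT.Diag

/-!
# Lower semicontinuity of minimal log discrepancies of toric quotient pairs: statements

In a file `Pool/Agent/Helper58K9/LQ/<Name>.lean` (`import ...LQ.Stm` and what you need of
`Pool.Agent.Helper58K9.QT.*`) prove `theorem <name> : S_<NAME>`.
-/

set_option autoImplicit false

namespace Pool.Agent.Helper58K9.LQ

open Pool.Agent.H436R3.Fol Pool.Agent.H436R3.KT Pool.Agent.W497.Mld Pool.Agent.TH165.ACC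
  Pool.Agent.Helper58K9.QT MvPolynomial

/-- Proof. Let `m ∈ Cn E` with `pr m (E i) = 0` for all `i ∈ I := {i | ∀ a ∈ F, pr a (E i) = 0}`. For
`i ∉ I` choose `a_i ∈ F` with `pr a_i (E i) > 0` and let `a` be the sum of the `a_i`. For a large `k`
the vector `k a - m` is in `Cn E`, so `m + (k a - m) = k a ∈ F` gives `m ∈ F`. -/
def S_FACE : Prop := ∀ (n N : ℕ) (E : Fin N → Fin n → ℤ) (F : Set (Fin n → ℤ)), F ⊆ Cn E →
  (0 : Fin n → ℤ) ∈ F → (∀ m ∈ F, ∀ m' ∈ F, m + m' ∈ F) →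
  (∀ m ∈ Cn E, ∀ m' ∈ Cn E, m + m' ∈ F → m ∈ F) →
  ∀ m ∈ Cn E, (∀ i, (∀ a ∈ F, pr a (E i) = 0) → pr m (E i) = 0) → m ∈ F

/-- Proof. Induction on `rk r A {m ∈ Cn E | pr m W = 0}`. If there is an `m ∈ Cn E` with `pr m W = 0`
and `m ∉ F`, then by `S_FACE` there is an `i` with `pr a (E i) = 0` for all `a ∈ F` and
`pr m (E i) > 0`. Replace `W` by `W + ∑_(j < r) E (σ^j i)`, and `cc` by `cc` plus the number of
`j < r` with `σ^j i = ·` (this adds at most `r` to `∑ cc (1 - b)`, since `b ≥ 0`). For `a ∈ F`,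
`pr a (E (σ^j i)) = pr (A^j a) (E i) = 0`. The orbit sum `NA r A m` is in the old space, but not in the
new one (the linear function `pr · (E i)` vanishes on the new one: all `m'` with
`pr m' (new W) = 0` satisfy `pr m' (E (σ^j i)) = 0` for all `j`, so `pr (NA r A m') (E i) = 0`; and
`pr (NA r A m) (E i) ≥ pr m (E i) > 0`), so the rank drops. If `A m - m = a - a'` with `a, a' ∈ F` then
`pr (A^j m - m) (E i) = 0` for all `j`, so `pr m` of the sum is `r * pr m (E i)`. -/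
def S_COMB2 : Prop := ∀ (n N r : ℕ) (E : Fin N → Fin n → ℤ) (A : Matrix (Fin n) (Fin n) ℤ),
  0 < r → A ^ r = 1 → ∀ σ : Fin N → Fin N, (∀ i, E (σ i) = Matrix.vecMul (E i) A) →
  ∀ b : Fin N → ℝ, (∀ i, 0 ≤ b i) → ∀ F : Set (Fin n → ℤ), F ⊆ Cn E → (0 : Fin n → ℤ) ∈ F →
  (∀ m ∈ F, ∀ m' ∈ F, m + m' ∈ F) → (∀ m ∈ Cn E, ∀ m' ∈ Cn E, m + m' ∈ F → m ∈ F) →
  (∀ m ∈ F, A.mulVec m ∈ F) → ∀ W : Fin n → ℤ, Matrix.vecMul W A = W → (∀ m ∈ F, pr m W = 0) →
  ∀ cc : Fin N → ℝ, (∀ i, 0 ≤ cc i) → Coord E cc W →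
  ∃ (W' : Fin n → ℤ) (cc' : Fin N → ℝ), Matrix.vecMul W' A = W' ∧ (∀ i, 0 ≤ cc' i) ∧
    Coord E cc' W' ∧ (∀ m ∈ Cn E, pr m W' = 0 ↔ m ∈ F) ∧
    (∀ m, ∀ a ∈ F, ∀ a' ∈ F, A.mulVec m - m = a - a' → ∃ z : ℤ, pr m W' = pr m W + r * z) ∧
    ∑ i, cc' i * (1 - b i) + r * rk r A F ≤
      ∑ i, cc i * (1 - b i) + r * rk r A {m | m ∈ Cn E ∧ pr m W = 0}

/-- Proof. See `QT.exists_tau`: `τ ((A m - m) + a - a') = ζ ^ pr m W * (c m)⁻¹ * χ a / χ a'` is a well
defined character of the subgroup of these vectors, and `ℂˣ` is divisible. -/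
def S_TAU2 : Prop := ∀ (n : ℕ) (A : Matrix (Fin n) (Fin n) ℤ) (c : (Fin n → ℤ) → ℂ),
  (∀ m, c m ≠ 0) → (∀ m m', c (m + m') = c m * c m') → ∀ ζ : ℂ, ζ ≠ 0 → ∀ W : Fin n → ℤ,
  ∀ F : Set (Fin n → ℤ), (0 : Fin n → ℤ) ∈ F → (∀ m ∈ F, ∀ m' ∈ F, m + m' ∈ F) →
  ∀ χ : (Fin n → ℤ) → ℂ, (∀ m ∈ F, χ m ≠ 0) →
  (∀ m ∈ F, ∀ m' ∈ F, χ (m + m') = χ m * χ m') →
  (∀ m, ∀ a ∈ F, ∀ a' ∈ F, A.mulVec m - m = a - a' → χ a * c m = ζ ^ pr m W * χ a') →
  ∃ τ : (Fin n → ℤ) → ℂ, (∀ m, τ m ≠ 0) ∧ (∀ m m', τ (m + m') = τ m * τ m') ∧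
    (∀ m, c m * τ (A.mulVec m) = τ m * ζ ^ pr m W) ∧ ∀ m ∈ F, τ m = χ m

/-- Proof. Take `P`, `Q`, `η`, `κ` from `QT.exists_diag`. Choose `m_l ∈ F` such that the vectors
`NA r A (m_l)` are a basis of the space in the definition of `rk`; they are also independent over `ℂ`
and are right eigenvectors of `A` with the eigenvalue `1`. Exchange them against columns of `P` with
`η = 1` (Steinitz): after a change of the columns with `η = 1` they are the columns `κ' l`. A row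
`Q_k` with `η k = 1` and `k ∉ range κ'` vanishes on `F` (`Q_k m = r⁻¹ Q_k (NA r A m)`) and on the
vectors `A m - m`. Let `U ⊆ ℚ^n` be the span of these vectors; a projection of `ℚ^n` with kernel `U`,
multiplied by a common denominator `D`, is `N`; so `N v - D v ∈ U`. For `col`: for `κ' l` use the
vectors `A^j m_l ∈ F`, and for `κ i` (with `η ≠ 1`) the vectors `A e_j - e_j` with the coefficients
`P j (κ i) / (η (κ i) - 1)`, see `ThE.coef_eq`. -/
def S_DIAG2 : Prop := ∀ (n r : ℕ), 0 < r → ∀ (A : Matrix (Fin n) (Fin n) ℤ), A ^ r = 1 →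
  ∀ F : Set (Fin n → ℤ), (∀ m ∈ F, A.mulVec m ∈ F) →
  ∃ (P Q : Matrix (Fin n) (Fin n) ℂ) (η : Fin n → ℂ) (s : ℕ) (κ : Fin s → Fin n)
    (κ' : Fin (rk r A F) → Fin n) (N : Matrix (Fin n) (Fin n) ℤ) (D : ℤ),
    IsDiag r A P Q η κ ∧ (∀ l, η (κ' l) = 1) ∧ IsDiag2 r A N D P Q η (Fin.append κ κ') F

/-- Proof. As in `QT.lower`, with the additional functions `F_l = y^(M l) / a l - 1`, which are
nonzero (their logarithmic derivatives `tor_j (F_l)` are congruent to `M l j`), positive at `w` and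
`γ`-invariant (`c (M l) = 1`: the vector `M l` satisfies `A (M l) = M l`, see the second claim of
`QT.lower`, and `pr (M l) (tv w) = 0`, since `y^(M l)` has order `0`), so that `r ∣ w.ord (F_l)` by the
hypothesis on `w`. The columns `P (κ i)` and `M l` are independent (different eigenvalues);
complete them to an invertible constant matrix and compute `N * Ξ` as in `QT.lower`. -/
def S_LOW2 : Prop := ∀ (n s r : ℕ) (K : Type) [Field K] [Algebra ℂ K]
  [Algebra (MvPolynomial (Fin n) ℂ) K] [IsFractionRing (MvPolynomial (Fin n) ℂ) K]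
  [IsScalarTower ℂ (MvPolynomial (Fin n) ℂ) K]
  (A : Matrix (Fin n) (Fin n) ℤ) (P Q : Matrix (Fin n) (Fin n) ℂ) (η : Fin n → ℂ)
  (κ : Fin s → Fin n), IsDiag r A P Q η κ → ∀ c : (Fin n → ℤ) → ℂ, (∀ m, c m ≠ 0) →
  (∀ m m', c (m + m') = c m * c m') → ∀ γ : K ≃ₐ[ℂ] K, γ ^ r = 1 →
  (∀ m, γ (ym K m) = algebraMap ℂ K (c m) * ym K (A.mulVec m)) → ∀ ζ : ℂ, IsPrimitiveRoot ζ r →
  ∀ w : DVal K, (∀ f : K, f ≠ 0 → w.Pos (γ f / f - algebraMap ℂ K (ζ ^ w.ord f))) →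
  ∀ (q : ℕ) (M : Fin q → Fin n → ℤ), LinearIndependent ℚ (fun l => castQ (M l)) →
  (∀ l, A.mulVec (M l) = M l) → ∀ a : Fin q → ℂ, (∀ l, a l ≠ 0) →
  (∀ l, w.Pos (ym K (M l) - algebraMap ℂ K (a l))) →
  ∃ V0 : Fin s → ℤ, (∀ i, 0 < V0 i) ∧ (∀ i, ζ ^ V0 i = η (κ i)) ∧
    ∀ N : Matrix (Fin n) (Fin n) K, N.det ≠ 0 → (∀ i, LogAt w (∑ j, N i j • tor K j)) →
      ∑ i, V0 i + r * q ≤ w.ord N.det

/-- Proof. As `QT.exists_lam` (see `QT.lam_prime`, `TH165.ACC.fact`), with another argument for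
the primes which do not pass through the point. Write the left hand side as
`Λ w = ∑_(p ∈ F) c_p w (p)`. By `lam_prime` (for `t` and `x` in place of `g.P` and `P`) `c_p = 0` if
`valP p` is a prime divisor of `T` through `t` (that is, all its coordinates `tv` are zero, and its
positive elements of `g.X.R` vanish at `t`). Let `p` be another prime which is not a multiple of a
coordinate. There is an `f ∈ g.X.R` with `t f ≠ 0` and `valP p` positive at `f`;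
`f * y^M = p * q` with a polynomial `q`. For a polynomial `h` and a weight `u` let `mn h u` be the
least `pr s u`, `s ∈ h.support`. With `u = tv w` and `vE_i` the monomial valuation of the edge `E i`:
`0 = w f = w p + w q - pr M u ≥ mn p u + mn q u - pr M u ≥
∑ c_i (mn p E_i + mn q E_i - pr M E_i) = ∑ c_i vE_i (f) ≥ 0`. So `w p = ∑ c_i vE_i (p)` for all
`p` with `c_p ≠ 0`, and `Λ w = ∑ c_i Λ (vE_i)`. If `c_i > 0` then the centre of `vE_i` contains `t`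
(`vE_i f > 0` implies `w f > 0` for `f ∈ g.X.R`), so that `Λ (vE_i) = 1 - b_i` with
`b_i = 1 - r_i (1 - B.mult v_i)` by `lam_prime`, `can_mon`. -/
def S_LAM2 : Prop := ∀ (k : ℕ) (L K : Type) [Field L] [Algebra ℂ L] [Field K] [Algebra ℂ K]
  [Algebra L K] [IsScalarTower ℂ L K] [Algebra (MvPolynomial (Fin (k + 1)) ℂ) K]
  [IsFractionRing (MvPolynomial (Fin (k + 1)) ℂ) K]
  [IsScalarTower ℂ (MvPolynomial (Fin (k + 1)) ℂ) K] [FiniteDimensional L K]
  (X : AffVar L) (B : EffDiv X) (g : ToricGerm (k + 1) K),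
  (∀ f ∈ X.R, algebraMap L K f ∈ g.X.R) →
  (∀ w : DVal K, IsLocalRing' g.X.R w → ∃ (v : DVal L) (r : ℤ), IsLocalRing' X.R v ∧ Over w v r) →
  (∀ (w : DVal K) (v : DVal L) (r : ℤ), IsLocalRing' g.X.R w → Over w v r →
    1 - r * (1 - B.mult v) = 0 ∨ (IsMonomial (k + 1) w ∧ 0 ≤ 1 - r * (1 - B.mult v))) →
  ∀ C : Matrix (Fin (k + 1)) (Fin (k + 1)) K, C.det ≠ 0 → ∀ ε : Fin X.d ≃ Fin (k + 1),
  (∀ (i : Fin X.d) (f : L),
    algebraMap L K (X.T.D i f) = ∑ j, C (ε i) j * tor K j (algebraMap L K f)) →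
  ∃ b : Fin g.N → ℝ, (∀ i, 0 ≤ b i) ∧
    ∀ (x : Pt X) (t : Pt g.X), OverPt x t → ∀ (e : LocEq B x) (w : DVal K), IsOverGerm t w →
      ∀ c : Fin g.N → ℝ, (∀ i, 0 ≤ c i) → Coord g.E c (tv w) →
      -(w.ord C.det : ℝ) - ∑ i, e.ρ i * (w.ord (algebraMap L K (e.g i)) : ℝ) =
        ∑ i, c i * (1 - b i)

/-- Proof. See `QT.center_up`, `QT.div_of_over`. The elements of `Y.R` are integral over `X.R` (the
polynomial `∏_γ (T - γ f)`), so they are regular at `w`; the prime ideal of the elements of `Y.R` which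
are positive at `w` lies over the maximal ideal of `x`, so it is maximal, and it is the kernel of a
homomorphism to `ℂ`, as `Y.R` is finitely generated (or integral over `X.R`). -/
def S_CENT2 : Prop := ∀ (L K : Type) [Field L] [Algebra ℂ L] [Field K] [Algebra ℂ K]
  [Algebra L K] [IsScalarTower ℂ L K] (X : AffVar L) (Y : AffVar K), IsQuot X Y.R →
  ∀ (x : Pt X) (v : DVal L) (w : DVal K) (e : ℤ), Over w v e → IsOverGerm x v →
  ∃ t : Pt Y, OverPt x t ∧ IsOverGerm t w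

/-- Proof. Let `I` be the ideal of `Y.R` of the functions which vanish on `S`, and `J` its contraction
to `X.R`. If `J` is not contained in the maximal ideal of `x₀` then we have the first alternative.
Otherwise, as `Y.R` is integral over `X.R`, there is a maximal ideal of `Y.R` which contains `I` and
lies over the one of `x₀` (lying over for `Y.R / I ⊇ X.R / J`), and this is the kernel of `t₀`. -/
def S_LIFT : Prop := ∀ (L K : Type) [Field L] [Algebra ℂ L] [Field K] [Algebra ℂ K]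
  [Algebra L K] [IsScalarTower ℂ L K] (X : AffVar L) (Y : AffVar K), IsQuot X Y.R →
  ∀ (x₀ : Pt X) (S : Set (Pt Y)),
  (∃ f : X.R, x₀ f ≠ 0 ∧ ∀ t ∈ S, ∀ x : Pt X, OverPt x t → x f = 0) ∨
  ∃ t₀ : Pt Y, OverPt x₀ t₀ ∧ ∀ f : Y.R, (∀ t ∈ S, t f = 0) → t₀ f = 0

end Pool.Agent.Helper58K9.LQ
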