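import Mathlib
import Pool.Agent.Helper58K9.LQ.Stm
import Pool.Agent.Helper58K9.QT.Lower
import Pool.Agent.Helper58K9.QT.TorAct

/-!
# Closed points of affine toric varieties and valuations centred at them
-/

set_option autoImplicit false
set_option linter.unusedSectionVars false

namespace Pool.Agent.Helper58K9.LQ

open Pool.Agent.H436R3.Fol Pool.Agent.H436R3.KT Pool.Agent.W497.Mld Pool.Agent.TH165.ACC
  Pool.Agent.Helper58K9.QT MvPolynomial

variable {n : ℕ} {K : Type} [Field K] [Algebra ℂ K]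
  [Algebra (MvPolynomial (Fin n) ℂ) K] [IsFractionRing (MvPolynomial (Fin n) ℂ) K]
  [IsScalarTower ℂ (MvPolynomial (Fin n) ℂ) K] {g : ToricGerm n K} {t : Pt g.X} {w : DVal K}

theorem ym_mem {m : Fin n → ℤ} (hm : m ∈ Cn g.E) : ym K m ∈ g.X.R := by
  rw [g.hR]
  exact ym_mem_LA hm

open Classical in
/-- the value of the monomial at the point -/
noncomputable def chi (t : Pt g.X) (m : Fin n → ℤ) : ℂ :=
  if h : ym K m ∈ g.X.R then t ⟨ym K m, h⟩ else 0

theorem chi_eq {m : Fin n → ℤ} (f : g.X.R) (hf : (f : K) = ym K m) : t f = chi t m := by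
  have h : ym K m ∈ g.X.R := hf ▸ f.2
  rw [chi, dif_pos h]
  congr 1
  exact Subtype.ext hf

theorem chi_zero : chi t 0 = 1 := by
  have h := chi_eq (t := t) (m := 0) 1 (by rw [ym_zero]; rfl)
  rw [← h, map_one]

theorem chi_add {m m' : Fin n → ℤ} (hm : m ∈ Cn g.E) (hm' : m' ∈ Cn g.E) :
    chi t (m + m') = chi t m * chi t m' := by
  have h := chi_eq (t := t) (m := m + m') (⟨_, ym_mem hm⟩ * ⟨_, ym_mem hm'⟩ : g.X.R)
    (by rw [ym_add]; rfl)
  rw [← h, map_mul, chi_eq (m := m) _ rfl, chi_eq (m := m') _ rfl]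

theorem pos_sub_pt (h : IsOverGerm t w) (f : g.X.R) :
    w.Pos ((f : K) - algebraMap ℂ K (t f)) := by
  have h1 := (h.2 (f - algebraMap ℂ g.X.R (t f))).2 (by
    rw [map_sub, AlgHom.commutes, Algebra.algebraMap_self, RingHom.id_apply, sub_self])
  exact h1

theorem reg_pt (h : IsOverGerm t w) (f : g.X.R) : w.Reg (f : K) := by
  have h1 := w.reg_add (Low.pos_reg (pos_sub_pt h f)) (w.reg_const (t f))
  rwa [sub_add_cancel] at h1

theorem pos_ym (h : IsOverGerm t w) {m : Fin n → ℤ} (hm : m ∈ Cn g.E) :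
    w.Pos (ym K m - algebraMap ℂ K (chi t m)) := by
  have h1 := pos_sub_pt h ⟨_, ym_mem hm⟩
  rwa [chi_eq (m := m) _ rfl] at h1

theorem pr_nonneg (h : IsOverGerm t w) {m : Fin n → ℤ} (hm : m ∈ Cn g.E) :
    0 ≤ pr m (tv w) := by
  have h1 := reg_pt h ⟨_, ym_mem hm⟩
  rcases h1 with h2 | h2
  · exact absurd h2 (ym_ne _)
  · rwa [ord_ym] at h2

theorem chi_eq_zero_iff (h : IsOverGerm t w) {m : Fin n → ℤ} (hm : m ∈ Cn g.E) :
    chi t m = 0 ↔ 0 < pr m (tv w) := by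
  have h1 := h.2 ⟨_, ym_mem hm⟩
  rw [chi_eq (m := m) _ rfl] at h1
  rw [← h1]
  constructor
  · intro h2
    rcases h2 with h2 | h2
    · exact absurd h2 (ym_ne _)
    · rwa [ord_ym] at h2
  · intro h2
    right
    rwa [ord_ym]

theorem chi_ne_zero_iff (h : IsOverGerm t w) {m : Fin n → ℤ} (hm : m ∈ Cn g.E) :
    chi t m ≠ 0 ↔ pr m (tv w) = 0 := by
  rw [Ne, chi_eq_zero_iff h hm, not_lt]
  constructor
  · intro h2
    exact le_antisymm h2 (pr_nonneg h hm)
  · intro h2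
    rw [h2]

/-- the inertia group fixes the centre -/
theorem fix_pt (h : IsOverGerm t w) {γ : K ≃ₐ[ℂ] K} {ζ : ℂ}
    (hw : ∀ f : K, f ≠ 0 → w.Pos (γ f / f - algebraMap ℂ K (ζ ^ w.ord f))) {f f' : g.X.R}
    (hf : (f' : K) = γ f) : t f' = t f := by
  have h1 : w.Pos ((f' - f : g.X.R) : K) := by
    change w.Pos ((f' : K) - (f : K))
    rw [hf]
    by_cases h0 : (f : K) = 0
    · rw [h0, map_zero, sub_zero]
      exact Or.inl rfl
    · have h2 := hw f h0
      rcases (reg_pt h f).resolve_left h0 |>.lt_or_eq with h3 | h3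
      · -- both are positive
        have h4 : w.Pos (f : K) := Or.inr h3
        have h5 := w.pos_add (w.pos_mul_left (Low.pos_reg h4) h2)
          (w.pos_mul_left (w.reg_const (ζ ^ w.ord (f : K) - 1)) h4)
        convert h5 using 1
        rw [map_sub, map_one]
        field_simp
        ring
      · rw [← h3, zpow_zero, map_one] at h2
        have h5 := w.pos_mul_left (reg_pt h f) h2
        convert h5 using 1
        field_simp
  have h2 := (h.2 _).1 h1
  rw [map_sub] at h2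
  exact sub_eq_zero.1 h2

/-- coordinates of the vectors of the cone -/
theorem exists_coord {N : ℕ} {E : Fin N → Fin n → ℤ} {u : Fin n → ℤ}
    (hu : ∀ m ∈ Cn E, 0 ≤ pr m u) : ∃ cc : Fin N → ℝ, (∀ i, 0 ≤ cc i) ∧ Coord E cc u := by
  classical
  obtain ⟨d, a, x, hx, hxu, -⟩ := exists_simplex hu
  refine ⟨fun i => ∑ j, if a j = i then x j else 0, fun i => Finset.sum_nonneg fun j _ => ?_,
    fun k => ?_⟩
  · split_ifs
    · exact (hx j).le
    · exact le_rfl
  · rw [← hxu k]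
    simp only [Finset.sum_mul]
    rw [Finset.sum_comm]
    refine Finset.sum_congr rfl fun j _ => ?_
    simp only [ite_mul, zero_mul]
    rw [Finset.sum_ite_eq Finset.univ (a j) fun i => x j * (E i k : ℝ), if_pos (Finset.mem_univ _)]

/-- the closed set of points -/
def SD (g : ToricGerm n K) (γ : K ≃ₐ[ℂ] K) (A : Matrix (Fin n) (Fin n) ℤ) (c : (Fin n → ℤ) → ℂ)
    (I : Set (Fin g.N)) (z : Fin n → ℂ) : Set (Pt g.X) :=
  {t | (∀ f f' : g.X.R, (f' : K) = γ f → t f' = t f) ∧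
    (∀ m ∈ Cn g.E, (∃ i ∈ I, 0 < pr m (g.E i)) → chi t m = 0) ∧
    ∀ m, ∀ a ∈ Cn g.E, ∀ a' ∈ Cn g.E, A.mulVec m - m = a - a' →
      chi t a * c m = (∏ i, z i ^ m i) * chi t a'}

theorem SD_closed {γ : K ≃ₐ[ℂ] K} {A : Matrix (Fin n) (Fin n) ℤ} {c : (Fin n → ℤ) → ℂ}
    {I : Set (Fin g.N)} {z : Fin n → ℂ} {t₀ : Pt g.X}
    (h : ∀ f : g.X.R, (∀ t ∈ SD g γ A c I z, t f = 0) → t₀ f = 0) : t₀ ∈ SD g γ A c I z := by
  refine ⟨fun f f' hf => ?_, fun m hm hi => ?_, fun m a ha a' ha' hm => ?_⟩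
  · have h1 := h (f' - f) fun t ht => by rw [map_sub, ht.1 f f' hf, sub_self]
    rw [map_sub] at h1
    exact sub_eq_zero.1 h1
  · rw [← chi_eq (m := m) ⟨_, ym_mem hm⟩ rfl]
    apply h
    intro t ht
    rw [chi_eq (m := m) ⟨_, ym_mem hm⟩ rfl]
    exact ht.2.1 m hm hi
  · have h1 := h (c m • ⟨_, ym_mem ha⟩ - (∏ i, z i ^ m i) • ⟨_, ym_mem ha'⟩) fun t ht => by
      rw [map_sub, map_smul, map_smul, chi_eq (m := a) _ rfl, chi_eq (m := a') _ rfl, smul_eq_mul,
        smul_eq_mul, mul_comm, ht.2.2 m a ha a' ha' hm, sub_self]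
    rw [map_sub, map_smul, map_smul, chi_eq (m := a) _ rfl, chi_eq (m := a') _ rfl, smul_eq_mul,
        smul_eq_mul] at h1
    rw [mul_comm]
    exact sub_eq_zero.1 h1

theorem prod_zpow {ζ : ℂ} (hζ : ζ ≠ 0) (u m : Fin n → ℤ) :
    ∏ i, (ζ ^ u i) ^ m i = ζ ^ pr m u := by
  rw [pr]
  have h1 : ∀ s : Finset (Fin n), ∏ i ∈ s, (ζ ^ u i) ^ m i = ζ ^ (∑ i ∈ s, m i * u i) := by
    intro s
    classical
    induction s using Finset.induction_on with
    | empty => simp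
    | insert a s ha ih =>
      rw [Finset.prod_insert ha, Finset.sum_insert ha, ih, zpow_add₀ hζ, ← zpow_mul, mul_comm (m a)]
  exact h1 _

/-- the centre of a valuation is in the closed set of its data -/
theorem mem_SD (h : IsOverGerm t w) {γ : K ≃ₐ[ℂ] K}
    {A : Matrix (Fin n) (Fin n) ℤ} {c : (Fin n → ℤ) → ℂ}
    (hγ : ∀ m, γ (ym K m) = algebraMap ℂ K (c m) * ym K (A.mulVec m)) {ζ : ℂ} (hζ : ζ ≠ 0)
    (hw : ∀ f : K, f ≠ 0 → w.Pos (γ f / f - algebraMap ℂ K (ζ ^ w.ord f))) {z : Fin n → ℂ}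
    (hz : ∀ i, z i = ζ ^ (tv w : Fin n → ℤ) i) :
    t ∈ SD g γ A c {i | ∀ m ∈ Cn g.E, pr m (tv w) = 0 → pr m (g.E i) = 0} z := by
  refine ⟨fun f f' hf => fix_pt h hw hf, fun m hm hi => ?_, fun m a ha a' ha' hm => ?_⟩
  · obtain ⟨i, hi, hpos⟩ := hi
    rw [chi_eq_zero_iff h hm]
    refine lt_of_le_of_ne (pr_nonneg h hm) fun h0 => ?_
    rw [hi m hm h0.symm] at hpos
    exact lt_irrefl _ hpos
  · have hz' : ∏ i, z i ^ m i = ζ ^ pr m (tv w) := by
      rw [← prod_zpow hζ]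
      exact Finset.prod_congr rfl fun i _ => by rw [hz]
    rw [hz']
    have h1 := Low.pos_yy hζ hγ hw m
    have ha'r : w.Reg (ym K a') := reg_pt h ⟨_, ym_mem ha'⟩
    have h2 := w.pos_mul_left (w.reg_const (ζ ^ pr m (tv w))) (w.pos_mul_left ha'r h1)
    -- `c m y^a - ζ^(W m) y^a'` is positive
    have h3 : algebraMap ℂ K (ζ ^ pr m (tv w)) * (ym K a' * Low.yy K A c ζ (tv w) m) =
        algebraMap ℂ K (c m) * ym K a - algebraMap ℂ K (ζ ^ pr m (tv w)) * ym K a' := by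
      unfold Low.yy
      have h4 : ym K a = ym K a' * ym K (A.mulVec m - m) := by
        rw [← ym_add, hm]
        congr 1
        abel
      have h5 : algebraMap ℂ K (ζ ^ (-pr m (tv w))) * algebraMap ℂ K (ζ ^ (pr m (tv w))) = 1 := by
        rw [← map_mul, ← zpow_add₀ hζ, neg_add_cancel, zpow_zero, map_one]
      rw [h4, map_mul]
      linear_combination (ym K a' * algebraMap ℂ K (c m) * ym K (A.mulVec m - m)) * h5
    rw [h3] at h2
    have h4 := w.pos_mul_left (w.reg_const (c m)) (pos_ym h ha)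
    have h5 := w.pos_mul_left (w.reg_const (ζ ^ pr m (tv w))) (pos_ym h ha')
    have h6 := w.pos_add (w.pos_add h2 (Low.pos_neg h4)) h5
    have h7 : w.Pos (algebraMap ℂ K (chi t a * c m - ζ ^ pr m (tv w) * chi t a')) := by
      convert h6 using 1
      simp only [map_sub, map_mul]
      ring
    exact sub_eq_zero.1 (Low.pos_const h7)

end Pool.Agent.Helper58K9.LQ
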