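import Pool.Agent.Helper58K9.LQ.Stm
import Pool.Agent.Helper58K9.QT.Tau

/-!
# [TAU2] Extension of characters with given values on a monoid
-/

set_option autoImplicit false

namespace Pool.Agent.Helper58K9.LQ

open Pool.Agent.TH165.ACC Pool.Agent.Helper58K9.QT

theorem tau2 : S_TAU2 := by
  intro n A c hc0 hc ζ hζ W F hF0 hFadd χ hχ0 hχadd h
  classical
  have hinj := injective_units
  have hc00 : c 0 = 1 := by
    have h1 := hc 0 0
    rw [add_zero] at h1
    exact mul_left_cancel₀ (hc0 0) (by rw [← h1, mul_one])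
  have hχ00 : χ 0 = 1 := by
    have h1 := hχadd 0 hF0 0 hF0
    rw [add_zero] at h1
    exact mul_left_cancel₀ (hχ0 0 hF0) (by rw [← h1, mul_one])
  have hcneg : ∀ m, c (-m) = (c m)⁻¹ := by
    intro m
    have h1 := hc m (-m)
    rw [add_neg_cancel, hc00] at h1
    exact (eq_inv_of_mul_eq_one_right h1.symm)
  let R : (Fin n → ℤ) → ℂ → Prop := fun v z => ∃ m a a', a ∈ F ∧ a' ∈ F ∧
    v = A.mulVec m - m + (a - a') ∧ z = ζ ^ pr m W * (c m)⁻¹ * χ a * (χ a')⁻¹
  have R0 : ∀ v z, R v z → z ≠ 0 := by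
    rintro v z ⟨m, a, a', ha, ha', -, rfl⟩
    exact mul_ne_zero (mul_ne_zero (mul_ne_zero (zpow_ne_zero _ hζ) (inv_ne_zero (hc0 m)))
      (hχ0 a ha)) (inv_ne_zero (hχ0 a' ha'))
  have Radd : ∀ v z v' z', R v z → R v' z' → R (v + v') (z * z') := by
    rintro v z v' z' ⟨m, a, a', ha, ha', rfl, rfl⟩ ⟨m1, a1, a1', ha1, ha1', rfl, rfl⟩
    refine ⟨m + m1, a + a1, a' + a1', hFadd _ ha _ ha1, hFadd _ ha' _ ha1', ?_, ?_⟩
    · rw [Matrix.mulVec_add]
      abel
    · rw [pr_add, zpow_add₀ hζ, hc, hχadd _ ha _ ha1, hχadd _ ha' _ ha1', mul_inv, mul_inv]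
      ring
  have Rneg : ∀ v z, R v z → R (-v) z⁻¹ := by
    rintro v z ⟨m, a, a', ha, ha', rfl, rfl⟩
    refine ⟨-m, a', a, ha', ha, ?_, ?_⟩
    · rw [Matrix.mulVec_neg]
      abel
    · rw [pr_neg, zpow_neg, hcneg, mul_inv, mul_inv, mul_inv, inv_inv, inv_inv]
      ring
  have Rone : R 0 1 := by
    refine ⟨0, 0, 0, hF0, hF0, ?_, ?_⟩
    · rw [Matrix.mulVec_zero, sub_zero, add_zero]
    · rw [pr_zero, zpow_zero, hc00, hχ00]
      norm_num
  have Rz : ∀ z, R 0 z → z = 1 := by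
    rintro z ⟨m, a, a', ha, ha', h0, rfl⟩
    have h1 : A.mulVec m - m = a' - a := by
      have h2 := eq_neg_of_add_eq_zero_left h0.symm
      rw [h2, neg_sub]
    have h2 := h m a' ha' a ha h1
    have h3 := hχ0 a' ha'
    have h4 := hc0 m
    calc ζ ^ pr m W * (c m)⁻¹ * χ a * (χ a')⁻¹ = (ζ ^ pr m W * χ a) * (c m)⁻¹ * (χ a')⁻¹ := by ring
      _ = (χ a' * c m) * (c m)⁻¹ * (χ a')⁻¹ := by rw [← h2]
      _ = 1 := by field_simp
  have Runiq : ∀ v z z', R v z → R v z' → z = z' := by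
    intro v z z' hz hz'
    have h1 := Radd _ _ _ _ hz (Rneg _ _ hz')
    rw [add_neg_cancel] at h1
    have h2 := Rz _ h1
    have h3 := R0 _ _ hz'
    calc z = z * z'⁻¹ * z' := by field_simp
      _ = z' := by rw [h2, one_mul]
  let S : AddSubgroup (Fin n → ℤ) :=
    { carrier := {v | ∃ z, R v z}
      zero_mem' := ⟨1, Rone⟩
      add_mem' := fun {v v'} hv hv' => ⟨hv.choose * hv'.choose,
        Radd _ _ _ _ hv.choose_spec hv'.choose_spec⟩
      neg_mem' := fun {v} hv => ⟨hv.choose⁻¹, Rneg _ _ hv.choose_spec⟩ }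
  let k : S → ℂˣ := fun v => Units.mk0 (Classical.choose v.2) (R0 _ _ (Classical.choose_spec v.2))
  have hk : ∀ v : S, R v ((k v : ℂˣ) : ℂ) := fun v => Classical.choose_spec v.2
  let g : S →+ Additive ℂˣ :=
    { toFun := fun v => Additive.ofMul (k v)
      map_zero' := by
        have h1 : k 0 = 1 := by
          ext
          exact Rz _ (hk 0)
        rw [h1, ofMul_one]
      map_add' := by
        intro v v'
        have h1 : k (v + v') = k v * k v' := by
          ext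
          rw [Units.val_mul]
          exact Runiq _ _ _ (hk (v + v')) (Radd _ _ _ _ (hk v) (hk v'))
        rw [h1, ofMul_mul] }
  obtain ⟨t, ht⟩ := hinj.out (AddSubgroup.toIntSubmodule S).subtype Subtype.val_injective
    g.toIntLinearMap
  have key : ∀ v z, R v z → ((Additive.toMul (t v) : ℂˣ) : ℂ) = z := by
    intro v z hz
    have h1 := ht ⟨v, z, hz⟩
    have h2 : t v = g ⟨v, z, hz⟩ := h1
    rw [h2]
    exact Runiq _ _ _ (hk ⟨v, z, hz⟩) hz
  refine ⟨fun m => ((Additive.toMul (t m) : ℂˣ) : ℂ), fun m => Units.ne_zero _, fun m m' => ?_,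
    fun m => ?_, fun m hm => ?_⟩
  · change ((Additive.toMul (t (m + m')) : ℂˣ) : ℂ) = _
    rw [map_add, toMul_add, Units.val_mul]
  · have h1 := key (A.mulVec m - m) (ζ ^ pr m W * (c m)⁻¹) ⟨m, 0, 0, hF0, hF0, by
      rw [sub_zero, add_zero], by rw [hχ00]; norm_num⟩
    have h2 : t (A.mulVec m) = t (A.mulVec m - m) + t m := by
      rw [← map_add, sub_add_cancel]
    change c m * ((Additive.toMul (t (A.mulVec m)) : ℂˣ) : ℂ) =
      ((Additive.toMul (t m) : ℂˣ) : ℂ) * ζ ^ pr m W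
    rw [h2, toMul_add, Units.val_mul, h1]
    have h4 := hc0 m
    field_simp
  · exact key m (χ m) ⟨0, m, 0, hm, hF0, by
      rw [Matrix.mulVec_zero, sub_zero, sub_zero, zero_add], by
      rw [pr_zero, zpow_zero, hc00, hχ00]; norm_num⟩

end Pool.Agent.Helper58K9.LQ
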