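import Mathlib
import Pool.Agent.Helper58K9.LQ.Stm

/-!
# [LIFT] closed points of the quotient: lying over
-/

set_option autoImplicit false

namespace Pool.Agent.Helper58K9.LQ

open Pool.Agent.H436R3.Fol Pool.Agent.H436R3.KT Pool.Agent.W497.Mld Pool.Agent.TH165.ACC
  Pool.Agent.Helper58K9.QT

namespace Lif

variable {L K : Type} [Field L] [Algebra ℂ L] [Field K] [Algebra ℂ K] [Algebra L K]
  [IsScalarTower ℂ L K] {X : AffVar L} {Y : AffVar K}

/-- the inclusion of the coordinate rings -/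
noncomputable def inc (hq : IsQuot X Y.R) : X.R →ₐ[ℂ] Y.R :=
  ((IsScalarTower.toAlgHom ℂ L K).comp X.R.val).codRestrict Y.R (fun f => (hq.quot f).1 f.2)

theorem coe_inc (hq : IsQuot X Y.R) (f : X.R) : ((inc hq f : Y.R) : K) = algebraMap L K f := rfl

theorem overPt_iff (hq : IsQuot X Y.R) (x : Pt X) (t : Pt Y) :
    OverPt x t ↔ ∀ f, t (inc hq f) = x f := by
  constructor
  · intro h f
    exact h f _ (coe_inc hq f)
  · intro h f f' hf
    have h1 : f' = inc hq f := Subtype.ext hf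
    rw [h1, h]

/-- a monic polynomial over the ring of invariants -/
theorem exists_monic (hq : IsQuot X Y.R) (f : Y.R) :
    ∃ p : Polynomial X.R, p.Monic ∧ Polynomial.eval₂ (inc hq).toRingHom f p = 0 := by
  classical
  have := hq.fin
  have := hq.gal
  let _ : Fintype (K ≃ₐ[L] K) := Fintype.ofFinite _
  let τ : (K ≃ₐ[L] K) → Y.R := fun γ => ⟨γ f, hq.inv γ f f.2⟩
  let p : Polynomial Y.R := ∏ γ : K ≃ₐ[L] K, (Polynomial.X - Polynomial.C (τ γ))
  have hmon : p.Monic := Polynomial.monic_prod_of_monic _ _ fun γ _ => Polynomial.monic_X_sub_C _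
  have hfix : ∀ i (σ : K ≃ₐ[L] K), σ (p.coeff i : K) = (p.coeff i : K) := by
    intro i σ
    let q : Polynomial K := p.map (Y.R.val : Y.R →+* K)
    have hq1 : q = ∏ γ : K ≃ₐ[L] K, (Polynomial.X - Polynomial.C (γ f)) := by
      simp only [q, p]
      rw [Polynomial.map_prod]
      refine Finset.prod_congr rfl fun γ _ => ?_
      rw [Polynomial.map_sub, Polynomial.map_X, Polynomial.map_C]
      rfl
    have hq2 : q.map (σ : K →+* K) = q := by
      rw [hq1, Polynomial.map_prod]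
      refine Fintype.prod_equiv (Equiv.mulLeft σ) _ _ fun γ => ?_
      rw [Polynomial.map_sub, Polynomial.map_X, Polynomial.map_C]
      rfl
    have h1 : q.coeff i = (p.coeff i : K) := Polynomial.coeff_map _ _
    rw [← h1]
    calc σ (q.coeff i) = (q.map (σ : K →+* K)).coeff i :=
          (Polynomial.coeff_map (p := q) (σ : K →+* K) i).symm
      _ = q.coeff i := by rw [hq2]
  have hlift : p ∈ Polynomial.lifts (inc hq).toRingHom := by
    rw [Polynomial.lifts_iff_coeff_lifts]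
    intro i
    obtain ⟨c, hc⟩ := (IsGalois.mem_range_algebraMap_iff_fixed (F := L) (p.coeff i : K)).2
      (hfix i)
    have hcR : c ∈ X.R := (hq.quot c).2 (by rw [hc]; exact (p.coeff i).2)
    exact ⟨⟨c, hcR⟩, Subtype.ext hc⟩
  obtain ⟨r, hr1, -, hr2⟩ := Polynomial.lifts_and_natDegree_eq_and_monic hlift hmon
  refine ⟨r, hr2, ?_⟩
  rw [← Polynomial.eval_map, hr1]
  simp only [p]
  rw [Polynomial.eval_prod]
  refine Finset.prod_eq_zero (Finset.mem_univ 1) ?_
  rw [Polynomial.eval_sub, Polynomial.eval_X, Polynomial.eval_C]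
  have : τ 1 = f := Subtype.ext rfl
  rw [this, sub_self]

/-- maximal ideals are closed points -/
theorem exists_pt (Q : Ideal Y.R) (hQ : Q.IsMaximal) : ∃ t : Pt Y, ∀ f, t f = 0 ↔ f ∈ Q := by
  have hfg : Algebra.FiniteType ℂ Y.R := Y.R.fg_iff_finiteType.1 Y.fg
  let _ := Ideal.Quotient.field Q
  have h1 : Algebra.FiniteType ℂ (Y.R ⧸ Q) :=
    Algebra.FiniteType.of_surjective (Ideal.Quotient.mkₐ ℂ Q) (Ideal.Quotient.mkₐ_surjective ℂ Q)
  have h2 : Module.Finite ℂ (Y.R ⧸ Q) := finite_of_finite_type_of_isJacobsonRing ℂ _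
  have hb := IsAlgClosed.algebraMap_bijective_of_isIntegral (k := ℂ) (K := Y.R ⧸ Q)
  let e : ℂ ≃ₐ[ℂ] (Y.R ⧸ Q) := AlgEquiv.ofBijective (Algebra.ofId ℂ (Y.R ⧸ Q)) hb
  refine ⟨e.symm.toAlgHom.comp (Ideal.Quotient.mkₐ ℂ Q), fun f => ?_⟩
  show e.symm (Ideal.Quotient.mkₐ ℂ Q f) = 0 ↔ _
  rw [map_eq_zero_iff _ e.symm.injective]
  exact Ideal.Quotient.eq_zero_iff_mem

theorem overPt_of (hq : IsQuot X Y.R) {x : Pt X} {t : Pt Y}
    (h : ∀ f : X.R, x f = 0 → t (inc hq f) = 0) : OverPt x t := by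
  rw [overPt_iff hq]
  intro f
  have h1 := h (f - algebraMap ℂ X.R (x f)) (by rw [map_sub, AlgHom.commutes]; simp)
  rw [map_sub, map_sub, AlgHom.commutes, AlgHom.commutes, sub_eq_zero] at h1
  simpa using h1

theorem ker_max (x : Pt X) : (RingHom.ker x.toRingHom).IsMaximal := by
  apply RingHom.ker_isMaximal_of_surjective
  intro c
  exact ⟨algebraMap ℂ X.R c, by simp⟩

end Lif

open Lif in
/-- [LIFT] -/
theorem lift : S_LIFT := by
  intro L K _ _ _ _ _ _ X Y hq x₀ S
  let I : Ideal Y.R := ⨅ t ∈ S, RingHom.ker t.toRingHom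
  have hI : ∀ f, f ∈ I ↔ ∀ t ∈ S, t f = 0 := by
    intro f
    simp only [I, Submodule.mem_iInf]
    rfl
  let _ := (inc hq).toRingHom.toAlgebra
  have hint : Algebra.IsIntegral X.R Y.R := ⟨fun f => by
    obtain ⟨p, hp1, hp2⟩ := exists_monic hq f
    exact ⟨p, hp1, hp2⟩⟩
  have hmx := ker_max x₀
  have hpr := hmx.isPrime
  by_cases hle : I.comap (algebraMap X.R Y.R) ≤ RingHom.ker x₀.toRingHom
  · right
    obtain ⟨Q, hQ1, hQ2, hQ3⟩ := Ideal.exists_ideal_over_prime_of_isIntegral _ I hle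
    have hQm : Q.IsMaximal := by
      apply Ideal.isMaximal_of_isIntegral_of_isMaximal_comap (R := X.R) Q
      rw [hQ3]
      exact hmx
    obtain ⟨t, ht⟩ := exists_pt Q hQm
    refine ⟨t, overPt_of hq fun f hf => ?_, fun f hf => ?_⟩
    · rw [ht]
      have h1 : f ∈ Q.comap (algebraMap X.R Y.R) := by
        rw [hQ3]
        exact hf
      exact h1
    · rw [ht]
      exact hQ1 ((hI f).2 hf)
  · left
    obtain ⟨f, hf1, hf2⟩ := SetLike.not_le_iff_exists.1 hle
    refine ⟨f, hf2, fun t ht x hx => ?_⟩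
    have h1 := (hI _).1 (Ideal.mem_comap.1 hf1) t ht
    rw [← (overPt_iff hq x t).1 hx f]
    exact h1

end Pool.Agent.Helper58K9.LQ
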