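import Mathlib
import Pool.Agent.Helper58K9.LQ.Lift
import Pool.Agent.Helper58K9.QT.DivExt
import Pool.Agent.Helper58K9.QT.Basic

/-!
# [CENT2] the centre upstairs
-/

set_option autoImplicit false

namespace Pool.Agent.Helper58K9.LQ

open Pool.Agent.H436R3.Fol Pool.Agent.H436R3.KT Pool.Agent.W497.Mld Pool.Agent.TH165.ACC
  Pool.Agent.Helper58K9.QT

open Lif in
/-- [CENT2] -/
theorem cent2 : S_CENT2 := by
  intro L K _ _ _ _ _ _ X Y hq x v w e h hx
  obtain ⟨⟨S, hS1, hS2, hS3⟩, hv⟩ := hx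
  have := hq.fin
  have hXv : ∀ f : X.R, v.Reg (f : L) := fun f => hS3.1 f (hS2 f.2)
  have hw : ∀ f ∈ Y.R, w.Reg f := by
    intro f hf
    apply FinG.reg_of_isIntegral h
    obtain ⟨p, hp1, hp2⟩ := exists_monic hq ⟨f, hf⟩
    let φ : X.R →+* v.O := X.R.val.toRingHom.codRestrict v.O fun g => hXv g
    refine ⟨p.map φ, hp1.map φ, ?_⟩
    rw [Polynomial.eval₂_map]
    have h1 := congrArg (fun y : Y.R => (y : K)) hp2
    have h2 : ((algebraMap v.O K).comp φ) = (Y.R.val.toRingHom).comp (inc hq).toRingHom := rfl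
    rw [h2]
    have h3 := Polynomial.hom_eval₂ p (inc hq).toRingHom (Y.R.val.toRingHom) (⟨f, hf⟩ : Y.R)
    have h4 : (Y.R.val.toRingHom) (⟨f, hf⟩ : Y.R) = f := rfl
    rw [h4] at h3
    rw [← h3, hp2]
    rfl
  let Q : Ideal Y.R :=
    { carrier := {f | w.Pos (f : K)}
      add_mem' := fun {a b} ha hb => w.pos_add ha hb
      zero_mem' := Or.inl rfl
      smul_mem' := fun c a ha => w.pos_mul_left (hw _ c.2) ha }
  have hQ : ∀ f, f ∈ Q ↔ w.Pos (f : K) := fun f => Iff.rfl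
  let _ := (inc hq).toRingHom.toAlgebra
  have hint : Algebra.IsIntegral X.R Y.R := ⟨fun f => by
    obtain ⟨p, hp1, hp2⟩ := exists_monic hq f
    exact ⟨p, hp1, hp2⟩⟩
  have hmx := ker_max x
  have hcomap : Q.comap (algebraMap X.R Y.R) = RingHom.ker x.toRingHom := by
    ext f
    rw [Ideal.mem_comap, hQ]
    show w.Pos (algebraMap L K f) ↔ x f = 0
    rw [Over.pos_iff h, hv]
  have hQp : Q.IsPrime := by
    refine ⟨?_, ?_⟩
    · rw [Ne, Ideal.eq_top_iff_one, hQ]
      rintro (h1 | h1)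
      · exact one_ne_zero h1
      · have h2 : w.ord ((1 : Y.R) : K) = 0 := w.ord_one
        omega
    · intro a b hab
      rw [hQ] at hab ⊢
      rw [hQ]
      by_contra hcon
      push Not at hcon
      obtain ⟨ha, hb⟩ := hcon
      have ha0 : (a : K) ≠ 0 := fun h0 => ha (Or.inl h0)
      have hb0 : (b : K) ≠ 0 := fun h0 => hb (Or.inl h0)
      have ha1 : w.ord (a : K) ≤ 0 := not_lt.1 fun h0 => ha (Or.inr h0)
      have hb1 : w.ord (b : K) ≤ 0 := not_lt.1 fun h0 => hb (Or.inr h0)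
      rcases hab with h1 | h1
      · exact mul_ne_zero ha0 hb0 h1
      · have h2 : ((a * b : Y.R) : K) = a * b := rfl
        rw [h2, w.map_mul _ _ ha0 hb0] at h1
        omega
  have hQm : Q.IsMaximal := by
    apply Ideal.isMaximal_of_isIntegral_of_isMaximal_comap (R := X.R) Q
    rw [hcomap]
    exact hmx
  obtain ⟨t, ht⟩ := exists_pt Q hQm
  refine ⟨t, overPt_of hq fun f hf => ?_, ?_, fun f => ?_⟩
  · rw [ht]
    have h1 : f ∈ Q.comap (algebraMap X.R Y.R) := by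
      rw [hcomap]
      exact hf
    exact h1
  · exact div_of_over h ⟨S, hS1, hS3⟩ Y.R Y.fg hw
  · rw [ht, hQ]

end Pool.Agent.Helper58K9.LQ
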