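import Pool.Agent.Helper58K9.LQ.Face

/-!
# [COMB2] Invariant faces
-/

set_option autoImplicit false

namespace Pool.Agent.Helper58K9.LQ

open Pool.Agent.TH165.ACC Pool.Agent.Helper58K9.QT

namespace Comb2L

variable {n N r : ℕ} {E : Fin N → Fin n → ℤ} {A : Matrix (Fin n) (Fin n) ℤ} {σ : Fin N → Fin N}

theorem vecMul_iter (hσ : ∀ i, E (σ i) = Matrix.vecMul (E i) A) (i : Fin N) (j : ℕ) :
    E (σ^[j] i) = Matrix.vecMul (E i) (A ^ j) := by
  induction j with
  | zero => simp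
  | succ j ih =>
    rw [Function.iterate_succ_apply', hσ, ih, Matrix.vecMul_vecMul, ← pow_succ]

theorem pr_iter (hσ : ∀ i, E (σ i) = Matrix.vecMul (E i) A) (i : Fin N) (j : ℕ)
    (m : Fin n → ℤ) : pr ((A ^ j).mulVec m) (E i) = pr m (E (σ^[j] i)) := by
  rw [ThC.pr_vecMul, vecMul_iter hσ]

theorem pow_mem {F : Set (Fin n → ℤ)} (hA : ∀ m ∈ F, A.mulVec m ∈ F) (j : ℕ) {m : Fin n → ℤ}
    (hm : m ∈ F) : (A ^ j).mulVec m ∈ F := by
  induction j with
  | zero => simpa using hm
  | succ j ih => rw [pow_succ', ← Matrix.mulVec_mulVec]; exact hA _ ih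

theorem pr_sum_right {ι : Type} (S : Finset ι) (u : ι → Fin n → ℤ) (m : Fin n → ℤ) :
    pr m (∑ i ∈ S, u i) = ∑ i ∈ S, pr m (u i) := by
  simp only [pr, Finset.sum_apply, Finset.mul_sum]
  rw [Finset.sum_comm]

theorem pr_sum_left {ι : Type} (S : Finset ι) (a : ι → Fin n → ℤ) (u : Fin n → ℤ) :
    pr (∑ i ∈ S, a i) u = ∑ i ∈ S, pr (a i) u := by
  simp only [pr, Finset.sum_apply, Finset.sum_mul]
  rw [Finset.sum_comm]

theorem pr_add_right (m u u' : Fin n → ℤ) : pr m (u + u') = pr m u + pr m u' := by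
  simp only [pr, Pi.add_apply, mul_add, Finset.sum_add_distrib]

theorem sum_inv (hr : A ^ r = 1) (hσ : ∀ i, E (σ i) = Matrix.vecMul (E i) A) (i : Fin N) :
    Matrix.vecMul (∑ j ∈ Finset.range r, E (σ^[j] i)) A = ∑ j ∈ Finset.range r, E (σ^[j] i) := by
  have h1 : Matrix.vecMul (∑ j ∈ Finset.range r, E (σ^[j] i)) A =
      ∑ j ∈ Finset.range r, E (σ^[j + 1] i) := by
    rw [Matrix.sum_vecMul]
    refine Finset.sum_congr rfl fun j _ => ?_
    rw [Function.iterate_succ_apply', hσ]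
  rw [h1]
  have h2 := Finset.sum_range_succ (fun j => E (σ^[j] i)) r
  have h3 := Finset.sum_range_succ' (fun j => E (σ^[j] i)) r
  have h4 : E (σ^[r] i) = E (σ^[0] i) := by
    rw [vecMul_iter hσ, vecMul_iter hσ, hr, pow_zero]
  rw [h2, h4] at h3
  exact (add_right_cancel h3).symm

/-- the linear functional on the rational vectors given by `u` -/
noncomputable def fn (u : Fin n → ℤ) : (Fin n → ℚ) →ₗ[ℚ] ℚ :=
  ∑ k, (u k : ℚ) • LinearMap.proj k

theorem fn_castQ (u m : Fin n → ℤ) : fn u (castQ m) = (pr m u : ℚ) := by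
  simp only [fn, castQ, pr, LinearMap.sum_apply, LinearMap.smul_apply, LinearMap.proj_apply,
    smul_eq_mul]
  push_cast
  exact Finset.sum_congr rfl fun k _ => mul_comm _ _

theorem pr_NA (hσ : ∀ i, E (σ i) = Matrix.vecMul (E i) A) (i : Fin N) (m : Fin n → ℤ) :
    pr (ThC.NA r A m) (E i) = ∑ j ∈ Finset.range r, pr m (E (σ^[j] i)) := by
  rw [ThC.NA, pr_sum_left]
  exact Finset.sum_congr rfl fun j _ => pr_iter hσ i j m

theorem rk_mono {F G : Set (Fin n → ℤ)} (h : F ⊆ G) : rk r A F ≤ rk r A G :=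
  Submodule.finrank_mono (Submodule.span_mono (Set.image_mono h))

theorem rk_lt {F G : Set (Fin n → ℤ)} (h : F ⊆ G) (u : Fin n → ℤ)
    (hF : ∀ m ∈ F, pr (ThC.NA r A m) u = 0) {m : Fin n → ℤ} (hm : m ∈ G)
    (hmu : pr (ThC.NA r A m) u ≠ 0) : rk r A F < rk r A G := by
  refine Submodule.finrank_lt_finrank_of_lt ?_
  refine lt_of_le_of_ne (Submodule.span_mono (Set.image_mono h)) ?_
  intro heq
  have h1 : Submodule.span ℚ ((fun m => castQ (ThC.NA r A m)) '' F) ≤ LinearMap.ker (fn u) := by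
    rw [Submodule.span_le]
    rintro _ ⟨m', hm', rfl⟩
    show fn u _ = 0
    rw [fn_castQ, hF m' hm', Int.cast_zero]
  have h2 : castQ (ThC.NA r A m) ∈ Submodule.span ℚ ((fun m => castQ (ThC.NA r A m)) '' F) := by
    rw [heq]
    exact Submodule.subset_span ⟨m, hm, rfl⟩
  have h3 := h1 h2
  rw [LinearMap.mem_ker, fn_castQ] at h3
  exact hmu (by exact_mod_cast h3)

end Comb2L

open Comb2L in
/-- [COMB2] -/
theorem comb2 (hface : S_FACE) : S_COMB2 := by
  classical
  intro n N r E A hr hAr σ hσ b hb F hFE h0 hadd hfc hA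
  have key : ∀ d : ℕ, ∀ W : Fin n → ℤ, Matrix.vecMul W A = W → (∀ m ∈ F, pr m W = 0) →
      ∀ cc : Fin N → ℝ, (∀ i, 0 ≤ cc i) → Coord E cc W →
      rk r A {m | m ∈ Cn E ∧ pr m W = 0} = d →
      ∃ (W' : Fin n → ℤ) (cc' : Fin N → ℝ), Matrix.vecMul W' A = W' ∧ (∀ i, 0 ≤ cc' i) ∧
        Coord E cc' W' ∧ (∀ m ∈ Cn E, pr m W' = 0 ↔ m ∈ F) ∧
        (∀ m, ∀ a ∈ F, ∀ a' ∈ F, A.mulVec m - m = a - a' → ∃ z : ℤ, pr m W' = pr m W + r * z) ∧
        ∑ i, cc' i * (1 - b i) + r * rk r A F ≤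
          ∑ i, cc i * (1 - b i) + r * rk r A {m | m ∈ Cn E ∧ pr m W = 0} := by
    intro d
    induction d using Nat.strong_induction_on with
    | _ d ih =>
    intro W hWA hWF cc hcc hcoord hd
    by_cases hc : ∀ m ∈ Cn E, pr m W = 0 → m ∈ F
    · refine ⟨W, cc, hWA, hcc, hcoord, fun m hm => ⟨hc m hm, hWF m⟩, fun m a _ a' _ _ =>
        ⟨0, by simp⟩, ?_⟩
      have h1 : rk r A F ≤ rk r A {m | m ∈ Cn E ∧ pr m W = 0} :=
        rk_mono fun m hm => ⟨hFE hm, hWF m hm⟩
      have h2 : (r : ℝ) * (rk r A F : ℝ) ≤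
          r * (rk r A {m | m ∈ Cn E ∧ pr m W = 0} : ℝ) := by
        refine mul_le_mul_of_nonneg_left ?_ (Nat.cast_nonneg r)
        exact_mod_cast h1
      linarith
    · push Not at hc
      obtain ⟨m₀, hm₀, hm₀W, hm₀F⟩ := hc
      obtain ⟨i, hi, hi'⟩ : ∃ i, (∀ a ∈ F, pr a (E i) = 0) ∧ pr m₀ (E i) ≠ 0 := by
        by_contra hcon
        push Not at hcon
        exact hm₀F (hface n N E F hFE h0 hadd hfc m₀ hm₀ hcon)
      have hipos : 0 < pr m₀ (E i) := lt_of_le_of_ne (hm₀ i) (Ne.symm hi')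
      set S : Fin n → ℤ := ∑ j ∈ Finset.range r, E (σ^[j] i) with hS
      set W1 : Fin n → ℤ := W + S with hW1
      set cc1 : Fin N → ℝ := fun i' => cc i' +
        ∑ j ∈ Finset.range r, if σ^[j] i = i' then (1 : ℝ) else 0 with hcc1
      have hprS : ∀ m, pr m S = ∑ j ∈ Finset.range r, pr m (E (σ^[j] i)) := fun m => by
        rw [hS, pr_sum_right]
      have hprFS : ∀ m ∈ F, ∀ j, pr m (E (σ^[j] i)) = 0 := by
        intro m hm j
        rw [← pr_iter hσ]
        exact hi _ (pow_mem hA j hm)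
      have hW1A : Matrix.vecMul W1 A = W1 := by
        rw [hW1, Matrix.add_vecMul, hWA, hS, sum_inv hAr hσ]
      have hW1F : ∀ m ∈ F, pr m W1 = 0 := by
        intro m hm
        rw [hW1, pr_add_right, hWF m hm, hprS, zero_add]
        exact Finset.sum_eq_zero fun j _ => hprFS m hm j
      have hcc1n : ∀ i, 0 ≤ cc1 i := by
        intro i'
        refine add_nonneg (hcc i') (Finset.sum_nonneg fun j _ => ?_)
        split_ifs <;> norm_num
      have hsum : ∀ f : Fin N → ℝ, ∑ i', cc1 i' * f i' = ∑ i', cc i' * f i' +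
          ∑ j ∈ Finset.range r, f (σ^[j] i) := by
        intro f
        simp only [hcc1, add_mul, Finset.sum_add_distrib]
        congr 1
        simp only [Finset.sum_mul]
        rw [Finset.sum_comm]
        refine Finset.sum_congr rfl fun j _ => ?_
        simp
      have hcoord1 : Coord E cc1 W1 := by
        intro k
        rw [hsum (fun i' => (E i' k : ℝ)), hcoord k, hW1, hS]
        simp only [Pi.add_apply, Finset.sum_apply]
        push_cast
        rfl
      have hWpos : ∀ m ∈ Cn E, 0 ≤ pr m W := by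
        intro m hm
        have h1 := coord_pr hcoord m
        have h2 : (0 : ℝ) ≤ (pr m W : ℝ) := by
          rw [h1]
          exact Finset.sum_nonneg fun i _ => mul_nonneg (hcc i) (by exact_mod_cast hm i)
        exact_mod_cast h2
      have hsub : {m | m ∈ Cn E ∧ pr m W1 = 0} ⊆ {m | m ∈ Cn E ∧ pr m W = 0} := by
        rintro m ⟨hm, hm1⟩
        refine ⟨hm, ?_⟩
        rw [hW1, pr_add_right, hprS] at hm1
        have h1 : 0 ≤ ∑ j ∈ Finset.range r, pr m (E (σ^[j] i)) :=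
          Finset.sum_nonneg fun j _ => hm _
        have h2 := hWpos m hm
        linarith
      have hz : ∀ m ∈ {m | m ∈ Cn E ∧ pr m W1 = 0}, pr (ThC.NA r A m) (E i) = 0 := by
        rintro m ⟨hm, hm1⟩
        rw [pr_NA hσ]
        rw [hW1, pr_add_right, hprS] at hm1
        have h1 : 0 ≤ ∑ j ∈ Finset.range r, pr m (E (σ^[j] i)) :=
          Finset.sum_nonneg fun j _ => hm _
        have h2 := hWpos m hm
        linarith
      have hnz : pr (ThC.NA r A m₀) (E i) ≠ 0 := by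
        rw [pr_NA hσ]
        refine ne_of_gt ?_
        refine Finset.sum_pos' (fun j _ => hm₀ _) ⟨0, Finset.mem_range.2 hr, by simpa using hipos⟩
      have hlt : rk r A {m | m ∈ Cn E ∧ pr m W1 = 0} <
          rk r A {m | m ∈ Cn E ∧ pr m W = 0} :=
        rk_lt hsub (E i) hz (m := m₀) ⟨hm₀, hm₀W⟩ hnz
      obtain ⟨W', cc', h1, h2, h3, h4, h5, h6⟩ := ih _ (hd ▸ hlt) W1 hW1A hW1F cc1 hcc1n hcoord1 rfl
      refine ⟨W', cc', h1, h2, h3, h4, ?_, ?_⟩
      · intro m a ha a' ha' hma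
        obtain ⟨z, hz'⟩ := h5 m a ha a' ha' hma
        have h7 : ∀ j, pr m (E (σ^[j] i)) = pr m (E i) := by
          intro j
          rw [← pr_iter hσ]
          induction j with
          | zero => simp
          | succ j ihj =>
            have h8 : (A ^ (j + 1)).mulVec m =
                (A ^ j).mulVec m + ((A ^ j).mulVec a - (A ^ j).mulVec a') := by
              rw [← Matrix.mulVec_sub, ← hma, ← Matrix.mulVec_add, pow_succ,
                ← Matrix.mulVec_mulVec]
              congr 1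
              abel
            rw [h8, pr_add, pr_sub, ihj, hi _ (pow_mem hA j ha), hi _ (pow_mem hA j ha')]
            ring
        refine ⟨pr m (E i) + z, ?_⟩
        rw [hz', hW1, pr_add_right, hprS]
        simp only [h7, Finset.sum_const, Finset.card_range, nsmul_eq_mul]
        ring
      · refine h6.trans ?_
        rw [hsum (fun i' => 1 - b i')]
        have h7 : ∑ j ∈ Finset.range r, (1 - b (σ^[j] i)) ≤ (r : ℝ) := by
          calc ∑ j ∈ Finset.range r, (1 - b (σ^[j] i)) ≤ ∑ j ∈ Finset.range r, (1 : ℝ) :=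
                Finset.sum_le_sum fun j _ => by linarith [hb (σ^[j] i)]
            _ = r := by simp
        have h8 : (rk r A {m | m ∈ Cn E ∧ pr m W1 = 0} : ℝ) + 1 ≤
            (rk r A {m | m ∈ Cn E ∧ pr m W = 0} : ℝ) := by exact_mod_cast hlt
        have h9 : (r : ℝ) * ((rk r A {m | m ∈ Cn E ∧ pr m W1 = 0} : ℝ) + 1) ≤
            r * (rk r A {m | m ∈ Cn E ∧ pr m W = 0} : ℝ) :=
          mul_le_mul_of_nonneg_left h8 (Nat.cast_nonneg r)
        linarith
  intro W hWA hWF cc hcc hcoord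
  exact key _ W hWA hWF cc hcc hcoord rfl

end Pool.Agent.Helper58K9.LQ
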