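import Pool.Agent.Helper58K9.LQ.Stm
import Pool.Agent.Helper58K9.QT.Rank

/-!
# [DIAG2] Diagonalisation adapted to a set of integral vectors
-/

set_option autoImplicit false

namespace Pool.Agent.Helper58K9.LQ

open Pool.Agent.TH165.ACC Pool.Agent.Helper58K9.QT

namespace Diag2L

/-- an integral vector as a complex vector -/
noncomputable def castC {n : ℕ} (m : Fin n → ℤ) : Fin n → ℂ := fun i => (m i : ℂ)

theorem exists_basis {n r d : ℕ} (hr : 0 < r) (f : Module.End ℂ (Fin n → ℂ)) (h : f ^ r = 1)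
    (v : Fin d → Fin n → ℂ) (hv : LinearIndependent ℂ v) (hfv : ∀ l, f (v l) = v l) :
    ∃ (b : Module.Basis (Fin n) ℂ (Fin n → ℂ)) (η : Fin n → ℂ), (∀ k, f (b k) = η k • b k) ∧
      ∃ κ' : Fin d → Fin n, ∀ l, b (κ' l) = v l := by
  classical
  have hss : f.IsSemisimple := by
    refine Module.End.isSemisimple_of_squarefree_aeval_eq_zero
      (p := (Polynomial.X ^ r - 1 : Polynomial ℂ)) ?_ ?_
    · refine Polynomial.Separable.squarefree ?_
      rw [Polynomial.X_pow_sub_one_separable_iff]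
      exact_mod_cast hr.ne'
    · rw [map_sub, map_pow, Polynomial.aeval_X, map_one, h, sub_self]
  have htop := hss.iSup_eigenspace_eq_top
  set s : Set (Fin n → ℂ) := ⋃ μ : ℂ, (f.eigenspace μ : Set (Fin n → ℂ)) with hs
  have hspan : ⊤ ≤ Submodule.span ℂ s := by
    rw [← htop]
    refine iSup_le fun μ => ?_
    intro v hv
    exact Submodule.subset_span (Set.mem_iUnion.2 ⟨μ, hv⟩)
  have hvs : Set.range v ⊆ s := by
    rintro _ ⟨l, rfl⟩
    refine Set.mem_iUnion.2 ⟨1, ?_⟩
    exact Module.End.mem_eigenspace_iff.2 (by rw [hfv, one_smul])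
  have hvi : LinearIndepOn ℂ id (Set.range v) := hv.linearIndepOn_id
  let b0 := Module.Basis.extendLe hvi hvs hspan
  have := Module.Finite.finite_basis b0
  have := Fintype.ofFinite (hvi.extend hvs)
  have hc : Fintype.card (hvi.extend hvs) = n := by
    rw [← Module.finrank_eq_card_basis b0, Module.finrank_fin_fun]
  let b := b0.reindex (Fintype.equivFinOfCardEq hc)
  have hbb : ∀ k, b k = ((Fintype.equivFinOfCardEq hc).symm k : hvi.extend hvs).1 := by
    intro k
    have h1 : b k = b0 ((Fintype.equivFinOfCardEq hc).symm k) := by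
      rw [Module.Basis.reindex_apply]
    rw [h1]
    exact Module.Basis.extendLe_apply_self hvi hvs hspan _
  have hb : ∀ k, ∃ μ : ℂ, f (b k) = μ • b k := by
    intro k
    have h1 : b k ∈ s := by
      rw [hbb]
      exact hvi.extend_subset hvs (Subtype.mem _)
    obtain ⟨μ, hμ⟩ := Set.mem_iUnion.1 h1
    exact ⟨μ, Module.End.mem_eigenspace_iff.1 hμ⟩
  choose η hη using hb
  refine ⟨b, η, hη, fun l => Fintype.equivFinOfCardEq hc
    ⟨v l, hvi.subset_extend hvs ⟨l, rfl⟩⟩, fun l => ?_⟩
  rw [hbb, Equiv.symm_apply_apply]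

theorem exists_diag' {n r d : ℕ} (hr : 0 < r) (A : Matrix (Fin n) (Fin n) ℤ) (h : A ^ r = 1)
    (v : Fin d → Fin n → ℂ) (hv : LinearIndependent ℂ v)
    (hfv : ∀ l, (A.map (Int.cast : ℤ → ℂ)).mulVec (v l) = v l) :
    ∃ (P Q : Matrix (Fin n) (Fin n) ℂ) (η : Fin n → ℂ) (s : ℕ) (κ : Fin s → Fin n)
      (κ' : Fin d → Fin n), IsDiag r A P Q η κ ∧ (∀ l, η (κ' l) = 1) ∧
      Function.Injective κ' ∧ ∀ l j, P j (κ' l) = v l j := by
  classical
  set M : Matrix (Fin n) (Fin n) ℂ := A.map (Int.cast : ℤ → ℂ) with hM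
  have hM' : M = (Int.castRingHom ℂ).mapMatrix A := rfl
  have hMr : M ^ r = 1 := by rw [hM', ← map_pow, h, map_one]
  obtain ⟨b, η, hη, κ', hκ'⟩ := exists_basis hr (Matrix.toLin' M) (by
    rw [← Matrix.toLin'_pow, hMr, Matrix.toLin'_one]; rfl) v hv (fun l => by
      rw [Matrix.toLin'_apply, hfv])
  set P : Matrix (Fin n) (Fin n) ℂ := (Pi.basisFun ℂ (Fin n)).toMatrix b with hP
  set Q : Matrix (Fin n) (Fin n) ℂ := b.toMatrix (Pi.basisFun ℂ (Fin n)) with hQ
  have hPQ : P * Q = 1 := Module.Basis.toMatrix_mul_toMatrix_flip _ _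
  have hQP : Q * P = 1 := Module.Basis.toMatrix_mul_toMatrix_flip _ _
  have hR : M * P = P * Matrix.diagonal η := by
    ext i k
    have h1 := congrFun (hη k) i
    rw [Matrix.toLin'_apply] at h1
    rw [Matrix.mul_diagonal, Matrix.mul_apply]
    simp only [Matrix.mulVec, dotProduct, Pi.smul_apply, smul_eq_mul] at h1
    simp only [hP, Module.Basis.toMatrix_apply, Pi.basisFun_repr]
    rw [h1, mul_comm]
  have hL : Q * M = Matrix.diagonal η * Q := by
    calc Q * M = Q * M * (P * Q) := by rw [hPQ, mul_one]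
      _ = Q * (M * P) * Q := by simp only [mul_assoc]
      _ = Q * P * Matrix.diagonal η * Q := by rw [hR]; simp only [mul_assoc]
      _ = Matrix.diagonal η * Q := by rw [hQP, one_mul]
  have hpow : ∀ j : ℕ, M ^ j * P = P * (Matrix.diagonal η) ^ j := by
    intro j
    induction j with
    | zero => simp
    | succ j ih => rw [pow_succ', pow_succ, mul_assoc, ih, ← mul_assoc, hR, mul_assoc,
        ← pow_succ', pow_succ]
  have hD : (Matrix.diagonal η) ^ r = 1 := by
    have h1 := hpow r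
    rw [hMr, one_mul] at h1
    calc (Matrix.diagonal η) ^ r = Q * P * (Matrix.diagonal η) ^ r := by rw [hQP, one_mul]
      _ = Q * P := by rw [mul_assoc, ← h1]
      _ = 1 := hQP
  have hη1 : ∀ k, η k ^ r = 1 := by
    intro k
    rw [Matrix.diagonal_pow] at hD
    have := congrFun (congrFun hD k) k
    simpa using this
  refine ⟨P, Q, η, Fintype.card {k // η k ≠ 1},
    fun i => ((Fintype.equivFin {k // η k ≠ 1}).symm i).1, κ', ⟨hr, h, hPQ, hQP, hη1, hR, hL, ?_, ?_⟩,
    ?_, ?_, ?_⟩
  · intro i j hij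
    exact (Fintype.equivFin {k // η k ≠ 1}).symm.injective (Subtype.ext hij)
  · intro k
    constructor
    · rintro ⟨i, rfl⟩
      exact ((Fintype.equivFin {k // η k ≠ 1}).symm i).2
    · intro hk
      exact ⟨Fintype.equivFin {k // η k ≠ 1} ⟨k, hk⟩, by simp⟩
  · intro l
    have h1 := hη (κ' l)
    rw [hκ' l, Matrix.toLin'_apply, hfv] at h1
    have h2 : v l ≠ 0 := hv.ne_zero l
    by_contra hne
    have h3 : (η (κ' l) - 1) • v l = 0 := by
      rw [sub_smul, one_smul, ← h1, sub_self]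
    rcases smul_eq_zero.1 h3 with h4 | h4
    · exact hne (sub_eq_zero.1 h4)
    · exact h2 h4
  · intro l l' hll
    have h1 : v l = v l' := by rw [← hκ' l, ← hκ' l', hll]
    exact hv.injective h1
  · intro l j
    rw [hP, Module.Basis.toMatrix_apply, Pi.basisFun_repr, hκ']

/-- the row `k` of `Q` on rational vectors -/
noncomputable def fQ {n : ℕ} (Q : Matrix (Fin n) (Fin n) ℂ) (k : Fin n) :
    (Fin n → ℚ) →ₗ[ℚ] ℂ where
  toFun v := ∑ i, Q k i * (v i : ℂ)
  map_add' v w := by
    simp only [Pi.add_apply, Rat.cast_add, mul_add, Finset.sum_add_distrib]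
  map_smul' c v := by
    rw [RingHom.id_apply, Rat.smul_def, Finset.mul_sum]
    refine Finset.sum_congr rfl fun i _ => ?_
    rw [Pi.smul_apply, smul_eq_mul]
    push_cast
    ring

theorem fQ_castQ {n : ℕ} (Q : Matrix (Fin n) (Fin n) ℂ) (k : Fin n) (m : Fin n → ℤ) :
    fQ Q k (castQ m) = ThC.qd Q k m := by
  simp only [fQ, castQ, ThC.qd, LinearMap.coe_mk, AddHom.coe_mk]
  refine Finset.sum_congr rfl fun i _ => ?_
  push_cast
  rfl

/-- an integral multiple of a projection -/
theorem exists_proj {n : ℕ} (U : Submodule ℚ (Fin n → ℚ)) :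
    ∃ (N : Matrix (Fin n) (Fin n) ℤ) (D : ℤ), D ≠ 0 ∧
      (∀ m, castQ m ∈ U → N.mulVec m = 0) ∧
      ∀ m, castQ (N.mulVec m) - (D : ℚ) • castQ m ∈ U := by
  classical
  obtain ⟨W, hW⟩ := U.exists_isCompl
  set p := W.projection U hW.symm with hp
  obtain ⟨D, hD⟩ := IsLocalization.exist_integer_multiples (nonZeroDivisors ℤ)
    (Finset.univ : Finset (Fin n × Fin n)) (fun ij => p (Pi.single ij.2 (1 : ℚ)) ij.1)
  have hD' : ∀ i j, ∃ z : ℤ, (z : ℚ) = (D : ℤ) * p (Pi.single j (1 : ℚ)) i := by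
    intro i j
    obtain ⟨z, hz⟩ := hD (i, j) (Finset.mem_univ _)
    refine ⟨z, ?_⟩
    simpa [Submonoid.smul_def] using hz
  choose N hN using hD'
  have hcast : ∀ m : Fin n → ℤ,
      castQ ((Matrix.of N).mulVec m) = ((D : ℤ) : ℚ) • p (castQ m) := by
    intro m
    funext i
    have h1 : castQ m = ∑ j, (m j : ℚ) • (Pi.single j (1 : ℚ) : Fin n → ℚ) := by
      funext k
      simp [castQ, Finset.sum_apply, Pi.single_apply]
    rw [h1, map_sum, Pi.smul_apply, Finset.sum_apply, smul_eq_mul, Finset.mul_sum]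
    simp only [castQ, Matrix.mulVec, dotProduct, Matrix.of_apply]
    push_cast
    refine Finset.sum_congr rfl fun j _ => ?_
    rw [hN, map_smul, Pi.smul_apply, smul_eq_mul]
    ring
  refine ⟨Matrix.of N, D, nonZeroDivisors.coe_ne_zero D, fun m hm => ?_, fun m => ?_⟩
  · have h1 : p (castQ m) = 0 := by
      rw [hp, Submodule.projection_apply_eq_zero_iff]
      exact hm
    have h2 := hcast m
    rw [h1, smul_zero] at h2
    funext i
    have h3 := congrFun h2 i
    simp only [castQ, Pi.zero_apply] at h3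
    exact_mod_cast h3
  · rw [hcast, ← smul_sub]
    refine U.smul_mem _ ?_
    have h1 : castQ m - p (castQ m) ∈ U := Submodule.sub_projection_mem hW.symm _
    rw [← neg_sub]
    exact U.neg_mem h1

end Diag2L

open Diag2L in
/-- [DIAG2] -/
theorem diag2 : S_DIAG2 := by
  classical
  intro n r hr A hA F hF
  -- the vectors `m_l`
  obtain ⟨f, hfF, hfspan, hfind⟩ : ∃ f : Fin (rk r A F) → Fin n → ℚ,
      (∀ i, f i ∈ ((fun m => castQ (ThC.NA r A m)) '' F)) ∧
      Submodule.span ℚ (Set.range f) =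
        Submodule.span ℚ ((fun m => castQ (ThC.NA r A m)) '' F) ∧ LinearIndependent ℚ f :=
    Submodule.exists_fun_fin_finrank_span_eq ℚ ((fun m => castQ (ThC.NA r A m)) '' F)
  choose m hmF hmf using hfF
  have hmf' : ∀ l, castQ (ThC.NA r A (m l)) = f l := hmf
  set v : Fin (rk r A F) → Fin n → ℂ := fun l => castC (ThC.NA r A (m l)) with hv
  have hvi : LinearIndependent ℂ v := by
    have h1 : LinearIndependent ℤ f := (LinearIndependent.iff_fractionRing ℤ ℚ).mpr hfind
    have h2 : LinearIndependent ℤ (fun l => ThC.NA r A (m l)) := by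
      let g : (Fin n → ℤ) →ₗ[ℤ] (Fin n → ℚ) :=
        LinearMap.pi fun j => (Algebra.linearMap ℤ ℚ) ∘ₗ LinearMap.proj j
      refine LinearIndependent.of_comp g ?_
      have h3 : (⇑g ∘ fun l => ThC.NA r A (m l)) = f := by
        funext l
        rw [← hmf' l]
        rfl
      rw [h3]
      exact h1
    exact linInd_complex h2
  have hNA : ∀ x : Fin n → ℤ, A.mulVec (ThC.NA r A x) = ThC.NA r A x := by
    intro x
    have h1 : A.mulVec (ThC.NA r A x) = ∑ j ∈ Finset.range r, (A ^ (j + 1)).mulVec x := by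
      rw [ThC.NA, Matrix.mulVec_sum]
      refine Finset.sum_congr rfl fun j _ => ?_
      rw [Matrix.mulVec_mulVec, ← pow_succ']
    rw [h1, ThC.NA]
    have h2 := Finset.sum_range_succ (fun j => (A ^ j).mulVec x) r
    have h3 := Finset.sum_range_succ' (fun j => (A ^ j).mulVec x) r
    rw [h2, hA, pow_zero] at h3
    exact (add_right_cancel h3).symm
  obtain ⟨P, Q, η, s, κ, κ', hd, hη', hκ'i, hκ'P⟩ := exists_diag' hr A hA v hvi (by
    intro l
    have h1 : (A.map (Int.cast : ℤ → ℂ)).mulVec (v l) = castC (A.mulVec (ThC.NA r A (m l))) := by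
      funext i
      simp [hv, castC, Matrix.mulVec, dotProduct]
    rw [h1, hNA])
  -- the space `U`
  set U : Submodule ℚ (Fin n → ℚ) := Submodule.span ℚ
    (castQ '' F ∪ Set.range fun x : Fin n → ℤ => castQ (A.mulVec x - x)) with hU
  obtain ⟨N, D, hD, hNU, hND⟩ := exists_proj U
  have hQv : ∀ k l, ThC.qd Q k (ThC.NA r A (m l)) = if k = κ' l then 1 else 0 := by
    intro k l
    have h1 := congrFun (congrFun hd.QP k) (κ' l)
    rw [Matrix.mul_apply, Matrix.one_apply] at h1
    rw [← h1, ThC.qd]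
    refine Finset.sum_congr rfl fun i _ => ?_
    rw [hκ'P]
    rfl
  have hrow : ∀ k, (∀ i, Fin.append κ κ' i ≠ k) → η k = 1 ∧
      ∀ x, ThC.qd Q k (N.mulVec x) = D * ThC.qd Q k x := by
    intro k hk
    have hk1 : ∀ i, κ i ≠ k := fun i => by simpa using hk (Fin.castAdd _ i)
    have hk2 : ∀ l, κ' l ≠ k := fun l => by simpa using hk (Fin.natAdd _ l)
    have hηk : η k = 1 := by
      by_contra hne
      obtain ⟨i, hi⟩ := (hd.ran k).2 hne
      exact hk1 i hi
    refine ⟨hηk, ?_⟩
    have hker : U ≤ LinearMap.ker (fQ Q k) := by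
      rw [hU, Submodule.span_le]
      rintro _ (⟨x, hx, rfl⟩ | ⟨x, rfl⟩)
      · show fQ Q k (castQ x) = 0
        rw [fQ_castQ]
        have h1 : Submodule.span ℚ ((fun m => castQ (ThC.NA r A m)) '' F) ≤
            LinearMap.ker (fQ Q k) := by
          rw [← hfspan, Submodule.span_le]
          rintro _ ⟨l, rfl⟩
          show fQ Q k (f l) = 0
          rw [← hmf' l, fQ_castQ, hQv, if_neg (hk2 l).symm]
        have h2 := h1 (Submodule.subset_span ⟨x, hx, rfl⟩)
        rw [LinearMap.mem_ker] at h2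
        have h3 : fQ Q k (castQ (ThC.NA r A x)) = 0 := h2
        rw [fQ_castQ, ThC.qd_NA hd hηk] at h3
        rcases mul_eq_zero.1 h3 with h4 | h4
        · exact absurd h4 (Nat.cast_ne_zero.2 hr.ne')
        · exact h4
      · show fQ Q k (castQ (A.mulVec x - x)) = 0
        rw [fQ_castQ, ThC.qd_sub, ThC.qd_A hd, hηk, one_mul, sub_self]
    intro x
    have h1 := hker (hND x)
    rw [LinearMap.mem_ker, map_sub, map_smul, fQ_castQ, fQ_castQ, sub_eq_zero] at h1
    rw [h1, Rat.smul_def]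
    push_cast
    rfl
  refine ⟨P, Q, η, s, κ, κ', N, D, hd, hη', ?_⟩
  refine ⟨hr, hA, hd.PQ, hd.left, ?_, hD, ?_, ?_, hrow, ?_⟩
  · rw [Fin.append_injective_iff]
    refine ⟨hd.inj, hκ'i, ?_⟩
    intro i l hil
    exact (hd.ran (κ i)).1 ⟨i, rfl⟩ (by rw [hil]; exact hη' l)
  · -- `N * A = N`
    have h1 : ∀ x, (N * A).mulVec x = N.mulVec x := by
      intro x
      have h2 : N.mulVec (A.mulVec x - x) = 0 :=
        hNU _ (Submodule.subset_span (Or.inr ⟨x, rfl⟩))
      rw [Matrix.mulVec_sub, sub_eq_zero] at h2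
      rw [← Matrix.mulVec_mulVec, h2]
    ext i j
    have h2 := congrFun (h1 (Pi.single j 1)) i
    simpa using h2
  · intro x hx
    exact hNU _ (Submodule.subset_span (Or.inl ⟨x, hx, rfl⟩))
  · intro i
    refine Fin.addCases (fun i => ?_) (fun l => ?_) i
    · have hne : η (κ i) ≠ 1 := (hd.ran (κ i)).1 ⟨i, rfl⟩
      refine ⟨n, fun j => A.mulVec (Pi.single j 1) - Pi.single j 1,
        fun j => P j (κ i) / (η (κ i) - 1), fun j => Or.inr ⟨_, rfl⟩, fun k => ?_⟩
      rw [Fin.append_left]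
      have h1 : ∀ j, ThC.qd Q k (A.mulVec (Pi.single j 1) - Pi.single j 1) =
          (η k - 1) * Q k j := by
        intro j
        have h2 : ThC.qd Q k (Pi.single j 1) = Q k j := by
          rw [ThC.qd, Finset.sum_eq_single j]
          · simp
          · intro i _ hij
            rw [Pi.single_eq_of_ne hij]
            simp
          · intro h; exact absurd (Finset.mem_univ _) h
        rw [ThC.qd_sub, ThC.qd_A hd, h2]
        ring
      simp only [h1]
      have h2 := congrFun (congrFun hd.QP k) (κ i)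
      rw [Matrix.mul_apply, Matrix.one_apply] at h2
      have h3 : ∑ j, P j (κ i) / (η (κ i) - 1) * ((η k - 1) * Q k j) =
          (η k - 1) / (η (κ i) - 1) * ∑ j, Q k j * P j (κ i) := by
        rw [Finset.mul_sum]
        exact Finset.sum_congr rfl fun j _ => by ring
      rw [h3, h2]
      split_ifs with hk
      · rw [hk, mul_one]
        exact div_self (sub_ne_zero.2 hne)
      · rw [mul_zero]
    · refine ⟨r, fun j => (A ^ (j : ℕ)).mulVec (m l), fun _ => 1, fun j => Or.inl ?_, fun k => ?_⟩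
      · have : ∀ j : ℕ, (A ^ j).mulVec (m l) ∈ F := by
          intro j
          induction j with
          | zero => simpa using hmF l
          | succ j ih => rw [pow_succ', ← Matrix.mulVec_mulVec]; exact hF _ ih
        exact this j
      · rw [Fin.append_right, ← hQv k l]
        simp only [one_mul]
        rw [ThC.NA, ThC.qd_sum, Finset.sum_range]

end Pool.Agent.Helper58K9.LQ
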