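import Mathlib
import Pool.Agent.Helper58K9.LQ.Pts
import Pool.Agent.Helper58K9.LQ.Up2
import Pool.Agent.Helper58K9.LQ.Ld
import Pool.Agent.Helper58K9.QT.LogFam
import Pool.Agent.Helper58K9.QT.DerExt
import Pool.Agent.Helper58K9.QT.Ray

/-!
# The inequality for the divisors with a given inertia generator
-/

set_option autoImplicit false
set_option linter.unusedSectionVars false

namespace Pool.Agent.Helper58K9.LQ

open Pool.Agent.H436R3.Fol Pool.Agent.H436R3.KT Pool.Agent.W497.Mld Pool.Agent.TH165.ACC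
  Pool.Agent.Helper58K9.QT MvPolynomial

theorem ym_mem_iff {n : ℕ} {K : Type} [Field K] [Algebra ℂ K]
    [Algebra (MvPolynomial (Fin n) ℂ) K] [IsFractionRing (MvPolynomial (Fin n) ℂ) K]
    [IsScalarTower ℂ (MvPolynomial (Fin n) ℂ) K] (g : ToricGerm n K) (m : Fin n → ℤ) :
    ym K m ∈ g.X.R ↔ m ∈ Cn g.E := by
  constructor
  · intro h i
    obtain ⟨v, hv, htv⟩ := exists_mon (K := K) (g.prim i)
    have h1 := (ToricGerm.local_E hv htv).1 _ h
    rcases h1 with h1 | h1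
    · exact absurd h1 (ym_ne _)
    · rwa [ord_ym, htv] at h1
  · intro h
    rw [g.hR]
    exact ym_mem_LA h

/-- the residues of the orbit sums -/
theorem res_NA {n r : ℕ} {K : Type} [Field K] [Algebra ℂ K]
    [Algebra (MvPolynomial (Fin n) ℂ) K] [IsFractionRing (MvPolynomial (Fin n) ℂ) K]
    [IsScalarTower ℂ (MvPolynomial (Fin n) ℂ) K] {g : ToricGerm n K} {t : Pt g.X} {w : DVal K}
    (h : IsOverGerm t w) {A : Matrix (Fin n) (Fin n) ℤ} (hA : ∀ m ∈ Cn g.E, A.mulVec m ∈ Cn g.E)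
    (hW : Matrix.vecMul (tv w) A = tv w) {m : Fin n → ℤ} (hm : m ∈ Cn g.E)
    (h0 : pr m (tv w) = 0) :
    ∃ a : ℂ, a ≠ 0 ∧ w.Pos (ym K (ThC.NA r A m) - algebraMap ℂ K a) := by
  have hj : ∀ j : ℕ, (A ^ j).mulVec m ∈ Cn g.E ∧ pr ((A ^ j).mulVec m) (tv w) = 0 := by
    intro j
    induction j with
    | zero => simpa using ⟨hm, h0⟩
    | succ j ih =>
      rw [pow_succ', ← Matrix.mulVec_mulVec]
      exact ⟨hA _ ih.1, by rw [ThC.pr_A hW]; exact ih.2⟩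
  refine ⟨∏ j ∈ Finset.range r, chi t ((A ^ j).mulVec m),
    Finset.prod_ne_zero_iff.2 fun j _ => (chi_ne_zero_iff h (hj j).1).2 (hj j).2, ?_⟩
  rw [ThC.NA, ym_sum, map_prod]
  exact (Low.CR.prod (Finset.range r) fun j _ =>
    Low.CR.of_pos (w.reg_const _) (pos_ym h (hj j).1)).2.2

theorem gamma (hface : S_FACE) (hcomb : S_COMB2) (htau : S_TAU2) (hdiag : S_DIAG2)
    (hlow : S_LOW2) (hlamS : S_LAM2) (hcent : S_CENT2) (hlift : S_LIFT)
    {k : ℕ} {L K : Type} [Field L] [Algebra ℂ L] [Field K] [Algebra ℂ K] [Algebra L K]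
    [IsScalarTower ℂ L K] [Algebra (MvPolynomial (Fin (k + 1)) ℂ) K]
    [IsFractionRing (MvPolynomial (Fin (k + 1)) ℂ) K]
    [IsScalarTower ℂ (MvPolynomial (Fin (k + 1)) ℂ) K] {X : AffVar L} {B : EffDiv X}
    {g : ToricGerm (k + 1) K} (hq : IsQuot X g.X.R) (γ : K ≃ₐ[L] K) {r : ℕ} (hr : 0 < r)
    (hγr : γ ^ r = 1)
    (hmon : ∀ m : Fin (k + 1) → ℤ, ∃ (c : ℂ) (m' : Fin (k + 1) → ℤ),
      γ (ym K m) = algebraMap ℂ K c * ym K m')
    (hto : ∀ (w : DVal K) (v : DVal L) (e : ℤ), IsLocalRing' g.X.R w → Over w v e →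
      1 - e * (1 - B.mult v) = 0 ∨ (IsMonomial (k + 1) w ∧ 0 ≤ 1 - e * (1 - B.mult v)))
    (x₀ : Pt X) :
    ∃ f : X.R, x₀ f ≠ 0 ∧ ∀ (e₀ : LocEq B x₀) (x : Pt X), x f ≠ 0 →
      ∀ (e : LocEq B x) (v : DVal L) (a : ℝ) (w : DVal K) (ζ : ℂ), IsOverGerm x v →
      IsLogDisc e v a → Over w v r → IsPrimitiveRoot ζ r →
      (∀ f : K, f ≠ 0 → w.Pos (γ f / f - algebraMap ℂ K (ζ ^ w.ord f))) →
      ∀ m : ℝ, 0 ≤ m → (∀ v' a', IsOverGerm x₀ v' → IsLogDisc e₀ v' a' → m ≤ a') → m ≤ a := by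
  classical
  have := hq.fin
  have := hq.gal
  have hγr' : (γ.restrictScalars ℂ) ^ r = 1 := by
    ext f
    have h1 : ∀ j : ℕ, ((γ.restrictScalars ℂ) ^ j) f = (γ ^ j) f := by
      intro j
      induction j with
      | zero => rfl
      | succ j ih =>
        rw [pow_succ', pow_succ', AlgEquiv.mul_apply, AlgEquiv.mul_apply, ih]
        rfl
    rw [h1, hγr]
    rfl
  obtain ⟨A, c, hAr, hc0, hc, hγ⟩ := exists_action (γ := γ.restrictScalars ℂ) hr hγr' hmon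
  obtain ⟨ε, C, hC, hCT⟩ := exists_C (K := K) (n := k + 1) X.T X.top
  have hdiv : ∀ w : DVal K, IsLocalRing' g.X.R w →
      ∃ (v : DVal L) (r : ℤ), IsLocalRing' X.R v ∧ Over w v r := by
    intro w hw
    obtain ⟨v, r, hvo⟩ := exists_restrict (L := L) w
    exact ⟨v, r, local_down hq hw hvo, hvo⟩
  obtain ⟨b, hb0, hb2⟩ := hlamS k L K X B g (fun f hf => (hq.quot f).1 hf) hdiv hto C hC ε hCT
  -- the symmetries of the cone
  have hA1 : A * A ^ (r - 1) = 1 := by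
    rw [← pow_succ', Nat.sub_add_cancel hr, hAr]
  have hA2 : A ^ (r - 1) * A = 1 := by
    rw [← pow_succ, Nat.sub_add_cancel hr, hAr]
  have hcone : ∀ m, m ∈ Cn g.E ↔ A.mulVec m ∈ Cn g.E := by
    intro m
    rw [← ym_mem_iff, ← ym_mem_iff]
    have h1 : γ (ym K m) ∈ g.X.R ↔ ym K m ∈ g.X.R := by
      constructor
      · intro h
        have h2 := hq.inv γ⁻¹ _ h
        rwa [← AlgEquiv.mul_apply, inv_mul_cancel, AlgEquiv.one_apply] at h2
      · exact hq.inv γ _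
    rw [← h1]
    have h2 : γ (ym K m) = algebraMap ℂ K (c m) * ym K (A.mulVec m) := hγ m
    rw [h2]
    constructor
    · intro h
      have h3 : ym K (A.mulVec m) =
          algebraMap ℂ K (c m)⁻¹ * (algebraMap ℂ K (c m) * ym K (A.mulVec m)) := by
        rw [← mul_assoc, ← map_mul, inv_mul_cancel₀ (hc0 m), map_one, one_mul]
      rw [h3]
      exact mul_mem (Subalgebra.algebraMap_mem _ _) h
    · intro h
      exact mul_mem (Subalgebra.algebraMap_mem _ _) h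
  obtain ⟨σ, hσ⟩ := exists_perm g.prim g.edge g.pointed hA1 hA2 hcone
  -- the finitely many closed sets
  let ζ0 : ℂ := Complex.exp (2 * Real.pi * Complex.I / r)
  have hζ00 : IsPrimitiveRoot ζ0 r := Complex.isPrimitiveRoot_exp r hr.ne'
  let Sδ : Set (Fin g.N) × (Fin (k + 1) → Fin r) → Set (Pt g.X) := fun δ =>
    SD g (γ.restrictScalars ℂ) A c δ.1 fun i => ζ0 ^ ((δ.2 i : Fin r) : ℕ)
  have hδ : ∀ δ, ∃ f : X.R, x₀ f ≠ 0 ∧ ((∃ t₀ ∈ Sδ δ, OverPt x₀ t₀) ∨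
      ∀ t ∈ Sδ δ, ∀ x : Pt X, OverPt x t → x f = 0) := by
    intro δ
    rcases hlift L K X g.X hq x₀ (Sδ δ) with ⟨f, hf, h⟩ | ⟨t₀, ht₀, h⟩
    · exact ⟨f, hf, Or.inr h⟩
    · exact ⟨1, by rw [map_one]; exact one_ne_zero, Or.inl ⟨t₀, SD_closed h, ht₀⟩⟩
  choose fδ hfδ0 hfδ using hδ
  refine ⟨∏ δ, fδ δ, ?_, ?_⟩
  · rw [map_prod]
    exact Finset.prod_ne_zero_iff.2 fun δ _ => hfδ0 δ
  intro e₀ x hx e v a w ζ hv ha hov hζ hw m hm0 hm
  have hζ0 : ζ ≠ 0 := hζ.ne_zero hr.ne'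
  obtain ⟨t, hxt, htw⟩ := hcent L K X g.X hq x v w r hov hv
  -- the data of `w`
  set W0 : Fin (k + 1) → ℤ := tv w with hW0
  have hWA : Matrix.vecMul W0 A = W0 := Low.tv_inv hζ0 hc0 hγ hw
  have hj : ∀ i, ∃ j : Fin r, ζ0 ^ (j : ℕ) = ζ ^ W0 i := by
    intro i
    have h1 : (ζ ^ W0 i) ^ r = 1 := by
      rw [← zpow_natCast, ← zpow_mul, mul_comm, zpow_mul, zpow_natCast, hζ.pow_eq_one, one_zpow]
    have : NeZero r := ⟨hr.ne'⟩
    obtain ⟨j, hj, h2⟩ := hζ00.eq_pow_of_pow_eq_one h1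
    exact ⟨⟨j, hj⟩, h2⟩
  choose jj hjj using hj
  set I : Set (Fin g.N) := {i | ∀ m ∈ Cn g.E, pr m (tv w) = 0 → pr m (g.E i) = 0} with hI
  have htS : t ∈ Sδ (I, jj) := mem_SD htw hγ hζ0 hw fun i => hjj i
  have hx' : x (fδ (I, jj)) ≠ 0 := by
    rw [map_prod] at hx
    exact Finset.prod_ne_zero_iff.1 hx _ (Finset.mem_univ _)
  obtain ⟨t₀, ⟨hC1, hC2, hC3⟩, hxt₀⟩ := (hfδ (I, jj)).resolve_right fun h => hx' (h t htS x hxt)
  have hz' : ∀ m : Fin (k + 1) → ℤ, ∏ i, (ζ0 ^ ((jj i : Fin r) : ℕ)) ^ m i = ζ ^ pr m W0 := by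
    intro m
    rw [← prod_zpow hζ0]
    exact Finset.prod_congr rfl fun i _ => by rw [hjj]
  -- the faces
  let Ft : Set (Fin (k + 1) → ℤ) := {m | m ∈ Cn g.E ∧ pr m W0 = 0}
  have hFtI : ∀ m ∈ Cn g.E, (∀ i ∈ I, pr m (g.E i) = 0) → m ∈ Ft := by
    intro m hm h
    apply hface (k + 1) g.N g.E Ft (fun m hm => hm.1) ⟨Cn_zero, pr_zero _⟩
      (fun m hm m' hm' => ⟨Cn_add hm.1 hm'.1, by rw [pr_add, hm.2, hm'.2, add_zero]⟩)
      (fun m hm m' hm' h => ⟨hm, by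
        have h1 := h.2
        rw [pr_add] at h1
        have h2 := pr_nonneg htw hm
        have h3 := pr_nonneg htw hm'
        change pr m W0 = 0
        rw [← hW0] at h2 h3
        omega⟩) m hm
    intro i hi
    exact h i fun a ha ha0 => hi a ⟨ha, ha0⟩
  let F0 : Set (Fin (k + 1) → ℤ) := {m | m ∈ Cn g.E ∧ chi t₀ m ≠ 0}
  have hF0C : F0 ⊆ Cn g.E := fun m hm => hm.1
  have hF00 : (0 : Fin (k + 1) → ℤ) ∈ F0 := ⟨Cn_zero, by rw [chi_zero]; exact one_ne_zero⟩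
  have hF0a : ∀ m ∈ F0, ∀ m' ∈ F0, m + m' ∈ F0 := fun m hm m' hm' =>
    ⟨Cn_add hm.1 hm'.1, by rw [chi_add hm.1 hm'.1]; exact mul_ne_zero hm.2 hm'.2⟩
  have hF0f : ∀ m ∈ Cn g.E, ∀ m' ∈ Cn g.E, m + m' ∈ F0 → m ∈ F0 := fun m hm m' hm' h =>
    ⟨hm, fun h0 => h.2 (by rw [chi_add hm hm', h0, zero_mul])⟩
  have hF0A : ∀ m ∈ F0, A.mulVec m ∈ F0 := by
    intro m hm
    have hAm := (hcone m).1 hm.1
    refine ⟨hAm, fun h0 => hm.2 ?_⟩
    have h1 := hC1 ⟨_, ym_mem hm.1⟩ (c m • ⟨_, ym_mem hAm⟩) (by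
      change c m • ym K (A.mulVec m) = _
      rw [Algebra.smul_def]
      exact (hγ m).symm)
    rw [map_smul, chi_eq (m := A.mulVec m) _ rfl, chi_eq (m := m) _ rfl, h0, smul_zero] at h1
    exact h1.symm
  have hF0t : ∀ m ∈ F0, pr m W0 = 0 := by
    intro m hm
    refine (hFtI m hm.1 fun i hi => ?_).2
    by_contra h0
    exact hm.2 (hC2 m hm.1 ⟨i, hi, lt_of_le_of_ne (hm.1 i) (Ne.symm h0)⟩)
  -- the weights
  obtain ⟨cc, hcc, hco⟩ := exists_coord (E := g.E) (u := W0) fun m hm => pr_nonneg htw hm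
  obtain ⟨W', cc', hW'A, hcc', hco', hW'F, hW'r, hineq⟩ := hcomb (k + 1) g.N r g.E A hr hAr σ hσ b
    hb0 F0 hF0C hF00 hF0a hF0f hF0A W0 hWA hF0t cc hcc hco
  obtain ⟨PP, Q, η, s, κ, κ', N0, D0, hd, hκ', hd2⟩ := hdiag (k + 1) r hr A hAr F0 hF0A
  -- the lower bound
  obtain ⟨fM, hfM1, -, hfM3⟩ := Submodule.exists_fun_fin_finrank_span_eq ℚ
    ((fun m => castQ (ThC.NA r A m)) '' Ft)
  choose mm hmm1 hmm2 using hfM1
  have hAM : ∀ m, A.mulVec (ThC.NA r A m) = ThC.NA r A m := by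
    intro m
    have h1 : A.mulVec (ThC.NA r A m) = ThC.NA r A (A.mulVec m) := by
      simp only [ThC.NA]
      rw [Matrix.mulVec_sum]
      refine Finset.sum_congr rfl fun j _ => ?_
      rw [Matrix.mulVec_mulVec, Matrix.mulVec_mulVec, ← pow_succ', ← pow_succ]
    rw [h1, ThC.NA_A hd]
  have hres := fun l => res_NA (r := r) htw (fun m hm => (hcone m).1 hm) hWA (hmm1 l).1 (hmm1 l).2
  choose aM haM0 haM using hres
  obtain ⟨V0, hV0, hV0ζ, hlowN⟩ := hlow (k + 1) s r K A PP Q η κ hd c hc0 hc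
    (γ.restrictScalars ℂ) hγr' hγ ζ hζ w hw (rk r A Ft) (fun l => ThC.NA r A (mm l)) (by
      have h2 := hfM3
      rw [← (funext hmm2 : (fun l => castQ (ThC.NA r A (mm l))) = fM)] at h2
      exact h2) (fun l => hAM _) aM haM0 haM
  obtain ⟨n0, hcan0, han⟩ := ha
  obtain ⟨N, hN0, hNlog, hNord⟩ := exists_logFam hov hcan0 hC ε hCT
  have hVN := hlowN N hN0 hNlog
  have hrr : (0 : ℝ) < r := by exact_mod_cast hr
  have hlowfin : ∑ i, cc i * (1 - b i) + (∑ i, (V0 i : ℝ) + r * rk r A Ft) ≤ r * a := by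
    have h1 := hb2 x t hxt e w htw cc hcc hco
    rw [← h1]
    have hg : ∑ i, e.ρ i * (w.ord (algebraMap L K (e.g i)) : ℝ) =
        r * ∑ i, e.ρ i * (v.ord (e.g i) : ℝ) := by
      rw [Finset.mul_sum]
      refine Finset.sum_congr rfl fun i _ => ?_
      rw [hov.2 _ (e.ne i)]
      push_cast
      ring
    have h2 : ∑ i, (V0 i : ℝ) + r * rk r A Ft ≤ r * (n0 + 1) + w.ord C.det := by
      have h3 := hVN.trans hNord
      exact_mod_cast h3
    rw [hg, han]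
    nlinarith
  -- the character
  obtain ⟨τ, hτ0, hτa, hττ, hτχ⟩ := htau (k + 1) A c hc0 hc ζ hζ0 W' F0 hF00 hF0a (chi t₀)
    (fun m hm => hm.2) (fun m hm m' hm' => chi_add hm.1 hm'.1) (by
      intro m a ha a' ha' hmaa
      have h1 := hC3 m a ha.1 a' ha'.1 hmaa
      rw [hz'] at h1
      obtain ⟨z, hz⟩ := hW'r m a ha a' ha' hmaa
      rw [h1, hz, zpow_add₀ hζ0, zpow_mul, zpow_natCast, hζ.pow_eq_one, one_zpow, mul_one])
  -- the upper bound
  have hQP : Q * PP = 1 := hd.QP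
  have hup := upper2 hq hxt₀ e₀ hC ε hCT (fun w' hw' c' hc' hco' => hb2 x₀ t₀ hxt₀ e₀ w' hw' c' hc' hco')
    hm0 hm hd2 hQP (γ := γ.restrictScalars ℂ) (fun f => γ.commutes f) hγ hζ hW'A hW'F hF0C hτ0 hτa
    hττ (fun m hm f hf => by rw [chi_eq f hf, hτχ m hm])
    (fun m hm hmF f hf => by
      rw [chi_eq f hf]
      by_contra h0
      exact hmF ⟨hm, h0⟩)
    (V := Fin.append V0 fun _ => (r : ℤ)) (by
      intro i
      refine Fin.addCases (fun i => ?_) (fun i => ?_) i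
      · rw [Fin.append_left]
        exact hV0 i
      · rw [Fin.append_right]
        exact_mod_cast hr) (by
      intro i
      refine Fin.addCases (fun i => ?_) (fun i => ?_) i
      · rw [Fin.append_left, Fin.append_left]
        exact hV0ζ i
      · rw [Fin.append_right, Fin.append_right, zpow_natCast, hζ.pow_eq_one, hκ']) hcc' hco'
  have hsum : ∑ i, ((Fin.append V0 (fun _ => (r : ℤ)) : Fin (s + rk r A F0) → ℤ) i : ℝ) =
      ∑ i, (V0 i : ℝ) + r * rk r A F0 := by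
    rw [Fin.sum_univ_add]
    simp only [Fin.append_left, Fin.append_right, Finset.sum_const, Finset.card_univ,
      Fintype.card_fin, nsmul_eq_mul, Int.cast_natCast]
    ring
  rw [hsum] at hup
  have hfin : (r : ℝ) * m ≤ r * a := by
    have h1 : ∑ i, cc' i * (1 - b i) + r * rk r A F0 ≤
      ∑ i, cc i * (1 - b i) + r * rk r A Ft := hineq
    linarith
  exact le_of_mul_le_mul_left hfin hrr

end Pool.Agent.Helper58K9.LQ
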