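import Mathlib
import Pool.Agent.Helper58K9.LQ.Gam
import Pool.Agent.Helper58K9.QT.Inertia

/-!
# Lower semicontinuity of minimal log discrepancies of toric quotient pairs: the last steps
-/

set_option autoImplicit false
set_option linter.unusedSectionVars false

namespace Pool.Agent.Helper58K9.LQ

open Pool.Agent.H436R3.Fol Pool.Agent.H436R3.KT Pool.Agent.W497.Mld Pool.Agent.TH165.ACC
  Pool.Agent.Helper58K9.QT MvPolynomial

theorem inertia_order {L K : Type} [Field L] [Algebra ℂ L] [Field K] [Algebra ℂ K] [Algebra L K]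
    [IsScalarTower ℂ L K] [FiniteDimensional L K] {w : DVal K} {r : ℕ} {γ : K ≃ₐ[L] K} {ζ : ℂ}
    (hr : 0 < r) (hγ : γ ^ r = 1) (hζ : IsPrimitiveRoot ζ r)
    (hw : ∀ f : K, f ≠ 0 → w.Pos (γ f / f - algebraMap ℂ K (ζ ^ w.ord f))) : orderOf γ = r := by
  have hζ0 : ζ ≠ 0 := hζ.ne_zero hr.ne'
  obtain ⟨t, ht0, ht⟩ := w.surj
  have hord : ∀ f : K, f ≠ 0 → w.ord (γ f) = w.ord f := fun f hf =>
    Low.ord_inv (γ := γ.restrictScalars ℂ) hζ0 hw hf
  have h1 : ∀ j : ℕ, (γ ^ j) t ≠ 0 ∧ w.ord ((γ ^ j) t) = 1 ∧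
      Low.CR w ((γ ^ j) t / t) (algebraMap ℂ K (ζ ^ j)) := by
    intro j
    induction j with
    | zero =>
      refine ⟨ht0, ht, ?_⟩
      rw [pow_zero, AlgEquiv.one_apply, div_self ht0, pow_zero, map_one]
      exact Low.CR.refl w.reg_one
    | succ j ih =>
      obtain ⟨ih1, ih2, ih3⟩ := ih
      rw [pow_succ', AlgEquiv.mul_apply]
      refine ⟨(map_ne_zero γ).2 ih1, by rw [hord _ ih1, ih2], ?_⟩
      have h2 := hw _ ih1
      rw [ih2, zpow_one] at h2
      have h3 := (Low.CR.of_pos (w.reg_const _) h2).mul ih3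
      rw [pow_succ', map_mul]
      convert h3 using 1
      field_simp
  have h2 : ζ ^ orderOf γ = 1 := by
    have h3 := (h1 (orderOf γ)).2.2
    rw [pow_orderOf_eq_one, AlgEquiv.one_apply, div_self ht0] at h3
    have h4 := h3.2.2
    rw [← map_one (algebraMap ℂ K), ← map_sub] at h4
    exact (sub_eq_zero.1 (Low.pos_const h4)).symm
  exact Nat.dvd_antisymm (orderOf_dvd_of_pow_eq_one hγ) (hζ.dvd_of_pow_eq_one _ h2)

/-- comparison of minimal log discrepancies -/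
theorem mld_le {L : Type} [Field L] [Algebra ℂ L] {X : AffVar L} {B : EffDiv X} {x₀ x : Pt X}
    (e₀ : LocEq B x₀) (e : LocEq B x)
    (h : ∀ v a, IsOverGerm x v → IsLogDisc e v a → ∀ m : ℝ, 0 ≤ m →
      (∀ v' a', IsOverGerm x₀ v' → IsLogDisc e₀ v' a' → m ≤ a') → m ≤ a) : mld e₀ ≤ mld e := by
  unfold mld
  by_cases h0 : ∃ v a, IsOverGerm x₀ v ∧ IsLogDisc e₀ v a ∧ a < 0
  · rw [if_pos h0]
    exact bot_le
  · rw [if_neg h0]
    push Not at h0
    have h1 : ¬ ∃ v a, IsOverGerm x v ∧ IsLogDisc e v a ∧ a < 0 := by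
      rintro ⟨v, a, hv, ha, ha0⟩
      exact absurd (h v a hv ha 0 le_rfl fun v' a' hv' ha' => h0 v' a' hv' ha') (not_le.2 ha0)
    rw [if_neg h1]
    apply le_sInf
    rintro b ⟨v, a, hv, ha, rfl⟩
    by_contra hc
    push Not at hc
    obtain ⟨m, hm1, hm2⟩ := EReal.lt_iff_exists_real_btwn.1 hc
    have ha0 : 0 ≤ a := h v a hv ha 0 le_rfl fun v' a' hv' ha' => h0 v' a' hv' ha'
    have hm1' : a < m := by exact_mod_cast hm1
    refine absurd (h v a hv ha m (ha0.trans hm1'.le) fun v' a' hv' ha' => ?_) (not_le.2 hm1')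
    have h2 := hm2.le.trans (sInf_le ⟨v', a', hv', ha', rfl⟩)
    exact_mod_cast h2

theorem lsc (hface : S_FACE) (hcomb : S_COMB2) (htau : S_TAU2) (hdiag : S_DIAG2)
    (hlow : S_LOW2) (hlamS : S_LAM2) (hcent : S_CENT2) (hlift : S_LIFT)
    (n : ℕ) {L : Type} [Field L] [Algebra ℂ L] (X : AffVar L) (B : EffDiv X)
    (h : IsToricQuotientPair n X B) (x₀ : Pt X) :
    ∃ f : X.R, x₀ f ≠ 0 ∧ ∀ (e₀ : LocEq B x₀) (x : Pt X), x f ≠ 0 → ∀ e : LocEq B x,
      mld e₀ ≤ mld e := by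
  classical
  obtain ⟨K, _, _, _, _, R, hq, htor⟩ := h
  rcases n with _ | k
  · refine ⟨1, by rw [map_one]; exact one_ne_zero, fun e₀ x _ e => ?_⟩
    refine mld_le e₀ e fun v => ?_
    exfalso
    obtain ⟨alg, frac, tow, g, -⟩ := htor 1
    obtain ⟨f, hf, h1⟩ := v.surj
    obtain ⟨a, a', ha', h2⟩ := exists_frac (MvPolynomial (Fin 0) ℂ) (algebraMap L K f)
    obtain ⟨x, rfl⟩ := MvPolynomial.C_surjective (Fin 0) a
    obtain ⟨x', rfl⟩ := MvPolynomial.C_surjective (Fin 0) a'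
    have h3 : algebraMap L K f = algebraMap L K (algebraMap ℂ L (x / x')) := by
      rw [h2, ← IsScalarTower.algebraMap_apply ℂ L K, map_div₀]
      congr 1
      · exact jo_C x
      · exact jo_C x'
    have h4 := (algebraMap L K).injective h3
    have h5 : x / x' ≠ 0 := by
      intro h
      rw [h4, h, map_zero] at hf
      exact hf rfl
    rw [h4, v.const _ h5] at h1
    exact zero_ne_one h1
  · have := hq.fin
    have := hq.gal
    let _ : Fintype (K ≃ₐ[L] K) := Fintype.ofFinite _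
    have hγ : ∀ γ : K ≃ₐ[L] K, ∃ f : X.R, x₀ f ≠ 0 ∧ ∀ (e₀ : LocEq B x₀) (x : Pt X), x f ≠ 0 →
        ∀ (e : LocEq B x) (v : DVal L) (a : ℝ) (w : DVal K) (ζ : ℂ), IsOverGerm x v →
        IsLogDisc e v a → Over w v (orderOf γ : ℕ) → IsPrimitiveRoot ζ (orderOf γ) →
        (∀ f : K, f ≠ 0 → w.Pos (γ f / f - algebraMap ℂ K (ζ ^ w.ord f))) →
        ∀ m : ℝ, 0 ≤ m → (∀ v' a', IsOverGerm x₀ v' → IsLogDisc e₀ v' a' → m ≤ a') → m ≤ a := by
      intro γ
      obtain ⟨alg, frac, tow, g, rfl, hmon, hto⟩ := htor γ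
      exact gamma hface hcomb htau hdiag hlow hlamS hcent hlift hq γ (orderOf_pos γ)
        (pow_orderOf_eq_one γ) hmon hto x₀
    choose f hf0 hf using hγ
    refine ⟨∏ γ, f γ, ?_, fun e₀ x hx e => ?_⟩
    · rw [map_prod]
      exact Finset.prod_ne_zero_iff.2 fun γ _ => hf0 γ
    · refine mld_le e₀ e fun v a hv ha m hm0 hm => ?_
      obtain ⟨w, r, γ, ζ, hr, hov, hγr, hζ, hw⟩ := exists_inertia (K := K) v
      have hrγ := inertia_order hr hγr hζ hw
      subst hrγ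
      have hx' : x (f γ) ≠ 0 := by
        rw [map_prod] at hx
        exact Finset.prod_ne_zero_iff.1 hx _ (Finset.mem_univ _)
      exact hf γ e₀ x hx' e v a w ζ hv ha hov hζ hw m hm0 hm

end Pool.Agent.Helper58K9.LQ
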