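import Pool.Agent.Helper58K9.LQ.Stm
import Pool.Agent.Helper58K9.QT.Lam

/-!
# [LAM2] The pull-back of `K_X + B` is linear on the cone, at every closed point
-/

set_option autoImplicit false

namespace Pool.Agent.Helper58K9.LQ

open Pool.Agent.H436R3.Fol Pool.Agent.H436R3.KT Pool.Agent.W497.Mld Pool.Agent.TH165.ACC
  Pool.Agent.Helper58K9.QT MvPolynomial

namespace Lam2L

section conc

variable {n d : ℕ} {K : Type} [Field K] [Algebra ℂ K]
  [Algebra (MvPolynomial (Fin n) ℂ) K] [IsFractionRing (MvPolynomial (Fin n) ℂ) K]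
  [IsScalarTower ℂ (MvPolynomial (Fin n) ℂ) K]

/-- the order of a polynomial is at least the least order of its monomials -/
theorem exists_le_ord (w : DVal K) {p : MvPolynomial (Fin n) ℂ} (hp : p ≠ 0) :
    ∃ s ∈ p.support, pr (ex s) (tv w) ≤ w.ord (jo (Fin n) K p) := by
  have hne : p.support.Nonempty := by
    rwa [Finset.nonempty_iff_ne_empty, Ne, support_eq_empty]
  obtain ⟨s, hs, hmin⟩ := Finset.exists_min_image p.support
    (fun s => pr (ex s) (tv (n := n) w)) hne
  refine ⟨s, hs, ?_⟩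
  have h1 : jo (Fin n) K p * ym K (-(ex s)) ∈ LA K (Hs (tv (n := n) w)) := by
    apply jo_mul_mem_LA
    intro s' hs'
    change 0 ≤ pr _ _
    rw [pr_add, pr_neg]
    have := hmin s' hs'
    omega
  have h2 := reg_LA (v := w) (fun m hm => hm) h1
  have h3 := w.ord_nonneg (mul_ne_zero (jo_ne hp) (ym_ne _)) h2
  rw [w.map_mul _ _ (jo_ne hp) (ym_ne _), ord_ym, pr_neg] at h3
  omega

theorem concW {E : Fin d → Fin n → ℤ} {vE : Fin d → DVal K} (hvE : ∀ i, IsMonomial n (vE i))
    (htE : ∀ i, (tv (vE i) : Fin n → ℤ) = E i) {v : DVal K} {w : Fin d → ℝ}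
    (hw : ∀ i, 0 ≤ w i) (hc : Coord E w (tv v)) {p : MvPolynomial (Fin n) ℂ} (hp : p ≠ 0) :
    ∑ i, w i * ((vE i).ord (jo (Fin n) K p) : ℝ) ≤ (v.ord (jo (Fin n) K p) : ℝ) := by
  obtain ⟨s, hs, h1⟩ := exists_le_ord v hp
  have h2 : (pr (ex s) (tv v) : ℝ) ≤ (v.ord (jo (Fin n) K p) : ℝ) := by exact_mod_cast h1
  refine le_trans ?_ h2
  rw [coord_pr hc]
  refine Finset.sum_le_sum fun i _ => mul_le_mul_of_nonneg_left ?_ (hw i)
  have := (hvE i p hp).2 s hs
  rw [htE] at this
  exact_mod_cast this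

end conc

variable {k : ℕ} {L K : Type} [Field L] [Algebra ℂ L] [Field K] [Algebra ℂ K] [Algebra L K]
  [IsScalarTower ℂ L K] [Algebra (MvPolynomial (Fin (k + 1)) ℂ) K]
  [IsFractionRing (MvPolynomial (Fin (k + 1)) ℂ) K]
  [IsScalarTower ℂ (MvPolynomial (Fin (k + 1)) ℂ) K]

/-- `QT.lam_prime` for a closed point `tt` over `P` -/
theorem lam_prime' [FiniteDimensional L K] {X : AffVar L} {P : Pt X} {B : EffDiv X}
    {g : ToricGerm (k + 1) K} {tt : Pt g.X} (hsub : ∀ f ∈ X.R, algebraMap L K f ∈ g.X.R)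
    (hpt : OverPt P tt)
    (e : LocEq B P) {C : Matrix (Fin (k + 1)) (Fin (k + 1)) K} (hC : C.det ≠ 0)
    (ε : Fin X.d ≃ Fin (k + 1)) (hCT : ∀ (i : Fin X.d) (f : L),
      algebraMap L K (X.T.D i f) = ∑ j, C (ε i) j * tor K j (algebraMap L K f))
    {w : DVal K} (hw : ∀ f : g.X.R, w.Pos (f : K) → tt f = 0)
    {y : Fin k → K} (hy : ResInd w y) {v : DVal L} (hv : IsLocalRing' X.R v) {r : ℤ}
    (hov : Over w v r) {N : ℤ} (hN : IsCanOrd g.X.T w N) :
    -(w.ord C.det : ℝ) - ∑ i, e.ρ i * (w.ord (algebraMap L K (e.g i)) : ℝ) =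
      -(N + 1) + r * (1 - B.mult v) := by
  have hon : OnAt P v := by
    refine ⟨hv, fun f hf => ?_⟩
    have h1 := hw ⟨_, hsub f f.2⟩ ((hov.pos_iff _).2 hf)
    rwa [hpt f ⟨_, hsub f f.2⟩ rfl] at h1
  obtain ⟨a, ha, hae⟩ := e.eq v hon
  obtain ⟨t, ht0, ht⟩ := v.surj
  obtain ⟨t', ht0', ht'⟩ := w.surj
  obtain ⟨y', hy'⟩ := resInd_descend hov hy
  have hKF : FF k K := FF_of_toric
  have hLF : FF k L := FF_descend hKF ⟨X.R, X.fg, X.frac⟩
  obtain ⟨hM0, hcan⟩ := canOrd_of_resInd hLF ht0 ht hy' X.T X.top ε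
  have htK0 : algebraMap L K t ≠ 0 := (map_ne_zero _).2 ht0
  have htw : w.ord (algebraMap L K t) = r := by rw [hov.2 _ ht0, ht, mul_one]
  have hyK : ResInd w fun i => algebraMap L K (y' i) := resInd_map hov hy'
  obtain ⟨hU0', hcanw⟩ := canOrd_of_resInd hKF ht0' ht' hyK g.X.T g.X.top g.e
  have hMU := map_det_eq hCT t y'
  have hUU : (Matrix.of fun i j : Fin (k + 1) => g.X.T.D (g.e.symm i)
      ((Fin.cons t' fun i => algebraMap L K (y' i) : Fin (k + 1) → K) j)) =
      Matrix.of fun i j : Fin (k + 1) => tor K i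
      ((Fin.cons t' fun i => algebraMap L K (y' i) : Fin (k + 1) → K) j) := by
    ext i j
    rw [Matrix.of_apply, Matrix.of_apply, g.hT, Equiv.apply_symm_apply]
  rw [hUU] at hU0' hcanw
  have hU0 : (Matrix.of fun i j : Fin (k + 1) => tor K i
      ((Fin.cons (algebraMap L K t) fun i => algebraMap L K (y' i) :
        Fin (k + 1) → K) j)).det ≠ 0 := by
    intro h0
    rw [h0, mul_zero] at hMU
    exact (map_ne_zero _).2 hM0 hMU
  have hr := hov.1
  have hle1 := log_order hKF hyK (fun i => tor K i) htK0 ht0' (by omega) hU0 hU0'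
  have hle2 := log_order hKF hyK (fun i => tor K i) ht0' htK0 (by omega) hU0' hU0
  have h1 := ha.unique hcan
  have h2 := hN.unique hcanw
  have h3 := hov.2 _ hM0
  rw [hMU, w.map_mul _ _ hC hU0] at h3
  have h4 : ∑ i, e.ρ i * (w.ord (algebraMap L K (e.g i)) : ℝ) =
      r * ∑ i, e.ρ i * (v.ord (e.g i) : ℝ) := by
    rw [Finset.mul_sum]
    refine Finset.sum_congr rfl fun i _ => ?_
    rw [hov.2 _ (e.ne i)]
    push_cast
    ring
  rw [h4, ← hae]
  have h5 : r * a = N + 1 - r - w.ord C.det := by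
    rw [h1, h2, mul_neg, ← h3]
    omega
  have h6 : (r : ℝ) * a = N + 1 - r - w.ord C.det := by exact_mod_cast h5
  rw [mul_add, h6]
  ring

end Lam2L

open Lam2L

theorem lam2 : S_LAM2 := by
  intro k L K _ _ _ _ _ _ _ _ _ _ X B g hsub hdiv htor C hC ε hCT
  classical
  -- the edges
  have hE : ∀ i, ∃ w : DVal K, IsMonomial (k + 1) w ∧ (tv w : Fin (k + 1) → ℤ) = g.E i :=
    fun i => exists_mon (g.prim i)
  choose vE hvE htE using hE
  have hV : ∀ i, ∃ (v : DVal L) (r : ℤ), IsLocalRing' X.R v ∧ Over (vE i) v r :=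
    fun i => hdiv _ (ToricGerm.local_E (hvE i) (htE i))
  choose vL rL hvL hvO using hV
  have hregE : ∀ i (f : g.X.R), (f : K) ≠ 0 → 0 ≤ (vE i).ord (f : K) := fun i f hf =>
    (vE i).ord_nonneg hf ((ToricGerm.local_E (hvE i) (htE i)).1 _ f.2)
  refine ⟨fun i => 1 - rL i * (1 - B.mult (vL i)), fun i => ?_, ?_⟩
  · change 0 ≤ 1 - rL i * (1 - B.mult (vL i))
    rcases htor _ _ _ (ToricGerm.local_E (hvE i) (htE i)) (hvO i) with h | h
    · exact h.symm.le
    · exact h.2
  intro x tt hpt e w hov cc hcc hco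
  set Λ : DVal K → ℝ := fun w => -(w.ord C.det : ℝ) -
    ∑ i, e.ρ i * (w.ord (algebraMap L K (e.g i)) : ℝ) with hΛ
  -- functions which do not vanish at `tt`
  have hord0 : ∀ f : g.X.R, tt f ≠ 0 → (f : K) ≠ 0 ∧ w.ord (f : K) = 0 := by
    intro f hf
    have hf0 : (f : K) ≠ 0 := by
      intro h0
      apply hf
      have : f = 0 := Subtype.ext h0
      rw [this, map_zero]
    refine ⟨hf0, ?_⟩
    obtain ⟨⟨S, -, hRS, hSv⟩, hcen⟩ := hov
    have h5 := w.ord_nonneg hf0 (hSv.1 _ (hRS f.2))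
    have h6 : ¬ w.Pos (f : K) := fun h7 => hf ((hcen f).1 h7)
    by_contra h7
    exact h6 (Or.inr (by omega))
  -- the centres of the edges
  have hEt : ∀ i, 0 < cc i → ∀ f : g.X.R, (vE i).Pos (f : K) → tt f = 0 := by
    intro i hi f hf
    by_contra hft
    obtain ⟨hf0, hwf⟩ := hord0 f hft
    obtain ⟨M, q, e1, e2, -⟩ := g.rep f
    have hq : q ≠ 0 := by
      rintro rfl
      rw [map_zero] at e1
      exact mul_ne_zero hf0 (ym_ne _) e1
    have h1 := concW hvE htE hcc hco hq
    have h2 : (w.ord (jo (Fin (k + 1)) K q) : ℝ) = ∑ i, cc i * (pr (ex M) (g.E i) : ℝ) := by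
      rw [← e1, w.map_mul _ _ hf0 (ym_ne _), hwf, zero_add, ord_ym, coord_pr hco]
    have h3 : ∀ i, ((vE i).ord (jo (Fin (k + 1)) K q) : ℝ) =
        ((vE i).ord (f : K) : ℝ) + (pr (ex M) (g.E i) : ℝ) := by
      intro i
      rw [← e1, (vE i).map_mul _ _ hf0 (ym_ne _), ord_ym, htE]
      push_cast
      rfl
    have h4 : ∑ i, cc i * ((vE i).ord (f : K) : ℝ) ≤ 0 := by
      rw [h2] at h1
      simp only [h3, mul_add, Finset.sum_add_distrib] at h1
      linarith
    have h5 : cc i * ((vE i).ord (f : K) : ℝ) ≤ ∑ i, cc i * ((vE i).ord (f : K) : ℝ) :=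
      Finset.single_le_sum (f := fun i => cc i * ((vE i).ord (f : K) : ℝ))
        (fun j _ => mul_nonneg (hcc j) (by exact_mod_cast hregE j f hf0)) (Finset.mem_univ i)
    have h6 : (0 : ℝ) < ((vE i).ord (f : K) : ℝ) := by
      rcases hf with h | h
      · exact absurd h hf0
      · exact_mod_cast h
    have h7 := mul_pos hi h6
    linarith
  have hΛE : ∀ i, 0 < cc i → Λ (vE i) = rL i * (1 - B.mult (vL i)) := by
    intro i hi
    obtain ⟨y, hy⟩ := resInd_mon (hvE i)
    have h1 := lam_prime' hsub hpt e hC ε hCT (hEt i hi) hy (hvL i)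
      (hvO i) (can_mon g.e g.hT (hvE i))
    rw [hΛ]
    simp only
    rw [h1]
    push_cast
    ring
  obtain ⟨F, c, hFp, hFd, hc⟩ := fact (n := k + 1)
    (Fin.cons (-1) fun i => -e.ρ i : Fin (e.n + 1) → ℝ)
    (Fin.cons C.det fun i => algebraMap L K (e.g i) : Fin (e.n + 1) → K) (by
      intro i
      refine Fin.cases ?_ (fun i => ?_) i
      · simpa using hC
      · simpa using e.ne i)
  have hΛc : ∀ w : DVal K, Λ w = ∑ p ∈ F, c p * (w.ord (jo (Fin (k + 1)) K p) : ℝ) := by
    intro w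
    rw [← hc, Fin.sum_univ_succ, hΛ]
    simp only [Fin.cons_zero, Fin.cons_succ, neg_mul, one_mul, Finset.sum_neg_distrib]
    ring
  have hcp : ∀ p ∈ F, ∀ hpp : Prime p, (∀ i : Fin (k + 1), (valP K p hpp).ord (cv K i) = 0) →
      (∀ f : g.X.R, (valP K p hpp).Pos (f : K) → tt f = 0) → c p = 0 := by
    intro p hp hpp hcv hon
    have hL := g.local_prime hpp hcv
    obtain ⟨v, r, hv, hov⟩ := hdiv _ hL
    obtain ⟨y, hy⟩ := resInd_valP (K := K) hpp
    have h1 := lam_prime' hsub hpt e hC ε hCT hon hy hv hov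
      (can_unit g.e g.hT (by rw [← g.hR]; exact hL) hcv)
    have h2 : 1 - r * (1 - B.mult v) = 0 := by
      refine (htor _ v r hL hov).resolve_right ?_
      rintro ⟨h, -⟩
      obtain ⟨m1, hm1⟩ := prim_of_mon h
      have h3 : (tv (valP K p hpp) : Fin (k + 1) → ℤ) = 0 := funext hcv
      rw [h3, pr] at hm1
      simp at hm1
    have h5 : ∑ q ∈ F, c q * ((valP K p hpp).ord (jo (Fin (k + 1)) K q) : ℝ) = c p := by
      rw [Finset.sum_eq_single p]
      · rw [valP_self]; push_cast; ring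
      · intro q hq hqp
        rw [valP_other hpp (hFp q hq).ne_zero fun h => hqp (hFd p hp q hq h).symm]
        push_cast; ring
      · intro h; exact absurd hp h
    have h6 := hΛc (valP K p hpp)
    rw [h5, hΛ] at h6
    simp only at h6
    rw [h1] at h6
    rw [← h6]
    push_cast
    linarith
  have hlinp : ∀ p ∈ F, c p * (w.ord (jo (Fin (k + 1)) K p) : ℝ) =
      ∑ i, cc i * (c p * ((vE i).ord (jo (Fin (k + 1)) K p) : ℝ)) := by
    intro p hpF
    by_cases hcp0 : c p = 0
    · simp [hcp0]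
    have hp := hFp p hpF
    have hlin : (w.ord (jo (Fin (k + 1)) K p) : ℝ) =
        ∑ i, cc i * ((vE i).ord (jo (Fin (k + 1)) K p) : ℝ) := by
      by_cases h0 : ∀ i : Fin (k + 1), (valP K p hp).ord (cv K i) = 0
      · have h2 : ∃ f : g.X.R, (valP K p hp).Pos (f : K) ∧ tt f ≠ 0 := by
          by_contra h3
          push Not at h3
          exact hcp0 (hcp p hpF hp h0 h3)
        obtain ⟨f, hf, hPf⟩ := h2
        obtain ⟨hf0, hwf⟩ := hord0 f hPf
        obtain ⟨M, q, e1, e2, -⟩ := g.rep f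
        have hq : q ≠ 0 := by
          rintro rfl
          rw [map_zero] at e1
          exact mul_ne_zero hf0 (ym_ne _) e1
        have hpq : p ∣ q := by
          by_contra h3
          have h4 := valP_other (K := K) hp hq h3
          have h7 : (tv (valP K p hp) : Fin (k + 1) → ℤ) = 0 := funext h0
          rw [← e1, (valP K p hp).map_mul _ _ hf0 (ym_ne _), ord_ym, h7, pr] at h4
          simp only [Pi.zero_apply, mul_zero, Finset.sum_const_zero, add_zero] at h4
          rcases hf with hf | hf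
          · exact hf0 hf
          · omega
        obtain ⟨q', rfl⟩ := hpq
        have hq' : q' ≠ 0 := right_ne_zero_of_mul hq
        have h8 : (w.ord (jo (Fin (k + 1)) K p) : ℝ) + (w.ord (jo (Fin (k + 1)) K q') : ℝ) =
            ∑ i, cc i * (pr (ex M) (g.E i) : ℝ) := by
          rw [← coord_pr hco, ← ord_ym]
          have h5 : w.ord (jo (Fin (k + 1)) K (p * q')) = w.ord (ym K (ex M)) := by
            rw [← e1, w.map_mul _ _ hf0 (ym_ne _), hwf, zero_add]
          rw [← h5, map_mul, w.map_mul _ _ (jo_ne hp.ne_zero) (jo_ne hq')]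
          push_cast
          rfl
        have h9 : ∑ i, cc i * (pr (ex M) (g.E i) : ℝ) ≤
            ∑ i, cc i * ((vE i).ord (jo (Fin (k + 1)) K p) : ℝ) +
              ∑ i, cc i * ((vE i).ord (jo (Fin (k + 1)) K q') : ℝ) := by
          rw [← Finset.sum_add_distrib]
          refine Finset.sum_le_sum fun i _ => ?_
          rw [← mul_add]
          refine mul_le_mul_of_nonneg_left ?_ (hcc i)
          have h10 : (vE i).ord (jo (Fin (k + 1)) K (p * q')) =
              (vE i).ord (f : K) + pr (ex M) (g.E i) := by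
            rw [← e1, (vE i).map_mul _ _ hf0 (ym_ne _), ord_ym, htE]
          rw [map_mul, (vE i).map_mul _ _ (jo_ne hp.ne_zero) (jo_ne hq')] at h10
          have h11 := hregE i f hf0
          have h12 : pr (ex M) (g.E i) ≤ (vE i).ord (jo (Fin (k + 1)) K p) +
              (vE i).ord (jo (Fin (k + 1)) K q') := by omega
          exact_mod_cast h12
        have h11 := concW hvE htE hcc hco hp.ne_zero
        have h12 := concW hvE htE hcc hco hq'
        linarith
      · push Not at h0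
        obtain ⟨l, hl⟩ := h0
        have h1 : p ∣ MvPolynomial.X l := by
          by_contra h3
          exact hl (valP_other (K := K) hp (X_ne_zero l) h3)
        have h2 : Associated p (MvPolynomial.X l) := hp.associated_of_dvd X_prime h1
        have h3 : ∀ v' : DVal K, v'.ord (jo (Fin (k + 1)) K p) = v'.ord (cv K l) := fun v' =>
          ord_assoc v' hp.ne_zero h2
        rw [h3]
        have h4 := hco l
        change _ = ((w.ord (cv K l) : ℤ) : ℝ) at h4
        rw [← h4]
        refine Finset.sum_congr rfl fun i _ => ?_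
        rw [h3]
        have h5 := congrFun (htE i) l
        change (vE i).ord (cv K l) = g.E i l at h5
        rw [h5]
    rw [hlin, Finset.mul_sum]
    exact Finset.sum_congr rfl fun i _ => by ring
  have h1 : Λ w = ∑ i, cc i * Λ (vE i) := by
    simp only [hΛc]
    rw [Finset.sum_congr rfl hlinp, Finset.sum_comm]
    refine Finset.sum_congr rfl fun i _ => ?_
    rw [Finset.mul_sum]
  change Λ w = _
  rw [h1]
  refine Finset.sum_congr rfl fun i _ => ?_
  rcases eq_or_lt_of_le (hcc i) with h | h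
  · rw [← h, zero_mul, zero_mul]
  · rw [hΛE i h]
    ring

end Pool.Agent.Helper58K9.LQ
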