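import Pool.Agent.Helper58K9.LQ.Stm
import Pool.Agent.Helper58K9.QT.Lower
import Pool.Agent.Helper58K9.QT.Rank

/-!
# [LOW2] The weights of a valuation with tame inertia, with invariant monomials
-/

set_option autoImplicit false

namespace Pool.Agent.Helper58K9.LQ

open Pool.Agent.H436R3.Fol Pool.Agent.H436R3.KT Pool.Agent.W497.Mld Pool.Agent.TH165.ACC
  Pool.Agent.Helper58K9.QT MvPolynomial

namespace Low2L

open Pool.Agent.Helper58K9.QT.Low

theorem sumExtend_inl {ι K V : Type} [Field K] [AddCommGroup V] [Module K V] {v : ι → V}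
    (hs : LinearIndependent K v) (i : ι) : Module.Basis.sumExtend hs (Sum.inl i) = v i := by
  classical
  unfold Module.Basis.sumExtend
  simp only [Module.Basis.reindex_apply, Module.Basis.extend_apply_self]
  rfl

/-- completion of independent vectors to an invertible matrix -/
theorem exists_ext {n : ℕ} {ι : Type} [Fintype ι] {v : ι → Fin n → ℂ}
    (hv : LinearIndependent ℂ v) : ∃ (e : ι → Fin n) (P' : Matrix (Fin n) (Fin n) ℂ),
      Function.Injective e ∧ P'.det ≠ 0 ∧ ∀ x j, P' j (e x) = v x j := by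
  classical
  let b := Module.Basis.sumExtend hv
  have : Finite (ι ⊕ Module.Basis.sumExtendIndex hv) := Module.Finite.finite_basis b
  have := Fintype.ofFinite (ι ⊕ Module.Basis.sumExtendIndex hv)
  have hc : Fintype.card (ι ⊕ Module.Basis.sumExtendIndex hv) = n := by
    rw [← Module.finrank_eq_card_basis b, Module.finrank_fin_fun]
  let f := Fintype.equivFinOfCardEq hc
  let b' := b.reindex f
  refine ⟨fun x => f (Sum.inl x), (Pi.basisFun ℂ (Fin n)).toMatrix b', ?_, ?_, ?_⟩
  · intro x y h
    exact Sum.inl_injective (f.injective h)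
  · have h1 := Module.Basis.toMatrix_mul_toMatrix_flip (Pi.basisFun ℂ (Fin n)) b'
    intro h0
    have h2 := congrArg Matrix.det h1
    rw [Matrix.det_mul, h0, zero_mul, Matrix.det_one] at h2
    exact zero_ne_one h2
  · intro x j
    rw [Module.Basis.toMatrix_apply, Pi.basisFun_repr]
    have : b' (f (Sum.inl x)) = v x := by
      simp only [b', Module.Basis.reindex_apply, Equiv.symm_apply_apply]
      exact sumExtend_inl hv x
    rw [this]

variable {n : ℕ} {K : Type} [Field K] [Algebra ℂ K]
  [Algebra (MvPolynomial (Fin n) ℂ) K] [IsFractionRing (MvPolynomial (Fin n) ℂ) K]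
  [IsScalarTower ℂ (MvPolynomial (Fin n) ℂ) K]

/-- the determinant estimate of `QT.lower` in general form -/
theorem lower_gen {w : DVal K} (T : Finset (Fin n)) (H : Fin n → K)
    (P : Matrix (Fin n) (Fin n) ℂ) (hPdet : P.det ≠ 0) (hH0 : ∀ k ∈ T, H k ≠ 0)
    (hHt : ∀ j, ∀ k ∈ T, CR w (tor K j (H k)) (algebraMap ℂ K (P j k)))
    (N : Matrix (Fin n) (Fin n) K) (hN : N.det ≠ 0)
    (hlog : ∀ i, LogAt w (∑ j, N i j • tor K j)) :
    ∑ k ∈ T, w.ord (H k) ≤ w.ord N.det := by
  classical
  have happ : ∀ (i : Fin n) (f : K), (∑ j, N i j • tor K j) f = ∑ j, N i j * tor K j f := by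
    intro i f
    have h1 : ∀ (s : Finset (Fin n)), (∑ j ∈ s, N i j • tor K j) f = ∑ j ∈ s, N i j * tor K j f := by
      intro s
      induction s using Finset.induction_on with
      | empty => rw [Finset.sum_empty, Finset.sum_empty]; rfl
      | insert a s ha ih =>
        rw [Finset.sum_insert ha, Finset.sum_insert ha, Derivation.add_apply, ih,
          Derivation.smul_apply, smul_eq_mul]
    exact h1 Finset.univ
  have hNreg : ∀ i j, w.Reg (N i j) := by
    intro i j
    have h1 := hlog i (ym K (Pi.single j 1)) (ym_ne _)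
    rw [happ] at h1
    have h2 : ∑ l, N i l * tor K l (ym K (Pi.single j 1)) = N i j * ym K (Pi.single j 1) := by
      rw [Finset.sum_eq_single j]
      · rw [tor_ym, Pi.single_eq_same]
        push_cast
        ring
      · intro b _ hb
        rw [tor_ym, Pi.single_eq_of_ne hb]
        push_cast
        ring
      · intro h
        exact absurd (Finset.mem_univ _) h
    rw [h2, mul_div_assoc, div_self (ym_ne _), mul_one] at h1
    exact h1
  set Ξ : Matrix (Fin n) (Fin n) K := Matrix.of fun j k =>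
    if k ∈ T then tor K j (H k) else algebraMap ℂ K (P j k) with hΞ
  have hΞc : ∀ j k, CR w (Ξ j k) (algebraMap ℂ K (P j k)) := by
    intro j k
    rw [hΞ, Matrix.of_apply]
    split_ifs with h
    · exact hHt j k h
    · exact CR.refl (w.reg_const _)
  have hΞd : Ξ.det ≠ 0 ∧ w.ord Ξ.det = 0 := by
    have h1 : CR w Ξ.det (P.map (algebraMap ℂ K)).det := CR.det fun j k => hΞc j k
    have h2 : (P.map (algebraMap ℂ K)).det = algebraMap ℂ K P.det :=
      (RingHom.map_det (algebraMap ℂ K) P).symm
    rw [h2] at h1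
    exact h1.ord hPdet
  set vk : Fin n → K := fun k => if k ∈ T then H k else 1 with hvk
  set M' : Matrix (Fin n) (Fin n) K := Matrix.of fun i k =>
    if k ∈ T then (∑ j, N i j * tor K j (H k)) / H k else (N * Ξ) i k with hM'
  have hvk0 : ∀ k, vk k ≠ 0 := by
    intro k
    simp only [hvk]
    split_ifs with h
    · exact hH0 k h
    · exact one_ne_zero
  have hM'reg : ∀ i k, w.Reg (M' i k) := by
    intro i k
    rw [hM', Matrix.of_apply]
    split_ifs with h
    · have h1 := hlog i (H k) (hH0 k h)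
      rw [happ] at h1
      exact h1
    · rw [Matrix.mul_apply]
      exact reg_sum _ fun j _ => w.reg_mul (hNreg i j) (hΞc j k).1
  have hfac : N * Ξ = Matrix.of fun i k => vk k * M' i k := by
    refine Matrix.ext fun i k => ?_
    rw [Matrix.of_apply, hM', Matrix.of_apply]
    simp only [hvk]
    split_ifs with h
    · rw [Matrix.mul_apply, mul_div_cancel₀ _ (hH0 k h)]
      refine Finset.sum_congr rfl fun j _ => ?_
      rw [hΞ, Matrix.of_apply, if_pos h]
    · rw [one_mul]
  have hdet : N.det * Ξ.det = (∏ k, vk k) * M'.det := by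
    rw [← Matrix.det_mul, hfac, Matrix.det_mul_row]
  have hprod : ∏ k, vk k ≠ 0 := Finset.prod_ne_zero_iff.2 fun k _ => hvk0 k
  have hM'0 : M'.det ≠ 0 := by
    intro h0
    rw [h0, mul_zero] at hdet
    exact mul_ne_zero hN hΞd.1 hdet
  have h1 := congrArg w.ord hdet
  rw [w.map_mul _ _ hN hΞd.1, w.map_mul _ _ hprod hM'0, hΞd.2, add_zero,
    w.ord_prod _ _ fun k _ => hvk0 k] at h1
  have h2 : 0 ≤ w.ord M'.det := by
    rcases reg_det hM'reg with h | h
    · exact absurd h hM'0
    · exact h
  have h3 : ∑ k ∈ T, w.ord (H k) = ∑ k, w.ord (vk k) := by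
    rw [← Finset.sum_subset (Finset.subset_univ T)]
    · refine Finset.sum_congr rfl fun k hk => ?_
      simp only [hvk]
      rw [if_pos hk]
    · intro k _ hk
      simp only [hvk]
      rw [if_neg hk, w.ord_one]
  rw [h1, h3]
  linarith

/-- the invariant monomials `y^m` with nonzero residue -/
theorem inv_mon {A : Matrix (Fin n) (Fin n) ℤ} {c : (Fin n → ℤ) → ℂ} {γ : K ≃ₐ[ℂ] K} {ζ : ℂ}
    {w : DVal K} (hζ0 : ζ ≠ 0)
    (hγ : ∀ m, γ (ym K m) = algebraMap ℂ K (c m) * ym K (A.mulVec m))
    (hw : ∀ f : K, f ≠ 0 → w.Pos (γ f / f - algebraMap ℂ K (ζ ^ w.ord f)))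
    {m : Fin n → ℤ} (hm : A.mulVec m = m) {a : ℂ} (ha : a ≠ 0)
    (hp : w.Pos (ym K m - algebraMap ℂ K a)) :
    c m = 1 ∧ w.Pos (algebraMap ℂ K a⁻¹ * ym K m - 1) ∧
      γ (algebraMap ℂ K a⁻¹ * ym K m - 1) = algebraMap ℂ K a⁻¹ * ym K m - 1 ∧
      ∀ j : Fin n, CR w (tor K j (algebraMap ℂ K a⁻¹ * ym K m - 1)) (algebraMap ℂ K ((m j : ℤ) : ℂ)) := by
  have haa : algebraMap ℂ K a⁻¹ * algebraMap ℂ K a = 1 := by
    rw [← map_mul, inv_mul_cancel₀ ha, map_one]
  have h1 : w.Pos (algebraMap ℂ K a⁻¹ * ym K m - 1) := by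
    have h2 := w.pos_mul_left (w.reg_const a⁻¹) hp
    convert h2 using 1
    rw [mul_sub, haa]
  have hord : pr m (tv w) = 0 := by
    rw [← ord_ym]
    exact ((CR.of_pos (w.reg_const a) hp).ord ha).2
  have hc1 : c m = 1 := by
    have h2 := pos_yy (A := A) (c := c) hζ0 hγ hw m
    unfold yy at h2
    rw [hm, sub_self, hord, neg_zero, zpow_zero, mul_one, ym_zero, mul_one, ← map_one (algebraMap ℂ K),
      ← map_sub] at h2
    exact sub_eq_zero.1 (pos_const h2)
  refine ⟨hc1, h1, ?_, fun j => ?_⟩
  · rw [map_sub, map_mul, map_one, AlgEquiv.commutes, hγ, hm, hc1, map_one, one_mul]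
  · have h2 : tor K j (algebraMap ℂ K a⁻¹ * ym K m - 1) = algebraMap ℂ K ((m j : ℤ) : ℂ) *
        (algebraMap ℂ K a⁻¹ * ym K m - 1 + 1) := by
      rw [map_sub, tor_const, Derivation.map_one_eq_zero, tor_ym, map_intCast]
      ring
    rw [h2]
    refine CR.of_pos (w.reg_const _) ?_
    have h3 := w.pos_mul_left (w.reg_const ((m j : ℤ) : ℂ)) h1
    convert h3 using 1
    ring

end Low2L

open Pool.Agent.Helper58K9.QT.Low Low2L

theorem low2 : S_LOW2 := by
  intro n s r K _ _ _ _ _ A P Q η κ hd c hc0 hc γ hγr hγ ζ hζ w hw q M hM hAM a ha hMa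
  classical
  have hζ0 : ζ ≠ 0 := hζ.ne_zero hd.pos.ne'
  -- the eigenfunctions
  set F : Fin n → K := fun k => FF' K A c ζ (tv w) r P η k with hF
  have hPdet : P.det ≠ 0 := by
    intro h0
    have := congrArg Matrix.det hd.PQ
    rw [Matrix.det_mul, h0, zero_mul, Matrix.det_one] at this
    exact zero_ne_one this
  have hFpos : ∀ k, w.Pos (F k) := fun k => pos_F hζ0 hγ hw k
  have hFtor : ∀ j k, η k ≠ 1 → CR w (tor K j (F k)) (algebraMap ℂ K (P j k)) :=
    fun j k hk => tor_F hd hζ0 hγ hw j k hk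
  have hF0 : ∀ k, η k ≠ 1 → F k ≠ 0 := by
    intro k hk h0
    apply hPdet
    refine Matrix.det_eq_zero_of_column_eq_zero k fun j => ?_
    have h1 := hFtor j k hk
    rw [h0, map_zero] at h1
    have h2 := pos_neg h1.2.2
    rw [zero_sub, neg_neg] at h2
    exact pos_const h2
  have hFord : ∀ k, η k ≠ 1 → 0 < w.ord (F k) := by
    intro k hk
    rcases hFpos k with h | h
    · exact absurd h (hF0 k hk)
    · exact h
  have hκ1 : ∀ i, η (κ i) ≠ 1 := fun i => (hd.ran _).1 ⟨i, rfl⟩
  -- the invariant functions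
  set G : Fin q → K := fun l => algebraMap ℂ K (a l)⁻¹ * ym K (M l) - 1 with hG
  have hinv := fun l => inv_mon (γ := γ) (c := c) hζ0 hγ hw (hAM l) (ha l) (hMa l)
  have hGtor : ∀ j l, CR w (tor K j (G l)) (algebraMap ℂ K ((M l j : ℤ) : ℂ)) :=
    fun j l => (hinv l).2.2.2 j
  have hG0 : ∀ l, G l ≠ 0 := by
    intro l h0
    have h1 : castQ (M l) = 0 := by
      funext j
      have h1 := hGtor j l
      rw [h0, map_zero] at h1
      have h2 := pos_neg h1.2.2
      rw [zero_sub, neg_neg] at h2
      have h3 : M l j = 0 := by exact_mod_cast pos_const h2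
      simp [castQ, h3]
    exact hM.ne_zero l h1
  have hGord : ∀ l, (r : ℤ) ≤ w.ord (G l) := by
    intro l
    have hpos : 0 < w.ord (G l) := by
      rcases (hinv l).2.1 with h | h
      · exact absurd h (hG0 l)
      · exact h
    have h1 := hw (G l) (hG0 l)
    have h2 : γ (G l) = G l := (hinv l).2.2.1
    rw [h2, div_self (hG0 l), ← map_one (algebraMap ℂ K), ← map_sub] at h1
    have h3 : ζ ^ w.ord (G l) = 1 := (sub_eq_zero.1 (pos_const h1)).symm
    have h4 := (hζ.zpow_eq_one_iff_dvd _).1 h3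
    exact Int.le_of_dvd hpos h4
  refine ⟨fun i => w.ord (F (κ i)), fun i => hFord _ (hκ1 i), fun i => ?_, ?_⟩
  · have hk := hκ1 i
    have h1 := hw (F (κ i)) (hF0 _ hk)
    have h2 : γ (F (κ i)) = algebraMap ℂ K (η (κ i)) * F (κ i) := γ_F hd hζ0 hc0 hc hγ hw (κ i)
    rw [h2, mul_div_assoc, div_self (hF0 _ hk), mul_one, ← map_sub] at h1
    exact (sub_eq_zero.1 (pos_const h1)).symm
  · intro N hN hlog
    -- independence
    have hMZ : LinearIndependent ℤ M := by
      rw [Fintype.linearIndependent_iff] at hM ⊢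
      intro g hg l
      have h1 : ∑ l, (g l : ℚ) • castQ (M l) = 0 := by
        funext j
        have h2 := congrFun hg j
        rw [Finset.sum_apply] at h2 ⊢
        have h3 : ((∑ l, (g l • M l) j : ℤ) : ℚ) = 0 := by rw [h2]; simp
        rw [Pi.zero_apply, ← h3]
        push_cast
        refine Finset.sum_congr rfl fun l _ => ?_
        simp [castQ]
      exact_mod_cast hM (fun l => (g l : ℚ)) h1 l
    have hMC := linInd_complex hMZ
    let v : Fin s ⊕ Fin q → Fin n → ℂ := Sum.elim (fun i j => P j (κ i)) (fun l j => ((M l j : ℤ) : ℂ))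
    have hQM : ∀ i l, ∑ j, Q (κ i) j * ((M l j : ℤ) : ℂ) = 0 := by
      intro i l
      have h1 : ∀ j, ((M l j : ℤ) : ℂ) = ∑ j', ((A j j' : ℤ) : ℂ) * ((M l j' : ℤ) : ℂ) := by
        intro j
        have h2 := congrFun (hAM l) j
        rw [← h2]
        simp [Matrix.mulVec, dotProduct]
      have h3 : ∀ j', ∑ j, Q (κ i) j * ((A j j' : ℤ) : ℂ) = η (κ i) * Q (κ i) j' := by
        intro j'
        have h4 := congrFun (congrFun hd.left (κ i)) j'
        rw [Matrix.mul_apply, Matrix.diagonal_mul] at h4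
        exact h4
      have h5 : ∑ j, Q (κ i) j * ((M l j : ℤ) : ℂ) =
          η (κ i) * ∑ j, Q (κ i) j * ((M l j : ℤ) : ℂ) := by
        calc ∑ j, Q (κ i) j * ((M l j : ℤ) : ℂ)
            = ∑ j, Q (κ i) j * ∑ j', ((A j j' : ℤ) : ℂ) * ((M l j' : ℤ) : ℂ) :=
              Finset.sum_congr rfl fun j _ => by rw [← h1 j]
          _ = ∑ j', (∑ j, Q (κ i) j * ((A j j' : ℤ) : ℂ)) * ((M l j' : ℤ) : ℂ) := by
              simp only [Finset.mul_sum, Finset.sum_mul]
              rw [Finset.sum_comm]
              refine Finset.sum_congr rfl fun j' _ => Finset.sum_congr rfl fun j _ => ?_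
              ring
          _ = _ := by
              rw [Finset.mul_sum]
              refine Finset.sum_congr rfl fun j' _ => ?_
              rw [h3]
              ring
      have h6 : (η (κ i) - 1) * ∑ j, Q (κ i) j * ((M l j : ℤ) : ℂ) = 0 := by
        linear_combination -h5
      exact (mul_eq_zero.1 h6).resolve_left (sub_ne_zero.2 (hκ1 i))
    have hQP : ∀ i i', ∑ j, Q (κ i) j * P j (κ i') = if i = i' then 1 else 0 := by
      intro i i'
      have h1 := congrFun (congrFun hd.QP (κ i)) (κ i')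
      rw [Matrix.mul_apply, Matrix.one_apply] at h1
      rw [h1]
      by_cases h : i = i'
      · rw [if_pos h, if_pos (by rw [h])]
      · rw [if_neg h, if_neg (fun h' => h (hd.inj h'))]
    have hv : LinearIndependent ℂ v := by
      rw [Fintype.linearIndependent_iff]
      intro g hg
      rw [Fintype.sum_sum_type] at hg
      have hj : ∀ j, ∑ i, g (Sum.inl i) * P j (κ i) + ∑ l, g (Sum.inr l) * ((M l j : ℤ) : ℂ) = 0 := by
        intro j
        have h2 := congrFun hg j
        rw [Pi.add_apply, Finset.sum_apply, Finset.sum_apply] at h2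
        exact h2
      have hl : ∀ i, g (Sum.inl i) = 0 := by
        intro i
        have h1 : ∑ j, Q (κ i) j * (∑ i', g (Sum.inl i') * P j (κ i') +
            ∑ l, g (Sum.inr l) * ((M l j : ℤ) : ℂ)) = 0 :=
          Finset.sum_eq_zero fun j _ => by rw [hj j, mul_zero]
        have h2 : ∑ j, Q (κ i) j * (∑ i', g (Sum.inl i') * P j (κ i') +
            ∑ l, g (Sum.inr l) * ((M l j : ℤ) : ℂ)) =
            ∑ i', g (Sum.inl i') * (∑ j, Q (κ i) j * P j (κ i')) +
            ∑ l, g (Sum.inr l) * (∑ j, Q (κ i) j * ((M l j : ℤ) : ℂ)) := by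
          simp only [mul_add, Finset.sum_add_distrib, Finset.mul_sum]
          congr 1
          · rw [Finset.sum_comm]
            exact Finset.sum_congr rfl fun _ _ => Finset.sum_congr rfl fun _ _ => by ring
          · rw [Finset.sum_comm]
            exact Finset.sum_congr rfl fun _ _ => Finset.sum_congr rfl fun _ _ => by ring
        rw [h2] at h1
        simp only [hQM, hQP, mul_zero, Finset.sum_const_zero, add_zero, mul_ite, mul_one,
          Finset.sum_ite_eq, Finset.mem_univ, if_true] at h1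
        exact h1
      have hr : ∀ l, g (Sum.inr l) = 0 := by
        rw [Fintype.linearIndependent_iff] at hMC
        apply hMC
        funext j
        have h2 := hj j
        rw [Finset.sum_eq_zero (fun i _ => by rw [hl i, zero_mul]), zero_add] at h2
        rw [Finset.sum_apply, Pi.zero_apply, ← h2]
        rfl
      intro x
      rcases x with i | l
      · exact hl i
      · exact hr l
    obtain ⟨e, P', he, hP', heP⟩ := exists_ext hv
    -- the functions
    let Hx : Fin s ⊕ Fin q → K := Sum.elim (fun i => F (κ i)) G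
    let H : Fin n → K := fun k => if h : ∃ x, e x = k then Hx h.choose else 1
    have hHe : ∀ x, H (e x) = Hx x := by
      intro x
      have h : ∃ y, e y = e x := ⟨x, rfl⟩
      have h1 : h.choose = x := he h.choose_spec
      simp only [H]
      rw [dif_pos h, h1]
    have hHx0 : ∀ x, Hx x ≠ 0 := by
      rintro (i | l)
      · exact hF0 _ (hκ1 i)
      · exact hG0 l
    have hmain := lower_gen (w := w) (Finset.univ.image e) H P' hP' (by
      intro k hk
      obtain ⟨x, -, rfl⟩ := Finset.mem_image.1 hk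
      rw [hHe]
      exact hHx0 x) (by
      intro j k hk
      obtain ⟨x, -, rfl⟩ := Finset.mem_image.1 hk
      rw [hHe, heP]
      rcases x with i | l
      · exact hFtor j (κ i) (hκ1 i)
      · exact hGtor j l) N hN hlog
    rw [Finset.sum_image (fun x _ y _ h => he h), Fintype.sum_sum_type] at hmain
    simp only [hHe] at hmain
    have h7 : (r : ℤ) * q ≤ ∑ l : Fin q, w.ord (Hx (Sum.inr l)) := by
      have h8 := Finset.sum_le_sum (s := (Finset.univ : Finset (Fin q)))
        (f := fun _ => (r : ℤ)) (g := fun l => w.ord (G l)) (fun l _ => hGord l)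
      rw [Finset.sum_const, Finset.card_univ, Fintype.card_fin, nsmul_eq_mul, mul_comm] at h8
      exact h8
    have h9 : ∑ i : Fin s, w.ord (Hx (Sum.inl i)) = ∑ i, w.ord (F (κ i)) := rfl
    rw [h9] at hmain
    linarith

end Pool.Agent.Helper58K9.LQ
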